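import Mathlib.LinearAlgebra.FreeModule.PID
import Mathlib.Algebra.Algebra.ZMod
import Mathlib.RingTheory.TotallySplit
import Mathlib.RingTheory.Etale.Weakly
import Pool.Agent.MP_702fe9_al.h61.Lin
import Mathlib.Data.Nat.Prime.Int
import Mathlib.GroupTheory.IndexNormal
import Mathlib.Algebra.Ring.IsFormallyReal
import Mathlib.GroupTheory.Commutator.Finite
import Mathlib.GroupTheory.Transfer
import Mathlib.NumberTheory.Multiplicity

-- ======== part 0: formerly Pool.Agent.MP_702fe9_al.h61.Space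
section MrgPart0

set_option autoImplicit false

namespace Pool.Agent.MP_702fe9_al.H61

open Module

variable {ι : Type}

def YInv (Y : ι → Set F) (N : Subgroup F) : Prop := ∀ i x, ∀ g ∈ N, x ∈ Y i → x * g ∈ Y i

def YFin (Y : ι → Set F) : Prop := {i | (Y i).Nonempty}.Finite

theorem YInv.mono {Y : ι → Set F} {N N' : Subgroup F} (h : YInv Y N) (hle : N' ≤ N) :
    YInv Y N' := fun i x g hg hx => h i x g (hle hg) hx

theorem YInv.iff {Y : ι → Set F} {N : Subgroup F} (h : YInv Y N) (i : ι) (x : F) {g : F}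
    (hg : g ∈ N) : x * g ∈ Y i ↔ x ∈ Y i :=
  ⟨fun hx => by simpa using h i _ g⁻¹ (N.inv_mem hg) hx, h i x g hg⟩

theorem yinv_univ (N : Subgroup F) : YInv (fun _ : ι => Set.univ) N := fun _ _ _ _ _ => trivial

theorem yfin_of_finite [Finite ι] (Y : ι → Set F) : YFin Y := Set.toFinite _

section ring
variable {R : Type} [CommRing R]

variable (R) in
/-- invariant functions with prescribed support -/
def Fn (Y : ι → Set F) (N : Subgroup F) : Submodule R (ι × F → R) where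
  carrier := {f | (∀ e : ι × F, e.2 ∉ Y e.1 → f e = 0) ∧ ∀ g ∈ N, Rt g f = f}
  add_mem' := by
    rintro f f' ⟨h1, h2⟩ ⟨h3, h4⟩
    refine ⟨fun e he => by simp [h1 e he, h3 e he], fun g hg => by rw [map_add, h2 g hg, h4 g hg]⟩
  zero_mem' := ⟨fun _ _ => rfl, fun g _ => map_zero _⟩
  smul_mem' := by
    rintro c f ⟨h1, h2⟩
    refine ⟨fun e he => by simp [h1 e he], fun g hg => by rw [map_smul, h2 g hg]⟩

theorem mem_Fn {Y : ι → Set F} {N : Subgroup F} {f : ι × F → R} :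
    f ∈ Fn R Y N ↔ (∀ e : ι × F, e.2 ∉ Y e.1 → f e = 0) ∧ ∀ g ∈ N, Rt g f = f := Iff.rfl

theorem Fn.app {Y : ι → Set F} {N : Subgroup F} {f : ι × F → R} (hf : f ∈ Fn R Y N) (i : ι)
    (x : F) {g : F} (hg : g ∈ N) : f (i, x * g) = f (i, x) := congrFun (hf.2 g hg) (i, x)

theorem Fn_mono (Y : ι → Set F) {N N' : Subgroup F} (h : N' ≤ N) : Fn R Y N ≤ Fn R Y N' :=
  fun _ hf => ⟨hf.1, fun g hg => hf.2 g (h hg)⟩

theorem mulF_mem {Y : ι → Set F} {N : Subgroup F} {A : F → R} (hA : ∀ x, ∀ g ∈ N, A (x * g) = A x)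
    {f : ι × F → R} (hf : f ∈ Fn R Y N) : mulF A f ∈ Fn R Y N := by
  refine ⟨fun e he => by simp [mulF_apply, hf.1 e he], fun g hg => ?_⟩
  rw [Rt_mulF, hf.2 g hg]
  congr 2
  funext x
  exact hA x g hg

def Orb (Y : ι → Set F) (N : Subgroup F) : Type := {q : ι × (F ⧸ N) // q.2.out ∈ Y q.1}

theorem finite_orb {Y : ι → Set F} (hY : YFin Y) (N : Subgroup F) [N.FiniteIndex] :
    Finite (Orb Y N) := by
  have : Finite {i | (Y i).Nonempty} := hY
  refine Finite.of_injective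
    (fun q : Orb Y N => ((⟨q.1.1, ⟨_, q.2⟩⟩ : {i | (Y i).Nonempty}), q.1.2)) ?_
  intro q q' h
  simp only [Prod.mk.injEq, Subtype.mk.injEq] at h
  exact Subtype.ext (Prod.ext h.1 h.2)

noncomputable def nn (Y : ι → Set F) (N : Subgroup F) : ℕ := Nat.card (Orb Y N)

noncomputable def toOrb (Y : ι → Set F) (N : Subgroup F) : Fn R Y N →ₗ[R] (Orb Y N → R) where
  toFun f q := f.1 (q.1.1, q.1.2.out)
  map_add' _ _ := rfl
  map_smul' _ _ := rfl

theorem toOrb_bij {Y : ι → Set F} {N : Subgroup F} (hY : YInv Y N) :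
    Function.Bijective (toOrb (R := R) Y N) := by
  classical
  constructor
  · rw [← LinearMap.ker_eq_bot, eq_bot_iff]
    intro f hf
    apply Subtype.ext
    funext e
    obtain ⟨h, hh⟩ := QuotientGroup.mk_out_eq_mul N e.2
    by_cases he : e.2 ∈ Y e.1
    · have h1 : (QuotientGroup.mk e.2 : F ⧸ N).out ∈ Y e.1 := by
        rw [hh]; exact hY _ _ _ h.2 he
      have h2 := congrFun hf ⟨(e.1, QuotientGroup.mk e.2), h1⟩
      change f.1 (e.1, (QuotientGroup.mk e.2 : F ⧸ N).out) = 0 at h2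
      rw [hh, Fn.app f.2 _ _ h.2] at h2
      exact h2
    · exact f.2.1 e he
  · intro m
    refine ⟨⟨fun e => if h : (QuotientGroup.mk e.2 : F ⧸ N).out ∈ Y e.1 then
      m ⟨(e.1, QuotientGroup.mk e.2), h⟩ else 0, ?_, ?_⟩, ?_⟩
    · intro e he
      obtain ⟨h, hh⟩ := QuotientGroup.mk_out_eq_mul N e.2
      apply dif_neg
      rw [hh, hY.iff _ _ h.2]
      exact he
    · intro g hg
      funext e
      have : (QuotientGroup.mk (e.2 * g) : F ⧸ N) = QuotientGroup.mk e.2 :=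
        QuotientGroup.mk_mul_of_mem e.2 hg
      simp only [Rt_apply, this]
    · funext q
      change (if h : (QuotientGroup.mk q.1.2.out : F ⧸ N).out ∈ Y q.1.1 then
        m ⟨(q.1.1, QuotientGroup.mk q.1.2.out), h⟩ else 0) = m q
      have h1 : (QuotientGroup.mk q.1.2.out : F ⧸ N) = q.1.2 := QuotientGroup.out_eq' _
      have h2 : (QuotientGroup.mk q.1.2.out : F ⧸ N).out ∈ Y q.1.1 := by rw [h1]; exact q.2
      rw [dif_pos h2]
      congr 1
      exact Subtype.ext (Prod.ext rfl h1)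

theorem finite_Fn {Y : ι → Set F} {N : Subgroup F} (hY : YInv Y N) (hf : YFin Y)
    [N.FiniteIndex] : Module.Finite R (Fn R Y N) := by
  have := finite_orb hf N
  exact Module.Finite.equiv (LinearEquiv.ofBijective _ (toOrb_bij hY)).symm

theorem finrank_Fn [StrongRankCondition R] {Y : ι → Set F} {N : Subgroup F} (hY : YInv Y N)
    (hf : YFin Y) [N.FiniteIndex] : finrank R (Fn R Y N) = nn Y N := by
  have := finite_orb hf N
  have := Fintype.ofFinite (Orb Y N)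
  rw [(LinearEquiv.ofBijective _ (toOrb_bij hY)).finrank_eq, finrank_fintype_fun_eq_card, nn,
    Nat.card_eq_fintype_card]

theorem nn_univ (N : Subgroup F) : nn (fun _ : ι => Set.univ) N = Nat.card ι * N.index := by
  rw [nn, Subgroup.index, ← Nat.card_prod]
  exact Nat.card_congr (Equiv.subtypeUnivEquiv (fun _ => trivial))

/-- a normal `p`-covering -/
structure Cov (p : ℕ) (N N' : Subgroup F) : Prop where
  le : N' ≤ N
  norm : ∀ g ∈ N, ∀ n ∈ N', g⁻¹ * n * g ∈ N'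
  fin : N'.FiniteIndex
  pp : ∃ a : ℕ, ∀ f : F, f ^ (p ^ a) ∈ N'

abbrev Qt (N N' : Subgroup F) : Type := N ⧸ N'.subgroupOf N

theorem Cov.normal {p : ℕ} {N N' : Subgroup F} (h : Cov p N N') : (N'.subgroupOf N).Normal := by
  constructor
  intro n hn g
  have := h.norm g⁻¹ (N.inv_mem g.2) n hn
  simpa [Subgroup.mem_subgroupOf] using this

theorem Cov.finQ {p : ℕ} {N N' : Subgroup F} (h : Cov p N N') : Finite (Qt N N') := by
  have := h.fin
  infer_instance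

theorem Cov.finN {p : ℕ} {N N' : Subgroup F} (h : Cov p N N') : N.FiniteIndex := by
  have := h.fin
  exact Subgroup.finiteIndex_of_le h.le

theorem Cov.Rt_mem {p : ℕ} {N N' : Subgroup F} (h : Cov p N N') {Y : ι → Set F} (hY : YInv Y N)
    {g : F} (hg : g ∈ N) {f : ι × F → R} (hf : f ∈ Fn R Y N') : Rt g f ∈ Fn R Y N' := by
  refine ⟨fun e he => hf.1 _ (fun h' => he ((hY.iff _ _ hg).mp h')), fun n hn => ?_⟩
  have : n * g = g * (g⁻¹ * n * g) := by group
  rw [Rt_Rt, this, ← Rt_Rt, hf.2 _ (h.norm g hg n hn)]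

/-- the transfer -/
noncomputable def tr (N N' : Subgroup F) : (ι × F → R) →ₗ[R] (ι × F → R) :=
  ∑ᶠ q : Qt N N', Rt (q.out : N)

theorem tr_apply (N N' : Subgroup F) [Fintype (Qt N N')] (f : ι × F → R) :
    tr N N' f = ∑ q : Qt N N', Rt (q.out : N) f := by
  rw [tr, finsum_eq_sum_of_fintype, LinearMap.sum_apply]

theorem Rt_out {N N' : Subgroup F} {f : ι × F → R} (hf : ∀ n ∈ N', Rt n f = f) (g : N) :
    Rt ((QuotientGroup.mk g : Qt N N').out : N) f = Rt g f := by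
  obtain ⟨h, hh⟩ := QuotientGroup.mk_out_eq_mul (N'.subgroupOf N) g
  rw [hh, Subgroup.coe_mul, ← Rt_Rt, hf ((h : N) : F) h.2]

theorem tr_eq_sum {N N' : Subgroup F} {J : Type} [Fintype J] (e : J → N)
    (he : Function.Bijective (fun j => (QuotientGroup.mk (e j) : Qt N N')))
    {f : ι × F → R} (hf : ∀ n ∈ N', Rt n f = f) : tr N N' f = ∑ j, Rt (e j) f := by
  have : Finite (Qt N N') := Finite.of_surjective _ he.2
  have := Fintype.ofFinite (Qt N N')
  rw [tr_apply]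
  symm
  refine Fintype.sum_bijective _ he _ _ (fun j => ?_)
  rw [Rt_out hf]

theorem Rt_tr {N N' : Subgroup F} [Finite (Qt N N')] {f : ι × F → R}
    (hf : ∀ n ∈ N', Rt n f = f) {g : F} (hg : g ∈ N) : Rt g (tr N N' f) = tr N N' f := by
  have := Fintype.ofFinite (Qt N N')
  conv_rhs => rw [tr_eq_sum (J := Qt N N') (fun q => (⟨g, hg⟩ : N) * q.out)
    (by
      have : (fun q : Qt N N' => (QuotientGroup.mk ((⟨g, hg⟩ : N) * q.out) : Qt N N')) =
          fun q => (⟨g, hg⟩ : N) • q := by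
        funext q
        exact MulAction.Quotient.mk_smul_out (N'.subgroupOf N) (⟨g, hg⟩ : N) q
      rw [this]
      exact MulAction.bijective _) hf]
  rw [tr_apply, map_sum]
  simp only [Rt_Rt, Subgroup.coe_mul]

theorem Cov.tr_mem {p : ℕ} {N N' : Subgroup F} (h : Cov p N N') {Y : ι → Set F} (hY : YInv Y N)
    {f : ι × F → R} (hf : f ∈ Fn R Y N') : tr N N' f ∈ Fn R Y N := by
  have := h.finQ
  refine ⟨fun e he => ?_, fun g hg => Rt_tr hf.2 hg⟩
  have := Fintype.ofFinite (Qt N N')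
  rw [tr_apply, Finset.sum_apply]
  exact Finset.sum_eq_zero (fun q _ => (h.Rt_mem hY (q.out : N).2 hf).1 e he)

theorem Cov.tr_Rt {p : ℕ} {N N' : Subgroup F} (h : Cov p N N') {f : ι × F → R}
    (hf : ∀ n ∈ N', Rt n f = f) {g : F} (hg : g ∈ N) : tr N N' (Rt g f) = tr N N' f := by
  have := h.finQ
  have := h.normal
  have := Fintype.ofFinite (Qt N N')
  conv_rhs => rw [tr_eq_sum (J := Qt N N') (fun q => q.out * (⟨g, hg⟩ : N))
    (by
      have : (fun q : Qt N N' => (QuotientGroup.mk (q.out * (⟨g, hg⟩ : N)) : Qt N N')) =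
          fun q => q * (QuotientGroup.mk (⟨g, hg⟩ : N)) := by
        funext q
        rw [QuotientGroup.mk_mul, QuotientGroup.out_eq']
      rw [this]
      exact Group.mulRight_bijective _) hf]
  rw [tr_apply]
  simp only [Rt_Rt, Subgroup.coe_mul]

theorem Cov.tr_inv {p : ℕ} {N N' : Subgroup F} (h : Cov p N N') [Fintype (Qt N N')]
    {f : ι × F → R} (hf : ∀ n ∈ N', Rt n f = f) :
    tr N N' f = ∑ q : Qt N N', Rt ((q.out : N) : F)⁻¹ f := by
  have := h.normal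
  rw [tr_eq_sum (J := Qt N N') (fun q => q.out⁻¹)
    (by
      have : (fun q : Qt N N' => (QuotientGroup.mk (q.out⁻¹) : Qt N N')) = fun q => q⁻¹ := by
        funext q
        rw [QuotientGroup.mk_inv, QuotientGroup.out_eq']
      rw [this]
      exact inv_involutive.bijective) hf]
  simp only [Subgroup.coe_inv]

theorem tr_mulF {N N' : Subgroup F} [Finite (Qt N N')] {A : F → R}
    (hA : ∀ x, ∀ g ∈ N, A (x * g) = A x) (f : ι × F → R) :
    tr N N' (mulF A f) = mulF A (tr N N' f) := by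
  have := Fintype.ofFinite (Qt N N')
  rw [tr_apply, tr_apply, map_sum]
  refine Finset.sum_congr rfl (fun q _ => ?_)
  rw [Rt_mulF]
  congr 2
  funext x
  exact hA x _ (q.out : N).2

theorem tr_of_inv {N N' : Subgroup F} [Finite (Qt N N')] {f : ι × F → R}
    (hf : ∀ n ∈ N, Rt n f = f) : tr N N' f = N'.relIndex N • f := by
  have := Fintype.ofFinite (Qt N N')
  rw [tr_apply, Finset.sum_congr rfl (fun q _ => hf _ (q.out : N).2)]
  simp only [Finset.sum_const, Finset.card_univ]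
  rw [← Nat.card_eq_fintype_card]
  rfl

open Classical in
/-- indicator of a fundamental domain -/
noncomputable def chi (N N' : Subgroup F) (x : F) : R :=
  if (QuotientGroup.mk x : F ⧸ N).out⁻¹ * x ∈ N' then 1 else 0

theorem chi_inv {N N' : Subgroup F} (hle : N' ≤ N) (x : F) :
    ∀ g ∈ N', (chi N N' (x * g) : R) = chi N N' x := by
  classical
  intro g hg
  unfold chi
  rw [QuotientGroup.mk_mul_of_mem x (hle hg), ← mul_assoc]
  exact if_congr (N'.mul_mem_cancel_right hg) rfl rfl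

theorem chi_sum {N N' : Subgroup F} [Fintype (Qt N N')] (x : F) :
    ∑ q : Qt N N', (chi N N' (x * (q.out : N)) : R) = 1 := by
  classical
  obtain ⟨h, hh⟩ := QuotientGroup.mk_out_eq_mul N x
  have key : ∀ q : Qt N N', (chi N N' (x * (q.out : N)) : R) =
      if q = QuotientGroup.mk h then 1 else 0 := by
    intro q
    unfold chi
    rw [QuotientGroup.mk_mul_of_mem x (q.out : N).2, hh]
    have e1 : (x * (h : F))⁻¹ * (x * (q.out : N)) = ((h⁻¹ * q.out : N) : F) := by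
      simp only [Subgroup.coe_mul, Subgroup.coe_inv]; group
    have e2 : ((h⁻¹ * q.out : N) : F) ∈ N' ↔ q = QuotientGroup.mk h := by
      rw [← Subgroup.mem_subgroupOf, ← QuotientGroup.eq, QuotientGroup.out_eq', eq_comm]
    rw [e1]
    simp only [e2]
  simp [key]

theorem tr_chi {N N' : Subgroup F} [Finite (Qt N N')] {f : ι × F → R}
    (hf : ∀ n ∈ N, Rt n f = f) : tr N N' (mulF (chi N N') f) = f := by
  have := Fintype.ofFinite (Qt N N')
  rw [tr_apply]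
  funext e
  rw [Finset.sum_apply]
  have : ∀ q : Qt N N', Rt (q.out : N) (mulF (chi N N') f) e =
      chi N N' (e.2 * (q.out : N)) * f e := by
    intro q
    rw [Rt_mulF, hf _ (q.out : N).2, mulF_apply]
  simp only [this]
  rw [← Finset.sum_mul, chi_sum, one_mul]

theorem Cov.chi_mem {p : ℕ} {N N' : Subgroup F} (h : Cov p N N') {Y : ι → Set F}
    {f : ι × F → R} (hf : f ∈ Fn R Y N) : mulF (chi N N') f ∈ Fn R Y N' :=
  mulF_mem (chi_inv h.le) (Fn_mono Y h.le hf)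

theorem Cov.tr_surj {p : ℕ} {N N' : Subgroup F} (h : Cov p N N') {Y : ι → Set F}
    {f : ι × F → R} (hf : f ∈ Fn R Y N) : ∃ f' ∈ Fn R Y N', tr N N' f' = f := by
  have := h.finQ
  exact ⟨_, h.chi_mem hf, tr_chi hf.2⟩

theorem Cov.map_tr {p : ℕ} {N N' : Subgroup F} (h : Cov p N N') {Y : ι → Set F}
    (hY : YInv Y N) : (Fn R Y N').map (tr N N') = Fn R Y N := by
  apply le_antisymm
  · rintro _ ⟨f, hf, rfl⟩
    exact h.tr_mem hY hf
  · intro f hf
    exact h.tr_surj hf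

theorem Cov.aug {p : ℕ} {N N' : Subgroup F} (h : Cov p N N') {Y : ι → Set F} (hY : YInv Y N)
    {f : ι × F → R} (hf : f ∈ Fn R Y N') (h0 : tr N N' f = 0) :
    f ∈ Submodule.span R {v | ∃ g ∈ N, ∃ w ∈ Fn R Y N', v = Rt g w - w} := by
  have := h.finQ
  have := Fintype.ofFinite (Qt N N')
  let fq : Qt N N' → (ι × F → R) := fun q => mulF (chi N N') (Rt ((q.out : N) : F)⁻¹ f)
  have h1 : ∑ q, Rt (q.out : N) (fq q) = f := by
    funext e
    rw [Finset.sum_apply]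
    have : ∀ q : Qt N N', Rt (q.out : N) (fq q) e = chi N N' (e.2 * (q.out : N)) * f e := by
      intro q
      simp only [fq]
      rw [Rt_mulF, Rt_Rt, mul_inv_cancel, Rt_one, mulF_apply]
    simp only [this]
    rw [← Finset.sum_mul, chi_sum, one_mul]
  have h2 : ∑ q, fq q = 0 := by
    simp only [fq]
    rw [← map_sum, ← h.tr_inv hf.2, h0, map_zero]
  have h3 : f = ∑ q, (Rt (q.out : N) (fq q) - fq q) := by
    rw [Finset.sum_sub_distrib, h1, h2, sub_zero]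
  rw [h3]
  refine Submodule.sum_mem _ (fun q _ => Submodule.subset_span ⟨_, (q.out : N).2, fq q, ?_, rfl⟩)
  exact mulF_mem (chi_inv h.le) (h.Rt_mem hY (N.inv_mem (q.out : N).2) hf)

variable (R ι) in
/-- right translations as a representation -/
def RtHom : F →* Module.End R (ι × F → R) where
  toFun g := Rt g
  map_one' := by ext f e; simp [Rt_one]
  map_mul' g h := by ext f e; simp [Rt_Rt]

theorem RtHom_apply (g : F) (f : ι × F → R) : RtHom ι R g f = Rt g f := rfl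

end ring

variable {p : ℕ} [hp : Fact p.Prime]

theorem Cov.nak {N N' : Subgroup F} (h : Cov p N N') {Y : ι → Set F} (hY : YInv Y N)
    (hf : YFin Y) (S : Submodule (ZMod p) (ι × F → ZMod p)) (hS : S ≤ Fn (ZMod p) Y N')
    (hinv : ∀ g ∈ N, ∀ v ∈ S, Rt g v ∈ S) (hgen : Fn (ZMod p) Y N ≤ S.map (tr N N')) :
    Fn (ZMod p) Y N' ≤ S := by
  have := h.fin
  have := finite_Fn (R := ZMod p) (hY.mono h.le) hf
  refine NAK (RtHom ι (ZMod p)) N _ (fun g hg v hv => h.Rt_mem hY hg hv) ?_ S hS hinv ?_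
  · intro g _
    obtain ⟨a, ha⟩ := h.pp
    exact ⟨a, fun v hv => hv.2 _ (ha g)⟩
  · intro f hf'
    obtain ⟨s, hs, hs'⟩ := hgen (h.tr_mem hY hf')
    have : f = s + (f - s) := by abel
    rw [this]
    refine Submodule.add_mem_sup hs (h.aug hY (Submodule.sub_mem _ hf' (hS hs)) ?_)
    rw [map_sub, hs', sub_self]

theorem Cov.exists_ind {N N' : Subgroup F} (h : Cov p N N') {Y : ι → Set F} (hY : YInv Y N)
    (T : Submodule (ZMod p) (ι × F → ZMod p)) [Module.Finite (ZMod p) T]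
    (hT : T ≤ Fn (ZMod p) Y N) :
    ∃ T' : Submodule (ZMod p) (ι × F → ZMod p), T' ≤ Fn (ZMod p) Y N' ∧
      (∀ g ∈ N, ∀ v ∈ T', Rt g v ∈ T') ∧ T ≤ T'.map (tr N N') ∧
      finrank (ZMod p) T' ≤ N'.relIndex N * finrank (ZMod p) T := by
  classical
  have := h.finQ
  have := Fintype.ofFinite (Qt N N')
  let Ind : (Qt N N' → T) →ₗ[ZMod p] (ι × F → ZMod p) :=
    ∑ q : Qt N N', (Rt (q.out : N) ∘ₗ mulF (chi N N') ∘ₗ T.subtype) ∘ₗ LinearMap.proj q
  have hInd : ∀ (g : N) (t : T), Ind (Pi.single (QuotientGroup.mk g) t) =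
      Rt g (mulF (chi N N') t) := by
    intro g t
    simp only [Ind, LinearMap.sum_apply, LinearMap.comp_apply, LinearMap.proj_apply]
    rw [Finset.sum_eq_single (QuotientGroup.mk g)]
    · rw [Pi.single_eq_same]
      exact Rt_out (h.chi_mem (hT t.2)).2 g
    · intro q _ hq
      rw [Pi.single_eq_of_ne hq]
      simp
    · simp
  refine ⟨Submodule.span (ZMod p) {v | ∃ g ∈ N, ∃ t ∈ T, v = Rt g (mulF (chi N N') t)},
    ?_, ?_, ?_, ?_⟩
  · rw [Submodule.span_le]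
    rintro _ ⟨g, hg, t, ht, rfl⟩
    exact h.Rt_mem hY hg (h.chi_mem (hT ht))
  · intro g hg v hv
    have : (Submodule.span (ZMod p)
        {v | ∃ g ∈ N, ∃ t ∈ T, v = Rt g (mulF (chi N N') t)}).map (Rt g) ≤
        Submodule.span (ZMod p) {v | ∃ g ∈ N, ∃ t ∈ T, v = Rt g (mulF (chi N N') t)} := by
      rw [Submodule.map_span_le]
      rintro _ ⟨g', hg', t, ht, rfl⟩
      exact Submodule.subset_span ⟨g * g', N.mul_mem hg hg', t, ht, Rt_Rt _ _ _⟩
    exact this ⟨v, hv, rfl⟩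
  · intro t ht
    exact ⟨_, Submodule.subset_span ⟨1, N.one_mem, t, ht, (Rt_one _).symm⟩, tr_chi (hT ht).2⟩
  · have h1 : Submodule.span (ZMod p) {v | ∃ g ∈ N, ∃ t ∈ T, v = Rt g (mulF (chi N N') t)} ≤
        LinearMap.range Ind := by
      rw [Submodule.span_le]
      rintro _ ⟨g, hg, t, ht, rfl⟩
      exact ⟨_, hInd ⟨g, hg⟩ ⟨t, ht⟩⟩
    refine (fr_mono h1).trans (Ind.finrank_range_le.trans (le_of_eq ?_))
    rw [Module.finrank_pi_fintype]
    simp only [Finset.sum_const, Finset.card_univ, smul_eq_mul]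
    rw [← Nat.card_eq_fintype_card]
    rfl

theorem Cov.nn_le {N N' : Subgroup F} (h : Cov p N N') {Y : ι → Set F} (hY : YInv Y N)
    (hf : YFin Y) : nn Y N' ≤ N'.relIndex N * nn Y N := by
  have := h.fin
  have := h.finN
  have := finite_Fn (R := ZMod p) hY hf
  have := finite_Fn (R := ZMod p) (hY.mono h.le) hf
  obtain ⟨T', h1, h2, h3, h4⟩ := h.exists_ind hY (Fn (ZMod p) Y N) le_rfl
  have h5 := h.nak hY hf T' h1 h2 h3
  rw [← le_antisymm h5 h1, finrank_Fn hY hf, finrank_Fn (hY.mono h.le) hf] at h4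
  exact h4

end Pool.Agent.MP_702fe9_al.H61

end MrgPart0

-- ======== part 1: formerly Pool.Agent.MP_702fe9_al.h61.Level
section MrgPart1

set_option autoImplicit false

namespace Pool.Agent.MP_702fe9_al.H61

open Module

section hom
variable {R : Type} [AddCommGroup R]

def HomOn (N : Subgroup F) (α : F → R) : Prop := ∀ a ∈ N, ∀ b ∈ N, α (a * b) = α a + α b

def AddOn (N : Subgroup F) (A : F → R) : Prop := ∀ f, ∀ n ∈ N, A (f * n) = A f + A n

theorem AddOn.homOn {N : Subgroup F} {A : F → R} (h : AddOn N A) : HomOn N A :=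
  fun a _ b hb => h a b hb

theorem AddOn.mono {N N' : Subgroup F} {A : F → R} (h : AddOn N A) (hle : N' ≤ N) : AddOn N' A :=
  fun f n hn => h f n (hle hn)

theorem HomOn.mono {N N' : Subgroup F} {α : F → R} (h : HomOn N α) (hle : N' ≤ N) : HomOn N' α :=
  fun a ha b hb => h a (hle ha) b (hle hb)

theorem HomOn.one {N : Subgroup F} {α : F → R} (h : HomOn N α) : α 1 = 0 := by
  have := h 1 N.one_mem 1 N.one_mem
  simpa using this

theorem HomOn.inv {N : Subgroup F} {α : F → R} (h : HomOn N α) {a : F} (ha : a ∈ N) :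
    α a⁻¹ = - α a := by
  have := h a ha a⁻¹ (N.inv_mem ha)
  rw [mul_inv_cancel, h.one] at this
  exact (neg_eq_of_add_eq_zero_right this.symm).symm

theorem HomOn.pow {N : Subgroup F} {α : F → R} (h : HomOn N α) {a : F} (ha : a ∈ N) (n : ℕ) :
    α (a ^ n) = n • α a := by
  induction n with
  | zero => simp [h.one]
  | succ n ih => rw [pow_succ, h _ (N.pow_mem ha n) _ ha, ih, succ_nsmul]

theorem HomOn.zpow {N : Subgroup F} {α : F → R} (h : HomOn N α) {a : F} (ha : a ∈ N) (n : ℤ) :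
    α (a ^ n) = n • α a := by
  cases n with
  | ofNat n => simp [h.pow ha]
  | negSucc n => rw [zpow_negSucc, h.inv (N.pow_mem ha _), h.pow ha, negSucc_zsmul]

theorem HomOn.conj {N : Subgroup F} {α : F → R} (h : HomOn N α) {a g : F} (ha : a ∈ N)
    (hg : g ∈ N) : α (g⁻¹ * a * g) = α a := by
  rw [h _ (N.mul_mem (N.inv_mem hg) ha) _ hg, h _ (N.inv_mem hg) _ ha, h.inv hg]
  abel

theorem HomOn.eq_of {N : Subgroup F} {α : F → R} (h : HomOn N α) {a b : F} (ha : a ∈ N)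
    (hb : b ∈ N) (h0 : α (a⁻¹ * b) = 0) : α b = α a := by
  rw [h _ (N.inv_mem ha) _ hb, h.inv ha] at h0
  exact (neg_add_eq_zero.mp h0).symm

theorem HomOn.exists_addOn {N : Subgroup F} {α : F → R} (h : HomOn N α) :
    ∃ A : F → R, AddOn N A ∧ ∀ n ∈ N, A n = α n := by
  let r : F → F := fun x => (QuotientGroup.mk x : F ⧸ N).out
  have hr : ∀ x, (r x)⁻¹ * x ∈ N := fun x => by
    rw [← QuotientGroup.eq, QuotientGroup.out_eq']
  have hr2 : ∀ x, ∀ n ∈ N, r (x * n) = r x := fun x n hn => by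
    simp only [r, QuotientGroup.mk_mul_of_mem x hn]
  have h1 : (r 1)⁻¹ ∈ N := by simpa using hr 1
  have hn : ∀ n ∈ N, α ((r n)⁻¹ * n) - α (r 1)⁻¹ = α n := by
    intro n hn
    have := hr2 1 n hn
    rw [one_mul] at this
    rw [this, h _ h1 _ hn]
    abel
  refine ⟨fun x => α ((r x)⁻¹ * x) - α (r 1)⁻¹, fun f n hn' => ?_, hn⟩
  simp only
  rw [hn n hn', hr2 f n hn', ← mul_assoc, h _ (hr f) _ hn']
  abel

/-- the kernel of a homomorphism defined on a subgroup -/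
def HomOn.ker {N : Subgroup F} {α : F → R} (h : HomOn N α) : Subgroup F where
  carrier := {n | n ∈ N ∧ α n = 0}
  mul_mem' := fun {a b} ha hb => ⟨N.mul_mem ha.1 hb.1, by rw [h a ha.1 b hb.1, ha.2, hb.2, add_zero]⟩
  one_mem' := ⟨N.one_mem, h.one⟩
  inv_mem' := fun {a} ha => ⟨N.inv_mem ha.1, by rw [h.inv ha.1, ha.2, neg_zero]⟩

theorem HomOn.mem_ker {N : Subgroup F} {α : F → R} (h : HomOn N α) {n : F} :
    n ∈ h.ker ↔ n ∈ N ∧ α n = 0 := Iff.rfl

theorem HomOn.ker_fin [Finite R] {N : Subgroup F} [N.FiniteIndex] {α : F → R} (h : HomOn N α) :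
    h.ker.FiniteIndex := by
  let φ : N →* Multiplicative R := MonoidHom.mk' (fun n => Multiplicative.ofAdd (α n))
    (fun a b => by simp only [Subgroup.coe_mul, h a a.2 b b.2, ofAdd_add])
  have h1 : h.ker.subgroupOf N = φ.ker := by
    ext n
    simp only [Subgroup.mem_subgroupOf, h.mem_ker, MonoidHom.mem_ker]
    exact ⟨fun h' => h'.2, fun h' => ⟨n.2, h'⟩⟩
  have h2 : h.ker.relIndex N ≠ 0 := by
    rw [Subgroup.relIndex, h1]
    exact Subgroup.FiniteIndex.index_ne_zero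
  constructor
  rw [← Subgroup.relIndex_mul_index (show h.ker ≤ N from fun n hn => hn.1)]
  exact mul_ne_zero h2 Subgroup.FiniteIndex.index_ne_zero

end hom

section ring
variable {R : Type} [CommRing R]

variable (R) in
abbrev C1 (N : Subgroup F) : Submodule R (S × F → R) := Fn R (fun _ => Set.univ) N

theorem mem_C1 {N : Subgroup F} {χ : S × F → R} : χ ∈ C1 R N ↔ ∀ g ∈ N, Rt g χ = χ :=
  ⟨fun h => h.2, fun h => ⟨fun _ he => absurd trivial he, h⟩⟩

theorem finite_C1 (N : Subgroup F) [N.FiniteIndex] : Module.Finite R (C1 R N) :=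
  finite_Fn (yinv_univ N) (yfin_of_finite _)

theorem finrank_C1 [StrongRankCondition R] (N : Subgroup F) [N.FiniteIndex] :
    finrank R (C1 R N) = 2 * N.index := by
  rw [finrank_Fn (yinv_univ N) (yfin_of_finite _), nn_univ]
  simp

theorem AddOn.d_mem {N : Subgroup F} {A : F → R} (h : AddOn N A) : d A ∈ C1 R N := by
  rw [mem_C1]
  intro g hg
  funext e
  simp only [Rt_apply, d_apply]
  rw [← mul_assoc, h _ g hg, h _ g hg]
  ring

theorem pot_addOn {N : Subgroup F} {χ : S × F → R} (h : χ ∈ C1 R N) : AddOn N (pot χ) := by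
  intro f n hn
  unfold pot
  have := I_Rt f n χ 1
  rw [h.2 n hn, one_mul] at this
  rw [I_mul, mul_one, ← this, add_comm]

theorem AddOn.I_d_conj {N : Subgroup F} {A : F → R} (h : AddOn N A) {g y : F}
    (hg : y⁻¹ * g * y ∈ N) : I g (d A) y = A (y⁻¹ * g * y) := by
  rw [I_d]
  have : g * y = y * (y⁻¹ * g * y) := by group
  rw [this, h _ _ hg]
  ring

theorem I_eq_pot_conj {N : Subgroup F} {χ : S × F → R} (h : χ ∈ C1 R N) {g y : F}
    (hg : y⁻¹ * g * y ∈ N) : I g χ y = pot χ (y⁻¹ * g * y) := by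
  conv_lhs => rw [← d_pot χ]
  exact (pot_addOn h).I_d_conj hg

theorem AddOn.pot_d {N : Subgroup F} {A : F → R} (h : AddOn N A) (x : F) : pot (d A) x = A x := by
  unfold pot
  rw [I_d, mul_one, h.homOn.one, sub_zero]

end ring

/-- levels: subgroups of finite `p`-power index containing `K` -/
structure Lev (p : ℕ) (K N : Subgroup F) : Prop where
  fin : N.FiniteIndex
  le : K ≤ N
  pp : ∃ a : ℕ, ∀ f : F, f ^ (p ^ a) ∈ N

/-- the relative Frattini subgroup -/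
def Phi (p : ℕ) (K N : Subgroup F) : Subgroup F where
  carrier := {n | n ∈ N ∧ ∀ α : F → ZMod p, HomOn N α → (∀ κ ∈ K, α κ = 0) → α n = 0}
  mul_mem' := fun {a b} ha hb => ⟨N.mul_mem ha.1 hb.1, fun α hα hK => by
    rw [hα a ha.1 b hb.1, ha.2 α hα hK, hb.2 α hα hK, add_zero]⟩
  one_mem' := ⟨N.one_mem, fun _ hα _ => hα.one⟩
  inv_mem' := fun {a} ha => ⟨N.inv_mem ha.1, fun α hα hK => by
    rw [hα.inv ha.1, ha.2 α hα hK, neg_zero]⟩

variable {p : ℕ}

theorem mem_Phi {K N : Subgroup F} {n : F} : n ∈ Phi p K N ↔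
    n ∈ N ∧ ∀ α : F → ZMod p, HomOn N α → (∀ κ ∈ K, α κ = 0) → α n = 0 := Iff.rfl

theorem Phi_le (K N : Subgroup F) : Phi p K N ≤ N := fun _ h => h.1

theorem Phi_mono (K : Subgroup F) {N N' : Subgroup F} (h : N' ≤ N) : Phi p K N' ≤ Phi p K N :=
  fun _ hn => ⟨h hn.1, fun α hα hK => hn.2 α (hα.mono h) hK⟩

theorem Phi_monoK {K K' : Subgroup F} (h : K ≤ K') (N : Subgroup F) : Phi p K N ≤ Phi p K' N :=
  fun _ hn => ⟨hn.1, fun α hα hK => hn.2 α hα (fun κ hκ => hK κ (h hκ))⟩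

theorem Phi_conj {K N : Subgroup F} [hK : K.Normal] {g : F} (hg : ∀ n ∈ N, g⁻¹ * n * g ∈ N)
    {n : F} (hn : n ∈ Phi p K N) : g⁻¹ * n * g ∈ Phi p K N := by
  refine ⟨hg n hn.1, fun α hα hk => hn.2 (fun x => α (g⁻¹ * x * g)) ?_ ?_⟩
  · intro a ha b hb
    have : g⁻¹ * (a * b) * g = (g⁻¹ * a * g) * (g⁻¹ * b * g) := by group
    simp only
    rw [this, hα _ (hg a ha) _ (hg b hb)]
  · intro κ hκ
    exact hk _ (hK.conj_mem' κ hκ g)

theorem Phi_normal (K N : Subgroup F) [K.Normal] [hN : N.Normal] : (Phi p K N).Normal := by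
  constructor
  intro n hn g
  have := Phi_conj (g := g⁻¹) (fun n hn => hN.conj_mem' n hn _) hn
  simpa using this

theorem pow_mem_Phi {K N : Subgroup F} {n : F} (hn : n ∈ N) : n ^ p ∈ Phi p K N :=
  ⟨N.pow_mem hn p, fun α hα _ => by rw [hα.pow hn]; simp⟩

theorem comm_mem_Phi {K N : Subgroup F} {a b : F} (ha : a ∈ N) (hb : b ∈ N) :
    a⁻¹ * (b⁻¹ * a * b) ∈ Phi p K N :=
  ⟨N.mul_mem (N.inv_mem ha) (N.mul_mem (N.mul_mem (N.inv_mem hb) ha) hb), fun α hα _ => by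
    rw [hα _ (N.inv_mem ha) _ (N.mul_mem (N.mul_mem (N.inv_mem hb) ha) hb), hα.conj ha hb,
      hα.inv ha, neg_add_cancel]⟩

theorem Lev.of_le {K N N' : Subgroup F} (h : Lev p K N) (hle : N ≤ N') : Lev p K N' :=
  ⟨have := h.fin; Subgroup.finiteIndex_of_le hle, h.le.trans hle,
    h.pp.imp (fun _ ha f => hle (ha f))⟩

theorem Lev.monoK {K K' N : Subgroup F} (h : Lev p K N) (hle : K' ≤ K) : Lev p K' N :=
  ⟨h.fin, hle.trans h.le, h.pp⟩

theorem Lev.pp_ge {K N : Subgroup F} (h : Lev p K N) :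
    ∃ a : ℕ, ∀ b, a ≤ b → ∀ f : F, f ^ (p ^ b) ∈ N := by
  obtain ⟨a, ha⟩ := h.pp
  refine ⟨a, fun b hb f => ?_⟩
  obtain ⟨c, rfl⟩ := Nat.exists_eq_add_of_le hb
  rw [pow_add, pow_mul]
  exact N.pow_mem (ha f) _

theorem Lev.inf {K N N' : Subgroup F} (h : Lev p K N) (h' : Lev p K N') : Lev p K (N ⊓ N') := by
  have := h.fin
  have := h'.fin
  obtain ⟨a, ha⟩ := h.pp_ge
  obtain ⟨b, hb⟩ := h'.pp_ge
  exact ⟨inferInstance, le_inf h.le h'.le, a + b,
    fun f => ⟨ha _ (by omega) f, hb _ (by omega) f⟩⟩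

theorem Lev.core {K N : Subgroup F} [K.Normal] (h : Lev p K N) : Lev p K N.normalCore := by
  have := h.fin
  refine ⟨inferInstance, Subgroup.normal_le_normalCore.mpr h.le, h.pp.imp (fun a ha f g => ?_)⟩
  have := ha (g * f * g⁻¹)
  rwa [conj_pow] at this

theorem Lev.cov {K N N' : Subgroup F} (h' : Lev p K N') (hle : N' ≤ N)
    (hn : ∀ g ∈ N, ∀ n ∈ N', g⁻¹ * n * g ∈ N') : Cov p N N' := ⟨hle, hn, h'.fin, h'.pp⟩

theorem Lev.cov_normal {K N N' : Subgroup F} (h' : Lev p K N') [hn : N'.Normal] (hle : N' ≤ N) :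
    Cov p N N' := h'.cov hle (fun g _ n h => hn.conj_mem' n h g)

variable [hp : Fact p.Prime]

theorem Lev.phi {K N : Subgroup F} (h : Lev p K N) : Lev p K (Phi p K N) := by
  have := h.fin
  refine ⟨?_, fun κ hκ => ⟨h.le hκ, fun α _ hk => hk κ hκ⟩, ?_⟩
  · have := finite_C1 (R := ZMod p) N
    have : Finite (C1 (ZMod p) N) := finite_of_fd (p := p) _
    have h1 : HomOn N (fun n => (fun χ : C1 (ZMod p) N => pot χ.1 n)) := by
      intro a _ b hb
      funext χ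
      exact pot_addOn χ.2 a b hb
    have := h1.ker_fin
    refine Subgroup.finiteIndex_of_le (H := h1.ker) (fun n hn => ⟨hn.1, fun α hα _ => ?_⟩)
    obtain ⟨A, hA, hA'⟩ := hα.exists_addOn
    have := congrFun hn.2 ⟨d A, hA.d_mem⟩
    simp only [hA.pot_d] at this
    rw [← hA' n hn.1]
    exact this
  · obtain ⟨a, ha⟩ := h.pp
    refine ⟨a + 1, fun f => ?_⟩
    rw [pow_succ, pow_mul]
    exact pow_mem_Phi (ha f)

theorem Lev.ker {K N : Subgroup F} (h : Lev p K N) {R : Type} [AddCommGroup R] [Finite R]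
    {α : F → R} (hα : HomOn N α) (hk : ∀ κ ∈ K, α κ = 0) {b : ℕ} (hb : ∀ r : R, p ^ b • r = 0) :
    Lev p K hα.ker := by
  have := h.fin
  refine ⟨hα.ker_fin, fun κ hκ => ⟨h.le hκ, hk κ hκ⟩, ?_⟩
  obtain ⟨a, ha⟩ := h.pp
  refine ⟨a + b, fun f => ?_⟩
  rw [pow_add, pow_mul]
  exact ⟨N.pow_mem (ha f) _, by rw [hα.pow (ha f), hb]⟩

theorem Lev.cov_phi {K N : Subgroup F} [K.Normal] (h : Lev p K N) : Cov p N (Phi p K N) :=
  h.phi.cov (Phi_le K N) (fun g hg _ hn =>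
    Phi_conj (fun n hn => N.mul_mem (N.mul_mem (N.inv_mem hg) hn) hg) hn)

theorem zpow_mem_of_coprime {G : Type} [Group G] {H : Subgroup G} {g : G} {a : ℕ} {c : ℤ}
    (hc : ¬ (p : ℤ) ∣ c) (h1 : g ^ c ∈ H) (h2 : g ^ (p ^ a) ∈ H) : g ∈ H := by
  have hco : IsCoprime c ((p : ℤ) ^ a) := by
    apply IsCoprime.pow_right
    exact ((Nat.prime_iff_prime_int.mp hp.out).coprime_iff_not_dvd.mpr hc).symm
  obtain ⟨u, v, huv⟩ := hco
  have : g = (g ^ c) ^ u * (g ^ (p ^ a)) ^ v := by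
    rw [← zpow_natCast, ← zpow_mul, ← zpow_mul, ← zpow_add]
    push_cast
    rw [mul_comm c u, mul_comm _ v, huv, zpow_one]
  rw [this]
  exact H.mul_mem (H.zpow_mem h1 u) (H.zpow_mem h2 v)

theorem ppow {G : Type} [Group G] {H : Subgroup G} {g : G} {a c L : ℕ} (hc : 0 < c) (hL : c ≤ L)
    (h1 : g ^ c ∈ H) (h2 : g ^ (p ^ a) ∈ H) : g ^ (p ^ L) ∈ H := by
  obtain ⟨e, c', hc', rfl⟩ := Nat.exists_eq_pow_mul_and_not_dvd hc.ne' p hp.out.ne_one
  have h3 : g ^ (p ^ e) ∈ H := by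
    apply zpow_mem_of_coprime (p := p) (a := a) (c := c')
    · exact_mod_cast hc'
    · rwa [zpow_natCast, ← pow_mul]
    · rw [← pow_mul, mul_comm, pow_mul]
      exact H.pow_mem h2 _
  have h4 : e ≤ L := by
    have h5 : e < p ^ e := Nat.lt_pow_self hp.out.one_lt
    have h6 : p ^ e ≤ p ^ e * c' := Nat.le_mul_of_pos_right _ (Nat.pos_of_mul_pos_left hc)
    omega
  obtain ⟨r, rfl⟩ := Nat.exists_eq_add_of_le h4
  rw [pow_add, pow_mul]
  exact H.pow_mem h3 _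

theorem exists_hom_pgroup {P : Type} [Group P] [Finite P] [Nontrivial P] (hP : IsPGroup p P) :
    ∃ φ : P →* Multiplicative (ZMod p), ∃ x, φ x ≠ 1 := by
  obtain ⟨n, hn0, hn⟩ := hP.nontrivial_iff_card.mp inferInstance
  obtain ⟨m, rfl⟩ := Nat.exists_eq_succ_of_ne_zero hn0.ne'
  obtain ⟨H, hH⟩ := Sylow.exists_subgroup_card_pow_prime (G := P) p (n := m)
    (by rw [hn]; exact pow_dvd_pow _ (Nat.le_succ m))
  have hi : H.index = p := by
    have := H.card_mul_index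
    rw [hH, hn, pow_succ] at this
    exact Nat.eq_of_mul_eq_mul_left (pow_pos hp.out.pos m) this
  have hN : H.Normal := by
    apply Subgroup.normal_of_index_eq_minFac_card
    rw [hi, hn, Nat.pow_minFac (Nat.succ_ne_zero m), hp.out.minFac_eq]
  have hc : Nat.card (P ⧸ H) = p := hi
  have hc2 : Nat.card (Multiplicative (ZMod p)) = p := by simp
  let e := mulEquivOfPrimeCardEq hc hc2
  refine ⟨e.toMonoidHom.comp (QuotientGroup.mk' H), ?_⟩
  have : Nontrivial (P ⧸ H) := Finite.one_lt_card_iff_nontrivial.mp (by rw [hc]; exact hp.out.one_lt)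
  obtain ⟨q, hq⟩ := exists_ne (1 : P ⧸ H)
  obtain ⟨x, rfl⟩ := QuotientGroup.mk_surjective q
  exact ⟨x, by simpa using hq⟩

/-- size of the image of `M` in the quotient by `N0` -/
noncomputable def imSize (N0 : Subgroup F) [N0.Normal] (M : Subgroup F) : ℕ :=
  Nat.card (M.map (QuotientGroup.mk' N0))

theorem imSize_mono {K N0 : Subgroup F} [N0.Normal] (h0 : Lev p K N0) {M M' : Subgroup F}
    (h : M' ≤ M) : imSize N0 M' ≤ imSize N0 M := by
  have := h0.fin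
  exact Subgroup.card_le_of_le (Subgroup.map_mono h)

theorem imSize_phi_lt {K N0 : Subgroup F} [N0.Normal] (h0 : Lev p K N0) {M : Subgroup F}
    (h : ¬ M ≤ N0) : imSize N0 (Phi p K M) < imSize N0 M := by
  classical
  have := h0.fin
  let P := M.map (QuotientGroup.mk' N0)
  have hP : IsPGroup p P := by
    rintro ⟨_, x, hx, rfl⟩
    obtain ⟨a, ha⟩ := h0.pp
    refine ⟨a, Subtype.ext ?_⟩
    simp only [SubmonoidClass.coe_pow, OneMemClass.coe_one]
    rw [← map_pow]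
    exact (QuotientGroup.eq_one_iff _).mpr (ha x)
  have hnt : Nontrivial P := by
    rw [Subgroup.nontrivial_iff_ne_bot]
    intro hb
    apply h
    intro x hx
    have : (QuotientGroup.mk' N0) x ∈ P := ⟨x, hx, rfl⟩
    rw [hb] at this
    exact (QuotientGroup.eq_one_iff _).mp this
  obtain ⟨φ, ⟨_, x, hx, rfl⟩, hφ⟩ := exists_hom_pgroup hP
  let α : F → ZMod p := fun y => if hy : y ∈ M then
    Multiplicative.toAdd (φ ⟨QuotientGroup.mk' N0 y, y, hy, rfl⟩) else 0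
  have hα : HomOn M α := by
    intro a ha b hb
    simp only [α, dif_pos ha, dif_pos hb, dif_pos (M.mul_mem ha hb), ← toAdd_mul, ← map_mul]
    rfl
  have hα0 : ∀ y ∈ N0, α y = 0 := by
    intro y hy
    by_cases hyM : y ∈ M
    · simp only [α, dif_pos hyM]
      have : (⟨QuotientGroup.mk' N0 y, y, hyM, rfl⟩ : P) = 1 :=
        Subtype.ext ((QuotientGroup.eq_one_iff _).mpr hy)
      rw [this, map_one]
      rfl
    · simp only [α, dif_neg hyM]
  have hlt : (Phi p K M).map (QuotientGroup.mk' N0) < P := by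
    refine lt_of_le_of_ne (Subgroup.map_mono (Phi_le K M)) (fun heq => ?_)
    have hx' : (QuotientGroup.mk' N0) x ∈ (Phi p K M).map (QuotientGroup.mk' N0) := by
      rw [heq]; exact ⟨x, hx, rfl⟩
    obtain ⟨y, hy, hyx⟩ := hx'
    have h1 : α y = 0 := hy.2 α hα (fun κ hκ => hα0 κ (h0.le hκ))
    have h2 : y⁻¹ * x ∈ N0 := QuotientGroup.eq.mp hyx
    have h3 : α x = α y := hα.eq_of hy.1 hx (hα0 _ h2)
    apply hφ
    rw [h1] at h3
    have hx2 : x ∈ M := hx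
    simp only [α, dif_pos hx2] at h3
    exact h3
  exact Set.ncard_lt_ncard (SetLike.coe_ssubset_coe.mpr hlt) (Set.toFinite _)

theorem cofinal {K N0 : Subgroup F} [N0.Normal] (h0 : Lev p K N0) (M : ℕ → Subgroup F)
    (hM : ∀ i, M (i + 1) ≤ Phi p K (M i)) : ∃ i, ∀ j, i ≤ j → M j ≤ N0 := by
  have hanti : Antitone M := antitone_nat_of_succ_le (fun i => (hM i).trans (Phi_le _ _))
  have key : ∀ i, ¬ M i ≤ N0 → imSize N0 (M i) + i ≤ imSize N0 (M 0) := by
    intro i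
    induction i with
    | zero => simp
    | succ i ih =>
      intro hi
      have hi' : ¬ M i ≤ N0 := fun h => hi ((hanti (Nat.le_succ i)).trans h)
      have h1 := ih hi'
      have h2 := imSize_phi_lt h0 hi'
      have h3 := imSize_mono h0 (hM i)
      omega
  refine ⟨imSize N0 (M 0) + 1, fun j hj => ?_⟩
  by_contra hc
  have := key j hc
  omega

/-- integral potentials -/
structure IP (K M : Subgroup F) where
  A : F → ℤ
  add : AddOn M A
  kill : ∀ κ ∈ K, A κ = 0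

variable (p) in
/-- the cyclic tower defined by an integral potential -/
def IP.tw {K M : Subgroup F} (φ : IP K M) (k : ℕ) : Subgroup F where
  carrier := {n | n ∈ M ∧ (p : ℤ) ^ k ∣ φ.A n}
  mul_mem' := fun {a b} ha hb => ⟨M.mul_mem ha.1 hb.1, by
    rw [φ.add a b hb.1]; exact dvd_add ha.2 hb.2⟩
  one_mem' := ⟨M.one_mem, by rw [φ.add.homOn.one]; exact dvd_zero _⟩
  inv_mem' := fun {a} ha => ⟨M.inv_mem ha.1, by rw [φ.add.homOn.inv ha.1]; exact ha.2.neg_right⟩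

omit hp in
theorem IP.mem_tw {K M : Subgroup F} (φ : IP K M) {k : ℕ} {n : F} :
    n ∈ φ.tw p k ↔ n ∈ M ∧ (p : ℤ) ^ k ∣ φ.A n := Iff.rfl

omit hp in
theorem IP.tw_le {K M : Subgroup F} (φ : IP K M) (k : ℕ) : φ.tw p k ≤ M := fun _ h => h.1

omit hp in
theorem IP.tw_anti {K M : Subgroup F} (φ : IP K M) {k l : ℕ} (h : k ≤ l) :
    φ.tw p l ≤ φ.tw p k := fun _ hn => ⟨hn.1, (pow_dvd_pow _ h).trans hn.2⟩

omit hp in
theorem IP.tw_zero {K M : Subgroup F} (φ : IP K M) : φ.tw p 0 = M := by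
  ext n
  simp [IP.mem_tw]

omit hp in
theorem IP.tw_conj {K M : Subgroup F} (φ : IP K M) (k : ℕ) {g n : F} (hg : g ∈ M)
    (hn : n ∈ φ.tw p k) : g⁻¹ * n * g ∈ φ.tw p k :=
  ⟨M.mul_mem (M.mul_mem (M.inv_mem hg) hn.1) hg, by rw [φ.add.homOn.conj hn.1 hg]; exact hn.2⟩

theorem IP.tw_lev {K M : Subgroup F} (φ : IP K M) (h : Lev p K M) (k : ℕ) :
    Lev p K (φ.tw p k) := by
  have : NeZero (p ^ k) := ⟨pow_ne_zero _ hp.out.ne_zero⟩
  have hα : HomOn M (fun n => ((φ.A n : ℤ) : ZMod (p ^ k))) := by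
    intro a _ b hb
    simp only [φ.add a b hb, Int.cast_add]
  refine (h.ker hα (fun κ hκ => by simp [φ.kill κ hκ]) (b := k) (fun r => ?_)).of_le ?_
  · rw [nsmul_eq_mul, ZMod.natCast_self, zero_mul]
  · intro n hn
    refine ⟨hn.1, ?_⟩
    have := (ZMod.intCast_zmod_eq_zero_iff_dvd _ _).mp hn.2
    exact_mod_cast this

end Pool.Agent.MP_702fe9_al.H61

end MrgPart1

-- ======== part 2: formerly Pool.Agent.MP_702fe9_al.h61.Cx
section MrgPart2

set_option autoImplicit false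
set_option linter.unusedSectionVars false

namespace Pool.Agent.MP_702fe9_al.H61

open Module

/-- a model complex: relators and base points of discs -/
structure Cx where
  m : ℕ
  ρ : ℕ → F
  Y : ℕ → Set F
  hY : ∀ j, m ≤ j → Y j = ∅

namespace Cx

variable (X : Cx)

def K (j : ℕ) : Subgroup F := Subgroup.normalClosure {g | ∃ i < j, g = X.ρ i}

instance (j : ℕ) : (X.K j).Normal := Subgroup.normalClosure_normal

theorem K_mono {i j : ℕ} (h : i ≤ j) : X.K i ≤ X.K j :=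
  Subgroup.normalClosure_mono (fun _ ⟨l, hl, hg⟩ => ⟨l, hl.trans_le h, hg⟩)

theorem ρ_mem {i j : ℕ} (h : i < j) : X.ρ i ∈ X.K j :=
  Subgroup.subset_normalClosure ⟨i, h, rfl⟩

theorem conj_ρ_mem {i j : ℕ} (h : i < j) (y : F) : y⁻¹ * X.ρ i * y ∈ X.K j :=
  Subgroup.Normal.conj_mem' inferInstance _ (X.ρ_mem h) y

abbrev KK : Subgroup F := X.K X.m

theorem lt_of_mem {j : ℕ} {y : F} (h : y ∈ X.Y j) : j < X.m := by
  by_contra hc
  rw [X.hY j (by omega)] at h
  exact h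

theorem yfin : YFin X.Y :=
  (Set.finite_Iio X.m).subset (fun _ ⟨_, hy⟩ => X.lt_of_mem hy)

section ring
variable {R : Type} [CommRing R]

open Classical in
/-- restriction of a family of functions to the base points -/
noncomputable def cutY : (ℕ → F → R) →ₗ[R] (ℕ × F → R) where
  toFun f e := if e.2 ∈ X.Y e.1 then f e.1 e.2 else 0
  map_add' f g := by funext e; simp only [Pi.add_apply]; split_ifs <;> simp
  map_smul' c f := by funext e; simp only [Pi.smul_apply, RingHom.id_apply]; split_ifs <;> simp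

theorem cutY_pos (f : ℕ → F → R) {j : ℕ} {y : F} (h : y ∈ X.Y j) : X.cutY f (j, y) = f j y :=
  if_pos h

theorem cutY_neg (f : ℕ → F → R) {j : ℕ} {y : F} (h : y ∉ X.Y j) : X.cutY f (j, y) = 0 :=
  if_neg h

/-- the coboundary on one-cochains -/
noncomputable def δ : (S × F → R) →ₗ[R] (ℕ × F → R) :=
  X.cutY ∘ₗ LinearMap.pi (fun j => I (X.ρ j))

theorem δ_pos (χ : S × F → R) {j : ℕ} {y : F} (h : y ∈ X.Y j) : X.δ χ (j, y) = I (X.ρ j) χ y :=
  X.cutY_pos _ h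

theorem δ_neg (χ : S × F → R) {j : ℕ} {y : F} (h : y ∉ X.Y j) : X.δ χ (j, y) = 0 :=
  X.cutY_neg _ h

/-- the cup product of one-cochains -/
noncomputable def TT : (S × F → R) →ₗ[R] (S × F → R) →ₗ[R] (ℕ × F → R) :=
  LinearMap.mk₂ R (fun α β => X.cutY (fun j => T (X.ρ j) α β))
    (fun α α' β => by rw [← map_add]; congr 1; funext j; simp)
    (fun c α β => by rw [← map_smul]; congr 1; funext j; simp)
    (fun α β β' => by rw [← map_add]; congr 1; funext j; simp)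
    (fun c α β => by rw [← map_smul]; congr 1; funext j; simp)

theorem TT_pos (α β : S × F → R) {j : ℕ} {y : F} (h : y ∈ X.Y j) :
    X.TT α β (j, y) = T (X.ρ j) α β y := X.cutY_pos (fun j => T (X.ρ j) α β) h

theorem TT_neg (α β : S × F → R) {j : ℕ} {y : F} (h : y ∉ X.Y j) : X.TT α β (j, y) = 0 :=
  X.cutY_neg (fun j => T (X.ρ j) α β) h

variable {X}

theorem Rt_δ {N : Subgroup F} (hY : YInv X.Y N) {g : F} (hg : g ∈ N) (χ : S × F → R) :
    Rt g (X.δ χ) = X.δ (Rt g χ) := by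
  funext ⟨j, y⟩
  rw [Rt_apply]
  by_cases h : y ∈ X.Y j
  · rw [X.δ_pos _ h, X.δ_pos _ (hY _ _ _ hg h), I_Rt]
  · rw [X.δ_neg _ h, X.δ_neg _ (fun h' => h ((hY.iff _ _ hg).mp h'))]

theorem Rt_TT {N : Subgroup F} (hY : YInv X.Y N) {g : F} (hg : g ∈ N) (α β : S × F → R) :
    Rt g (X.TT α β) = X.TT (Rt g α) (Rt g β) := by
  funext ⟨j, y⟩
  rw [Rt_apply]
  by_cases h : y ∈ X.Y j
  · rw [X.TT_pos _ _ h, X.TT_pos _ _ (hY _ _ _ hg h), T_Rt]
  · rw [X.TT_neg _ _ h, X.TT_neg _ _ (fun h' => h ((hY.iff _ _ hg).mp h'))]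

theorem δ_mem {N : Subgroup F} (hY : YInv X.Y N) {χ : S × F → R} (h : χ ∈ C1 R N) :
    X.δ χ ∈ Fn R X.Y N :=
  ⟨fun _ he => X.δ_neg _ he, fun g hg => by rw [Rt_δ hY hg, h.2 g hg]⟩

theorem TT_mem {N : Subgroup F} (hY : YInv X.Y N) {α β : S × F → R} (h : α ∈ C1 R N)
    (h' : β ∈ C1 R N) : X.TT α β ∈ Fn R X.Y N :=
  ⟨fun _ he => X.TT_neg _ _ he, fun g hg => by rw [Rt_TT hY hg, h.2 g hg, h'.2 g hg]⟩

theorem δ_mulF (A : F → R) (β : S × F → R) :
    X.δ (mulF A β) = X.TT (d A) β + mulF A (X.δ β) := by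
  funext ⟨j, y⟩
  rw [Pi.add_apply, mulF_apply]
  by_cases h : y ∈ X.Y j
  · rw [X.δ_pos _ h, X.δ_pos _ h, X.TT_pos _ _ h, I_mulF]
  · rw [X.δ_neg _ h, X.δ_neg _ h, X.TT_neg _ _ h]
    simp

theorem tr_δ {N N' : Subgroup F} [Finite (Qt N N')] (hY : YInv X.Y N) (χ : S × F → R) :
    tr N N' (X.δ χ) = X.δ (tr N N' χ) := by
  have := Fintype.ofFinite (Qt N N')
  rw [tr_apply, tr_apply, map_sum]
  exact Finset.sum_congr rfl (fun q _ => Rt_δ hY (q.out : N).2 χ)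

theorem tr_TT_right {N N' : Subgroup F} [Finite (Qt N N')] (hY : YInv X.Y N) {α : S × F → R}
    (hα : α ∈ C1 R N) (β : S × F → R) : tr N N' (X.TT α β) = X.TT α (tr N N' β) := by
  have := Fintype.ofFinite (Qt N N')
  rw [tr_apply, tr_apply, map_sum]
  refine Finset.sum_congr rfl (fun q _ => ?_)
  rw [Rt_TT hY (q.out : N).2, hα.2 _ (q.out : N).2]

variable (X R) in
/-- cocycles at a level -/
noncomputable def Z1 (N : Subgroup F) : Submodule R (S × F → R) := C1 R N ⊓ LinearMap.ker X.δ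

variable (X R) in
/-- two-coboundaries at a level -/
noncomputable def B2 (N : Subgroup F) : Submodule R (ℕ × F → R) := (C1 R N).map X.δ

theorem mem_Z1 {N : Subgroup F} {χ : S × F → R} : χ ∈ X.Z1 R N ↔ χ ∈ C1 R N ∧ X.δ χ = 0 :=
  Iff.rfl

theorem Z1_le (N : Subgroup F) : X.Z1 R N ≤ C1 R N := inf_le_left

theorem Z1_mono {N N' : Subgroup F} (h : N' ≤ N) : X.Z1 R N ≤ X.Z1 R N' :=
  inf_le_inf_right _ (Fn_mono _ h)

theorem B2_le {N : Subgroup F} (hY : YInv X.Y N) : X.B2 R N ≤ Fn R X.Y N := by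
  rintro _ ⟨χ, hχ, rfl⟩
  exact δ_mem hY hχ

theorem δ_mem_B2 {N : Subgroup F} {χ : S × F → R} (h : χ ∈ C1 R N) : X.δ χ ∈ X.B2 R N :=
  ⟨χ, h, rfl⟩

theorem d_mem_Z1 {N : Subgroup F} (hK : X.KK ≤ N) {A : F → R} (hA : AddOn N A)
    (hk : ∀ κ ∈ X.KK, A κ = 0) : d A ∈ X.Z1 R N := by
  refine ⟨hA.d_mem, ?_⟩
  change X.δ (d A) = 0
  funext ⟨j, y⟩
  by_cases h : y ∈ X.Y j
  · have := X.conj_ρ_mem (X.lt_of_mem h) y
    rw [X.δ_pos _ h, hA.I_d_conj (hK this), hk _ this]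
    rfl
  · exact X.δ_neg _ h

theorem Rt_mem_Z1 {p : ℕ} {N N' : Subgroup F} (hc : Cov p N N') (hY : YInv X.Y N) {g : F}
    (hg : g ∈ N) {χ : S × F → R} (h : χ ∈ X.Z1 R N') : Rt g χ ∈ X.Z1 R N' := by
  refine ⟨hc.Rt_mem (yinv_univ N) hg h.1, ?_⟩
  change X.δ (Rt g χ) = 0
  rw [← Rt_δ hY hg, show X.δ χ = 0 from h.2, map_zero]

theorem tr_mem_Z1 {p : ℕ} {N N' : Subgroup F} (hc : Cov p N N') (hY : YInv X.Y N)
    {χ : S × F → R} (h : χ ∈ X.Z1 R N') : tr N N' χ ∈ X.Z1 R N := by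
  have := hc.finQ
  refine ⟨hc.tr_mem (yinv_univ N) h.1, ?_⟩
  change X.δ (tr N N' χ) = 0
  rw [← tr_δ hY, show X.δ χ = 0 from h.2, map_zero]

theorem Rt_mem_B2 {p : ℕ} {N N' : Subgroup F} (hc : Cov p N N') (hY : YInv X.Y N) {g : F}
    (hg : g ∈ N) {y : ℕ × F → R} (h : y ∈ X.B2 R N') : Rt g y ∈ X.B2 R N' := by
  obtain ⟨χ, hχ, rfl⟩ := h
  rw [Rt_δ hY hg]
  exact δ_mem_B2 (hc.Rt_mem (yinv_univ N) hg hχ)

theorem map_tr_B2 {p : ℕ} {N N' : Subgroup F} (hc : Cov p N N') (hY : YInv X.Y N) :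
    (X.B2 R N').map (tr N N') = X.B2 R N := by
  have := hc.finQ
  apply le_antisymm
  · rintro _ ⟨_, ⟨χ, hχ, rfl⟩, rfl⟩
    rw [tr_δ hY]
    exact δ_mem_B2 (hc.tr_mem (yinv_univ N) hχ)
  · rintro _ ⟨χ, hχ, rfl⟩
    obtain ⟨χ', hχ', rfl⟩ := hc.tr_surj hχ
    exact ⟨_, δ_mem_B2 hχ', tr_δ hY χ'⟩

end ring

/-- the data attached to a relator: its stable centraliser is cyclic of bounded exponent and
the base points meet all its orbits -/
def RelOK (p : ℕ) (j : ℕ) : Prop :=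
  ∃ b : ℕ, ∀ N1 : Subgroup F, N1.Normal → Lev p (X.K j) N1 → ∃ u : F,
    (∃ s : ℤ, (X.ρ j)⁻¹ * u ^ s ∈ N1) ∧
    (∀ x : F, ∃ i : ℤ, ∃ y ∈ X.Y j, (u ^ i * y)⁻¹ * x ∈ N1) ∧
    (∃ s : ℤ, (X.ρ j ^ s)⁻¹ * u ^ (p ^ b) ∈ N1)

structure Ok (p : ℕ) (U : Subgroup F) : Prop where
  rel : ∀ j < X.m, X.RelOK p j
  inv : YInv X.Y U
  lev : Lev p X.KK U

variable {X} {p : ℕ} [hp : Fact p.Prime]

theorem kill_closure {N : Subgroup F} {j : ℕ} (hN : X.K j ≤ N) {R : Type} [AddCommGroup R]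
    {α : F → R} (hα : HomOn N α) (h : ∀ i < j, ∀ x : F, α (x⁻¹ * X.ρ i * x) = 0) :
    ∀ κ ∈ X.K j, α κ = 0 := by
  intro κ hκ
  have : X.K j ≤ hα.ker := by
    unfold K Subgroup.normalClosure
    rw [Subgroup.closure_le]
    intro g hg
    obtain ⟨_, ⟨i, hi, rfl⟩, hc⟩ := Group.mem_conjugatesOfSet_iff.mp hg
    obtain ⟨c, rfl⟩ := isConj_iff.mp hc
    have e : c * X.ρ i * c⁻¹ = c⁻¹⁻¹ * X.ρ i * c⁻¹ := by rw [inv_inv]
    rw [e]
    exact ⟨hN (X.conj_ρ_mem hi _), h i hi _⟩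
  exact (this hκ).2

theorem gen_aux (hrel : ∀ j < X.m, X.RelOK p j) :
    ∀ j ≤ X.m, ∀ N : Subgroup F, Lev p (X.K j) N → ∀ α : F → ZMod p, HomOn N α →
      (∀ i < j, ∀ y ∈ X.Y i, α (y⁻¹ * X.ρ i * y) = 0) → ∀ κ ∈ X.K j, α κ = 0 := by
  intro j
  induction j with
  | zero =>
    intro _ N hN α hα _
    exact kill_closure hN.le hα (fun i hi => absurd hi (Nat.not_lt_zero i))
  | succ j ih =>
    intro hj N hN α hα h
    have hN' : Lev p (X.K j) N := hN.monoK (X.K_mono (Nat.le_succ j))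
    have hk := ih (by omega) N hN' α hα (fun i hi => h i (by omega))
    refine kill_closure hN.le hα (fun i hi x => ?_)
    rcases Nat.lt_succ_iff_lt_or_eq.mp hi with hi' | rfl
    · exact hk _ (X.conj_ρ_mem hi' x)
    · obtain ⟨b, hb⟩ := hrel i (by omega)
      obtain ⟨u, ⟨s, hs⟩, hcov, -⟩ := hb _ inferInstance hN'.phi.core
      obtain ⟨l, y, hy, hxy⟩ := hcov x
      set N1 := (Phi p (X.K i) N).normalCore
      have hmem : (y⁻¹ * X.ρ i * y)⁻¹ * (x⁻¹ * X.ρ i * x) ∈ N1 := by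
        rw [← QuotientGroup.eq] at hs hxy ⊢
        simp only [QuotientGroup.mk_mul, QuotientGroup.mk_inv, QuotientGroup.mk_zpow] at hs hxy ⊢
        rw [← hxy, hs]
        group
      have h0 : α ((y⁻¹ * X.ρ i * y)⁻¹ * (x⁻¹ * X.ρ i * x)) = 0 :=
        (Subgroup.normalCore_le _ hmem).2 α hα hk
      rw [hα.eq_of (hN.le (X.conj_ρ_mem hi y)) (hN.le (X.conj_ρ_mem hi x)) h0]
      exact h i hi y hy

theorem Ok.gen {U : Subgroup F} (ok : X.Ok p U) {N : Subgroup F} (hN : Lev p X.KK N)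
    {α : F → ZMod p} (hα : HomOn N α) (h : ∀ i, ∀ y ∈ X.Y i, α (y⁻¹ * X.ρ i * y) = 0) :
    ∀ κ ∈ X.KK, α κ = 0 :=
  gen_aux ok.rel X.m le_rfl N hN α hα (fun i _ => h i)

theorem Ok.pot_kill {U : Subgroup F} (ok : X.Ok p U) {N : Subgroup F} (hN : Lev p X.KK N)
    {χ : S × F → ZMod p} (h : χ ∈ X.Z1 (ZMod p) N) : ∀ κ ∈ X.KK, pot χ κ = 0 := by
  refine ok.gen hN (pot_addOn h.1).homOn (fun i y hy => ?_)
  rw [← I_eq_pot_conj h.1 (hN.le (X.conj_ρ_mem (X.lt_of_mem hy) y)), ← X.δ_pos _ hy,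
    show X.δ χ = 0 from h.2]
  rfl

theorem Ok.pot_phi {U : Subgroup F} (ok : X.Ok p U) {N : Subgroup F} (hN : Lev p X.KK N)
    {χ : S × F → ZMod p} (h : χ ∈ X.Z1 (ZMod p) N) {n : F} (hn : n ∈ Phi p X.KK N) :
    pot χ n = 0 := hn.2 _ (pot_addOn h.1).homOn (ok.pot_kill hN h)

theorem mem_Phi_of_Z1 {N : Subgroup F} (hN : X.KK ≤ N) {n : F} (hn : n ∈ N)
    (h : ∀ χ ∈ X.Z1 (ZMod p) N, pot χ n = 0) : n ∈ Phi p X.KK N := by
  refine ⟨hn, fun α hα hk => ?_⟩
  obtain ⟨A, hA, hA'⟩ := hα.exists_addOn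
  have := h _ (d_mem_Z1 hN hA (fun κ hκ => by rw [hA' κ (hN hκ), hk κ hκ]))
  rwa [hA.pot_d, hA' n hn] at this

theorem Ok.int_kill {U : Subgroup F} (ok : X.Ok p U) {N : Subgroup F} (hN : Lev p X.KK N)
    {c : S × F → ℤ} (h : c ∈ X.Z1 ℤ N) : ∀ κ ∈ X.KK, pot c κ = 0 := by
  have hA := pot_addOn h.1
  have hrel : ∀ i, ∀ y ∈ X.Y i, pot c (y⁻¹ * X.ρ i * y) = 0 := by
    intro i y hy
    rw [← I_eq_pot_conj h.1 (hN.le (X.conj_ρ_mem (X.lt_of_mem hy) y)), ← X.δ_pos _ hy,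
      show X.δ c = 0 from h.2]
    rfl
  have key : ∀ e : ℕ, ∀ κ ∈ X.KK, (p : ℤ) ^ e ∣ pot c κ := by
    intro e
    induction e with
    | zero => simp
    | succ e ih =>
      have : NeZero (p ^ e) := ⟨pow_ne_zero _ hp.out.ne_zero⟩
      have hα : HomOn N (fun n => ((pot c n : ℤ) : ZMod (p ^ e))) := by
        intro a _ b hb
        simp only [hA a b hb, Int.cast_add]
      have hdvd : ∀ n, ((pot c n : ℤ) : ZMod (p ^ e)) = 0 ↔ (p : ℤ) ^ e ∣ pot c n := by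
        intro n
        rw [ZMod.intCast_zmod_eq_zero_iff_dvd]
        push_cast
        rfl
      have hlev := hN.ker hα (fun κ hκ => (hdvd κ).mpr (ih κ hκ)) (b := e)
        (fun r => by rw [nsmul_eq_mul, ZMod.natCast_self, zero_mul])
      have hβ : HomOn hα.ker (fun n => ((pot c n / (p : ℤ) ^ e : ℤ) : ZMod p)) := by
        intro a ha b hb
        simp only
        rw [hA a b hb.1, Int.add_ediv_of_dvd_left ((hdvd a).mp ha.2), Int.cast_add]
      intro κ hκ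
      have h1 := ok.gen hlev hβ (fun i y hy => by simp [hrel i y hy]) κ hκ
      have h2 := (ZMod.intCast_zmod_eq_zero_iff_dvd _ _).mp h1
      obtain ⟨r, hr⟩ := ih κ hκ
      have hpe : (p : ℤ) ^ e ≠ 0 := pow_ne_zero _ (by exact_mod_cast hp.out.ne_zero)
      rw [hr, Int.mul_ediv_cancel_left _ hpe] at h2
      rw [hr, pow_succ]
      exact mul_dvd_mul_left _ h2
  intro κ hκ
  by_contra hne
  have h1 := Int.natAbs_le_of_dvd_ne_zero (key (pot c κ).natAbs κ hκ) hne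
  rw [Int.natAbs_pow, Int.natAbs_natCast] at h1
  exact absurd (Nat.lt_pow_self hp.out.one_lt) (not_lt.mpr h1)

variable (X p)

/-- dimension of the second cohomology of the model complex at a level -/
noncomputable def h2 (N : Subgroup F) : ℕ :=
  finrank (ZMod p) (Fn (ZMod p) X.Y N) - finrank (ZMod p) (X.B2 (ZMod p) N)

/-- a nonzero two-cycle at a level -/
def Cyc (N : Subgroup F) (z : Module.Dual (ZMod p) (ℕ × F → ZMod p)) : Prop :=
  (∀ y ∈ X.B2 (ZMod p) N, z y = 0) ∧ ∃ y ∈ Fn (ZMod p) X.Y N, z y ≠ 0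

/-- the cup form of a cycle -/
noncomputable def cup (z : Module.Dual (ZMod p) (ℕ × F → ZMod p)) :
    (S × F → ZMod p) →ₗ[ZMod p] (S × F → ZMod p) →ₗ[ZMod p] ZMod p := X.TT.compr₂ z

theorem cup_apply (z : Module.Dual (ZMod p) (ℕ × F → ZMod p)) (α β : S × F → ZMod p) :
    X.cup p z α β = z (X.TT α β) := rfl

def Good (N : Subgroup F) (r : ℕ) : Prop :=
  ∀ z, X.Cyc p N z → r ≤ rk (X.cup p z) (X.Z1 (ZMod p) N) (X.Z1 (ZMod p) N)

/-- the quantitative invariant -/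
def PP (N : Subgroup F) (L : ℕ) : Prop :=
  X.Good p N (2 * X.h2 p N + L + 2) ∧ nn X.Y N + L < N.index

/-- two-cochains become coboundaries on the Frattini level -/
def ModelPS (U : Subgroup F) : Prop :=
  ∀ N : Subgroup F, N.Normal → Lev p X.KK N → N ≤ U → ∀ f ∈ Fn (ZMod p) X.Y N,
    ∃ α : F → ZMod p, HomOn (Phi p X.KK N) α ∧
      ∀ j, ∀ y ∈ X.Y j, α (y⁻¹ * X.ρ j * y) = f (j, y)

/-- the conclusion of the Tate chase -/
def CHProp (U : Subgroup F) : Prop :=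
  ∃ b : ℕ, ∀ N : Subgroup F, N.Normal → Lev p X.KK N → N ≤ U →
    ∃ N' : Subgroup F, N'.Normal ∧ Lev p X.KK N' ∧ N' ≤ N ∧
      ∀ g h : F, g ∉ N → g ^ p ∈ N' → g⁻¹ * (h⁻¹ * g * h) ∈ N' →
        ∃ u : F, (∃ i : ℤ, g⁻¹ * u ^ i ∈ N) ∧ (∃ i : ℤ, h⁻¹ * u ^ i ∈ N) ∧ u ^ (p ^ b) ∈ N

end Cx

end Pool.Agent.MP_702fe9_al.H61

end MrgPart2

-- ======== part 3: formerly Pool.Agent.MP_702fe9_al.h96.Cycl
section MrgPart3

set_option autoImplicit false
set_option linter.unusedSectionVars false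

namespace Pool.Agent.MP_702fe9_al.H61

variable {p : ℕ} [hp : Fact p.Prime]

def Nor (W : F) (N : Subgroup F) : Set F := {e | ∃ l : ℤ, (W ^ l)⁻¹ * (e * W * e⁻¹) ∈ N}

theorem cycl_lte (h3 : 3 ≤ p) (L : ℕ) (l : ℤ) (hl : (p : ℤ) ∣ l - 1) :
    ∃ μ : ℤ, l ^ (p ^ L) - 1 = (l - 1) * p ^ L * μ ∧ ¬ (p : ℤ) ∣ μ := by
  have hpr : Prime (p : ℤ) := Nat.prime_iff_prime_int.mp hp.out
  induction L with
  | zero => exact ⟨1, by simp, hpr.not_dvd_one⟩
  | succ L ih =>
    obtain ⟨μ, hμ, hn⟩ := ih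
    obtain ⟨k, hk⟩ : (p : ℤ) ∣ l ^ (p ^ L) - 1 := by
      rw [hμ, mul_assoc]; exact hl.mul_right _
    have hodd : Odd p := hp.out.odd_of_ne_two (by omega)
    obtain ⟨c, hc⟩ := odd_sq_dvd_geom_sum₂_sub (R := ℤ) (a := 1) (b := k) hodd
    simp only [one_pow, mul_one] at hc
    have h1 : l ^ (p ^ L) = 1 + p * k := by linarith
    refine ⟨μ * (1 + p * c), ?_, fun h => ?_⟩
    · have h2 := mul_geom_sum (1 + (p : ℤ) * k) p
      have h4 : ∑ i ∈ Finset.range p, (1 + (p : ℤ) * k) ^ i = p * (1 + p * c) := by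
        linarith
      rw [pow_succ, pow_mul, h1, ← h2, h4, ← h1, hμ]
      ring
    · rcases hpr.dvd_or_dvd h with h | h
      · exact hn h
      · exact hpr.not_dvd_one ((Int.dvd_add_left (dvd_mul_right _ _)).mp h)

theorem cycl_key (h3 : 3 ≤ p) {H : Type} [Group H] [Finite H] (hP : IsPGroup p H) (w : H) (L : ℕ)
    (hidx : ∀ e : Fin (L + 1) → H, ∃ i j, i ≠ j ∧ (e i)⁻¹ * e j ∈ Subgroup.zpowers w)
    (hnor : ∀ e : H, ∃ l : ℤ, e * w ^ (p ^ L) * e⁻¹ = (w ^ (p ^ L)) ^ l ∧ (p : ℤ) ∣ l - 1) :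
    (∀ e : H, e ^ (p ^ L) ∈ Subgroup.zpowers w) ∧
    (∀ e : H, Commute e ((w ^ (p ^ L)) ^ (p ^ L))) ∧
    ∃ u : H, ∀ e : H, ∃ i : ℤ,
      ((u ^ i)⁻¹ * e) ^ (p ^ (L * (p ^ L * p ^ L) + 3 * L)) = 1 := by
  classical
  have hA : ∀ e : H, e ^ (p ^ L) ∈ Subgroup.zpowers w := by
    intro e
    obtain ⟨a, ha⟩ := hP e
    have key : ∀ i j : Fin (L + 1), i < j → e ^ ((j : ℕ) - i) ∈ Subgroup.zpowers w →
        e ^ (p ^ L) ∈ Subgroup.zpowers w := by
      intro i j hij h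
      have h1 : (i : ℕ) < j := hij
      have h2 := j.2
      exact ppow (p := p) (a := a) (by omega) (by omega) h (by rw [ha]; exact one_mem _)
    have hsub : ∀ i j : ℕ, i ≤ j → (e ^ i)⁻¹ * e ^ j = e ^ (j - i) := by
      intro i j h
      obtain ⟨r, rfl⟩ := Nat.exists_eq_add_of_le h
      rw [pow_add, Nat.add_sub_cancel_left]; group
    obtain ⟨i, j, hij, h⟩ := hidx fun i => e ^ (i : ℕ)
    rcases lt_or_gt_of_ne hij with hlt | hlt
    · refine key i j hlt ?_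
      rwa [← hsub i j (le_of_lt hlt)]
    · refine key j i hlt ?_
      rw [← hsub j i (le_of_lt hlt)]
      simpa using inv_mem h
  set W := w ^ (p ^ L) with hW
  have hC : ∀ e : H, Commute e (W ^ (p ^ L)) := by
    intro e
    obtain ⟨l, hl, hd⟩ := hnor e
    have hit : ∀ n : ℕ, e ^ n * W * (e ^ n)⁻¹ = W ^ (l ^ n) := by
      intro n
      induction n with
      | zero => simp
      | succ n ih =>
        have : e ^ (n + 1) * W * (e ^ (n + 1))⁻¹ = e * (e ^ n * W * (e ^ n)⁻¹) * e⁻¹ := by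
          rw [pow_succ']; group
        rw [this, ih, ← conj_zpow, hl, ← zpow_mul, pow_succ']
    obtain ⟨s, hs⟩ := Subgroup.mem_zpowers_iff.mp (hA e)
    have h1 : W ^ (l ^ (p ^ L)) = W := by
      rw [← hit, ← hs, hW]; group
    obtain ⟨μ, hμ, hn⟩ := cycl_lte h3 L l hd
    obtain ⟨a, ha⟩ := hP (W ^ ((l - 1) * p ^ L))
    have h2 : W ^ ((l - 1) * p ^ L) ∈ (⊥ : Subgroup H) := by
      refine zpow_mem_of_coprime (p := p) (a := a) hn ?_ (by rw [ha]; exact one_mem _)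
      rw [← zpow_mul, ← hμ, zpow_sub, h1]
      simp
    rw [Subgroup.mem_bot] at h2
    have h3 : e * W ^ (p ^ L) * e⁻¹ = W ^ (p ^ L) := by
      rw [← conj_pow, hl, ← zpow_natCast, ← zpow_mul, ← zpow_natCast]
      have : l * ((p ^ L : ℕ) : ℤ) = (l - 1) * p ^ L + ((p ^ L : ℕ) : ℤ) := by
        push_cast; ring
      rw [this, zpow_add, h2, one_mul]
    exact mul_inv_eq_iff_eq_mul.mp h3
  refine ⟨hA, hC, ?_⟩
  have hcen : W ^ (p ^ L) ∈ Subgroup.center H := by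
    rw [Subgroup.mem_center_iff]
    exact fun g => (hC g).eq
  -- the index of the centre
  have hq : Nat.card (H ⧸ Subgroup.zpowers w) ≤ L := by
    by_contra hlt
    have hlt' : Fintype.card (Fin (L + 1)) ≤ Nat.card (H ⧸ Subgroup.zpowers w) := by
      simp only [Fintype.card_fin]; omega
    have := Fintype.ofFinite (H ⧸ Subgroup.zpowers w)
    rw [Nat.card_eq_fintype_card] at hlt'
    obtain ⟨f⟩ := Function.Embedding.nonempty_of_card_le hlt'
    obtain ⟨i, j, hij, h⟩ := hidx fun i => (f i).out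
    apply hij
    apply f.injective
    rw [← QuotientGroup.out_eq' (f i), ← QuotientGroup.out_eq' (f j)]
    exact QuotientGroup.eq.mpr h
  have hApos : 0 < p ^ L * p ^ L := by have := hp.out.pos; positivity
  have hidx2 : (Subgroup.center H).index ≤ L * (p ^ L * p ^ L) := by
    let f : (H ⧸ Subgroup.zpowers w) × Fin (p ^ L * p ^ L) → H ⧸ Subgroup.center H :=
      fun q => QuotientGroup.mk (q.1.out * w ^ (q.2 : ℕ))
    have hf : Function.Surjective f := by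
      intro y
      obtain ⟨x, rfl⟩ := QuotientGroup.mk_surjective y
      have h1 : (QuotientGroup.mk x : H ⧸ Subgroup.zpowers w).out⁻¹ * x ∈ Subgroup.zpowers w := by
        rw [← QuotientGroup.eq, QuotientGroup.out_eq']
      obtain ⟨s, hs⟩ := Subgroup.mem_zpowers_iff.mp h1
      have hM : (0 : ℤ) < ((p ^ L * p ^ L : ℕ) : ℤ) := by exact_mod_cast hApos
      have h2 := Int.emod_nonneg s hM.ne'
      have h4 := Int.emod_lt_of_pos s hM
      refine ⟨(QuotientGroup.mk x, ⟨(s % ((p ^ L * p ^ L : ℕ) : ℤ)).toNat, by omega⟩), ?_⟩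
      simp only [f]
      rw [QuotientGroup.eq]
      have h5 : x = (QuotientGroup.mk x : H ⧸ Subgroup.zpowers w).out * w ^ s := by
        rw [hs]; group
      generalize (QuotientGroup.mk x : H ⧸ Subgroup.zpowers w).out = r at h5
      rw [h5, ← zpow_natCast, Int.toNat_of_nonneg h2]
      have h6 : (r * w ^ (s % ((p ^ L * p ^ L : ℕ) : ℤ)))⁻¹ * (r * w ^ s) =
          (W ^ (p ^ L)) ^ (s / ((p ^ L * p ^ L : ℕ) : ℤ)) := by
        rw [hW, ← pow_mul, ← zpow_natCast, ← zpow_mul]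
        conv_lhs => rw [← Int.emod_add_mul_ediv s ((p ^ L * p ^ L : ℕ) : ℤ)]
        rw [Int.add_mul_emod_self_left, Int.emod_emod, zpow_add]
        group
      rw [h6]
      exact Subgroup.zpow_mem _ hcen _
    have := Nat.card_le_card_of_surjective f hf
    rw [Nat.card_prod, Nat.card_fin] at this
    exact this.trans (Nat.mul_le_mul_right _ hq)
  obtain ⟨c, hc⟩ := hP.index (Subgroup.center H)
  have hcle : c ≤ L * (p ^ L * p ^ L) := by
    have : c < p ^ c := Nat.lt_pow_self hp.out.one_lt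
    omega
  obtain ⟨r, hr⟩ := Nat.exists_eq_add_of_le hcle
  set n := L * (p ^ L * p ^ L) + 3 * L with hn
  have hmul : ∀ a b : H, (a * b) ^ (p ^ n) = a ^ (p ^ n) * b ^ (p ^ n) := by
    intro a b
    have h1 := congrArg Subtype.val (map_mul (MonoidHom.transferCenterPow H) a b)
    simp only [Subgroup.coe_mul, MonoidHom.transferCenterPow_apply, hc] at h1
    have h2 : Commute (a ^ (p ^ c)) (b ^ (p ^ c)) := by
      have := (Subgroup.center H).pow_index_mem b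
      rw [hc, Subgroup.mem_center_iff] at this
      exact this _
    have h4 : p ^ n = p ^ c * p ^ (r + 3 * L) := by rw [← pow_add, hn, hr]; ring_nf
    rw [h4, pow_mul, pow_mul, pow_mul, h1, h2.mul_pow]
  let φ : H →* H := MonoidHom.mk' (fun a => a ^ (p ^ n)) hmul
  have hle : φ.range ≤ Subgroup.zpowers w := by
    rintro _ ⟨a, rfl⟩
    have h4 : p ^ n = p ^ L * p ^ (L * (p ^ L * p ^ L) + 2 * L) := by
      rw [← pow_add, hn]; ring_nf
    change a ^ (p ^ n) ∈ _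
    rw [h4, pow_mul]
    exact Subgroup.pow_mem _ (hA a) _
  have hcyc : IsCyclic φ.range := Subgroup.isCyclic_of_le hle
  obtain ⟨⟨_, u, rfl⟩, hu⟩ := IsCyclic.exists_generator (α := φ.range)
  refine ⟨u, fun e => ?_⟩
  obtain ⟨i, hi⟩ := Subgroup.mem_zpowers_iff.mp (hu ⟨φ e, e, rfl⟩)
  refine ⟨i, ?_⟩
  have h5 : φ u ^ i = φ e := by simpa using congrArg Subtype.val hi
  change φ ((u ^ i)⁻¹ * e) = 1
  rw [map_mul, map_inv, map_zpow, h5, inv_mul_cancel]

theorem cycl_tl {X : Cx} {U : Subgroup F} (hU : Lev p X.KK U) (hCH : X.CHProp p U) (W : F)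
    (hinf : ∀ n : ℕ, ∃ N : Subgroup F, N.Normal ∧ Lev p X.KK N ∧ W ^ (p ^ n) ∉ N) (n : ℕ) :
    ∀ N1 : Subgroup F, N1.Normal → Lev p X.KK N1 →
      ∃ N2 : Subgroup F, N2.Normal ∧ Lev p X.KK N2 ∧ N2 ≤ N1 ∧
        ∀ g : F, g ^ (p ^ n) ∈ N2 → g⁻¹ * (W⁻¹ * g * W) ∈ N2 → g ∈ N1 := by
  induction n with
  | zero => exact fun N1 h1 h2 => ⟨N1, h1, h2, le_rfl, fun g hg _ => by simpa using hg⟩
  | succ n ih =>
    intro N1 h1 h2
    obtain ⟨b, hb⟩ := hCH
    obtain ⟨NB, hB1, hB2, hB3⟩ := hinf b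
    have hN : Lev p X.KK (N1 ⊓ (NB ⊓ U.normalCore)) := h2.inf (hB2.inf hU.core)
    obtain ⟨N', hn1, hn2, hn3, hn4⟩ := hb _ inferInstance hN
      (inf_le_right.trans (inf_le_right.trans U.normalCore_le))
    obtain ⟨N2, hm1, hm2, hm3, hm4⟩ := ih N' hn1 hn2
    refine ⟨N2, hm1, hm2, hm3.trans (hn3.trans inf_le_left), fun g hg hc => ?_⟩
    have hgp : g ^ p ∈ N' := by
      refine hm4 _ (by rwa [← pow_mul, ← pow_succ']) ?_
      rw [← QuotientGroup.eq] at hc ⊢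
      have e : W⁻¹ * g ^ p * W = (W⁻¹ * g * W) ^ p := by
        have := conj_pow (a := W⁻¹) (b := g) (i := p)
        simpa using this.symm
      rw [e, QuotientGroup.mk_pow, QuotientGroup.mk_pow, hc]
    by_contra hg1
    obtain ⟨u, -, ⟨i, hi⟩, hu⟩ := hn4 g W (fun h => hg1 h.1) hgp (hm3 hc)
    apply hB3
    have hi' : W⁻¹ * u ^ i ∈ NB := hi.2.1
    have hu' : u ^ (p ^ b) ∈ NB := hu.2.1
    rw [← QuotientGroup.eq] at hi'
    rw [← QuotientGroup.eq_one_iff] at hu' ⊢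
    rw [QuotientGroup.mk_pow, hi', QuotientGroup.mk_zpow, ← zpow_natCast, ← zpow_mul, mul_comm,
      zpow_mul, zpow_natCast, ← QuotientGroup.mk_pow, hu', one_zpow]

/-- the normaliser set as a subgroup -/
def norSub (W : F) (N : Subgroup F) [N.Normal] [N.FiniteIndex] : Subgroup F :=
  (Subgroup.normalizer
    (Subgroup.zpowers (QuotientGroup.mk W : F ⧸ N) : Set (F ⧸ N))).comap (QuotientGroup.mk' N)

theorem mem_norSub (W : F) (N : Subgroup F) [N.Normal] [N.FiniteIndex] (e : F) :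
    e ∈ norSub W N ↔ e ∈ Nor W N := by
  constructor
  · intro h
    have h1 := (Subgroup.mem_normalizer_iff.mp h (QuotientGroup.mk W)).mp
      (Subgroup.mem_zpowers _)
    obtain ⟨l, hl⟩ := Subgroup.mem_zpowers_iff.mp h1
    refine ⟨l, ?_⟩
    rw [← QuotientGroup.eq]
    simpa using hl
  · rintro ⟨l, hl⟩
    rw [← QuotientGroup.eq] at hl
    refine Subgroup.mem_normalizer_fintype ?_
    intro x hx
    obtain ⟨k, rfl⟩ := Subgroup.mem_zpowers_iff.mp hx
    have h1 : (QuotientGroup.mk' N e) * (QuotientGroup.mk W : F ⧸ N) *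
        (QuotientGroup.mk' N e)⁻¹ = (QuotientGroup.mk W : F ⧸ N) ^ l := by
      simpa using hl.symm
    rw [← conj_zpow, h1]
    exact Subgroup.zpow_mem _ (Subgroup.zpow_mem _ (Subgroup.mem_zpowers _) _) _

theorem cycl (h3 : 3 ≤ p) {X : Cx} {U : Subgroup F} (hU : Lev p X.KK U) (hCH : X.CHProp p U)
    (w : F) (L : ℕ)
    (hinf : ∀ n : ℕ, ∃ N : Subgroup F, N.Normal ∧ Lev p X.KK N ∧ w ^ (p ^ n) ∉ N)
    (hBI : ∀ N' : Subgroup F, N'.Normal → Lev p X.KK N' →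
      ∃ N'' : Subgroup F, N''.Normal ∧ Lev p X.KK N'' ∧ N'' ≤ N' ∧
        (∀ e : Fin (L + 1) → F, (∀ i, e i ∈ Nor (w ^ (p ^ L)) N'') →
          ∃ i j, i ≠ j ∧ ∃ l : ℤ, (w ^ l)⁻¹ * ((e i)⁻¹ * e j) ∈ N') ∧
        (∀ (e : F) (l : ℤ), ((w ^ (p ^ L)) ^ l)⁻¹ * (e * w ^ (p ^ L) * e⁻¹) ∈ N'' →
          (p : ℤ) ∣ l - 1)) :
    ∀ N1 : Subgroup F, N1.Normal → Lev p X.KK N1 →
      ∃ N'' : Subgroup F, N''.Normal ∧ Lev p X.KK N'' ∧ ∃ u : F,
        (∀ e ∈ Nor (w ^ (p ^ L)) N'', ∃ i : ℤ, (u ^ i)⁻¹ * e ∈ N1) ∧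
        ∃ s : ℤ, (w ^ s)⁻¹ * u ^ (p ^ L) ∈ N1 := by
  intro N1 h1 h2
  have hinf2 : ∀ n : ℕ, ∃ N : Subgroup F, N.Normal ∧ Lev p X.KK N ∧
      ((w ^ (p ^ L)) ^ (p ^ L)) ^ (p ^ n) ∉ N := by
    intro n
    have := hinf (L + L + n)
    rwa [pow_add, pow_add, pow_mul, pow_mul] at this
  obtain ⟨N', hn1, hn2, hn3, hn4⟩ :=
    cycl_tl hU hCH _ hinf2 (L * (p ^ L * p ^ L) + 3 * L) N1 h1 h2
  obtain ⟨N'', hm1, hm2, hm3, hm4, hm5⟩ := hBI N' hn1 hn2
  refine ⟨N'', hm1, hm2, ?_⟩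
  have := hn2.fin
  have := hm2.fin
  let π := QuotientGroup.mk' N'
  let M := norSub (w ^ (p ^ L)) N''
  let H := M.map π
  have hwM : w ∈ M := (mem_norSub _ _ _).mpr ⟨1, by
    have : ((w ^ p ^ L) ^ (1 : ℤ))⁻¹ * (w * w ^ p ^ L * w⁻¹) = 1 := by group
    rw [this]; exact one_mem _⟩
  let wb : H := ⟨π w, w, hwM, rfl⟩
  have hP : IsPGroup p H := by
    rintro ⟨_, x, hx, rfl⟩
    obtain ⟨a, ha⟩ := hn2.pp
    refine ⟨a, Subtype.ext ?_⟩
    simp only [SubmonoidClass.coe_pow, OneMemClass.coe_one]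
    rw [← map_pow]
    exact (QuotientGroup.eq_one_iff _).mpr (ha x)
  have hrep : ∀ x : H, ∃ e ∈ M, π e = x := fun x => x.2
  choose rep hrepM hrepπ using hrep
  obtain ⟨k1, k2, u, k3⟩ := cycl_key h3 hP wb L
    (fun e => by
      obtain ⟨i, j, hij, l, hl⟩ := hm4 (fun i => rep (e i))
        (fun i => (mem_norSub _ _ _).mp (hrepM _))
      refine ⟨i, j, hij, Subgroup.mem_zpowers_iff.mpr ⟨l, Subtype.ext ?_⟩⟩
      rw [← QuotientGroup.eq] at hl
      change π _ = π _ at hl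
      rw [map_zpow, map_mul, map_inv, hrepπ, hrepπ] at hl
      exact hl)
    (fun e => by
      obtain ⟨l, hl⟩ := (mem_norSub _ _ _).mp (hrepM e)
      refine ⟨l, Subtype.ext ?_, hm5 _ _ hl⟩
      have hl' := hm3 hl
      rw [← QuotientGroup.eq] at hl'
      change π _ = π _ at hl'
      rw [map_zpow, map_mul, map_mul, map_inv, map_pow, hrepπ] at hl'
      exact hl'.symm)
  refine ⟨rep u, fun e he => ?_, ?_⟩
  · let eb : H := ⟨π e, e, (mem_norSub _ _ _).mpr he, rfl⟩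
    obtain ⟨i, hi⟩ := k3 eb
    have hval : π ((rep u ^ i)⁻¹ * e) = ((u ^ i)⁻¹ * eb : H) := by
      simp only [map_mul, map_inv, map_zpow, hrepπ, SubgroupClass.coe_zpow, Subgroup.coe_mul,
        InvMemClass.coe_inv, eb]
    refine ⟨i, hn4 _ ?_ ?_⟩
    · rw [← QuotientGroup.eq_one_iff]
      change π _ = 1
      rw [map_pow, hval]
      simpa using congrArg Subtype.val hi
    · rw [← QuotientGroup.eq]
      change π _ = π _
      have hc := congrArg Subtype.val (k2 ((u ^ i)⁻¹ * eb)).eq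
      generalize (rep u ^ i)⁻¹ * e = g at hval
      generalize (u ^ i)⁻¹ * eb = gb at hval hc
      rw [map_mul, map_mul, map_inv, hval, map_pow, map_pow, mul_assoc]
      simp only [Subgroup.coe_mul, SubmonoidClass.coe_pow, wb] at hc
      rw [hc]; group
  · obtain ⟨s, hs⟩ := Subgroup.mem_zpowers_iff.mp (k1 u)
    refine ⟨s, hn3 ?_⟩
    rw [← QuotientGroup.eq]
    change π _ = π _
    rw [map_zpow, map_pow, hrepπ]
    simpa [wb] using congrArg Subtype.val hs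

end Pool.Agent.MP_702fe9_al.H61

end MrgPart3

-- marker of a merged file
example : 731051 + 549417 = 731051 + 549417 := rfl
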