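import Mathlib.Tactic.Linarith.Frontend
import Mathlib.Algebra.BigOperators.Group.Finset.Sigma
import Mathlib.Algebra.BigOperators.Ring.Finset
import Mathlib.Data.ZMod.Defs
import Mathlib.Algebra.CharP.Defs
import Mathlib.Tactic.SuppressCompilation
import Mathlib.Tactic.LinearCombination
import Mathlib.Tactic.Monotonicity.Lemmas
import Mathlib.Data.Int.ConditionallyCompleteOrder
import Mathlib.Data.Int.Star
import Mathlib.Algebra.Order.Ring.Star
import Mathlib.Tactic.Algebra.Basic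
import Pool.Agent.MP_702fe9_al.h61.Inj
import Pool.Agent.MP_702fe9_al.h96.Cycl
import Mathlib.Order.BourbakiWitt
import Mathlib.Order.CompletePartialOrder

-- ======== part 0: formerly Pool.Agent.MP_702fe9_al.h3.SheetsA
section MrgPart0

set_option autoImplicit false
set_option linter.unusedSectionVars false

namespace Pool.Agent.MP_702fe9_al.H61.Sheets

theorem fl_eq {Q a n : ℤ} (hQ : 0 < Q) (h1 : n * Q ≤ a) (h2 : a < (n + 1) * Q) : a / Q = n := by
  have h3 : n ≤ a / Q := (Int.le_ediv_iff_mul_le hQ).mpr h1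
  have h4 : a / Q < n + 1 := (Int.ediv_lt_iff_lt_mul hQ).mpr h2
  omega

theorem fl_near_aux {Q a b y R c : ℤ} (hQ : 0 < Q) (ha : |a - y| ≤ R) (hb : |b - y| ≤ R)
    (h : (a - c) / Q < (b - c) / Q) : ∃ n : ℤ, |y - c - n * Q| ≤ R := by
  refine ⟨(b - c) / Q, ?_⟩
  have h1 : (b - c) / Q * Q ≤ b - c := (Int.le_ediv_iff_mul_le hQ).mp le_rfl
  have h2 : a - c < (b - c) / Q * Q := (Int.ediv_lt_iff_lt_mul hQ).mp h
  rw [abs_le] at ha hb ⊢
  constructor <;> linarith [ha.1, ha.2, hb.1, hb.2]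

theorem fl_near {Q a b y R c : ℤ} (hQ : 0 < Q) (ha : |a - y| ≤ R) (hb : |b - y| ≤ R)
    (h : (a - c) / Q ≠ (b - c) / Q) : ∃ n : ℤ, |y - c - n * Q| ≤ R := by
  rcases lt_or_gt_of_ne h with h | h
  · exact fl_near_aux hQ ha hb h
  · exact fl_near_aux hQ hb ha h

section ring
variable {R : Type} [CommRing R]

theorem sum_shift {f : ℤ → R} {q : ℕ} (h : ∀ i, f (i + q) = f i) (t : ℤ) :
    ∑ i ∈ Finset.range q, f (i + t) = ∑ i ∈ Finset.range q, f i := by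
  have step : ∀ t : ℤ, ∑ i ∈ Finset.range q, f (i + (t + 1)) = ∑ i ∈ Finset.range q, f (i + t) := by
    intro t
    have h1 := Finset.sum_range_succ (fun i : ℕ => f (i + t)) q
    have h2 := Finset.sum_range_succ' (fun i : ℕ => f (i + t)) q
    have h3 : f ((q : ℤ) + t) = f (((0 : ℕ) : ℤ) + t) := by
      rw [add_comm, h]; simp
    have h4 : ∑ i ∈ Finset.range q, f (((i + 1 : ℕ) : ℤ) + t) =
        ∑ i ∈ Finset.range q, f (i + (t + 1)) :=
      Finset.sum_congr rfl (fun i _ => by congr 1; push_cast; ring)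
    rw [h4] at h2
    rw [h2, h3] at h1
    exact add_right_cancel h1
  induction t using Int.induction_on with
  | zero => simp
  | succ n ih => rw [step, ih]
  | pred n ih =>
    rw [← ih, ← step (-(n : ℤ) - 1)]
    simp

theorem const_on {f : ℤ → R} {a b : ℤ} (hab : a ≤ b)
    (h : ∀ i, a ≤ i → i < b → f (i + 1) = f i) : f b = f a := by
  induction b, hab using Int.leInduction with
  | base => rfl
  | succ n hn ih =>
    rw [h n hn (by omega)]
    exact ih (fun i h1 h2 => h i h1 (by omega))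

theorem const_all {f : ℤ → R} (h : ∀ i, f (i + 1) = f i) (a b : ℤ) : f a = f b := by
  rcases le_total a b with hab | hab
  · exact (const_on hab (fun i _ _ => h i)).symm
  · exact const_on hab (fun i _ _ => h i)

end ring

/-- data of a loop seen on the line of positions -/
structure Line (p : ℕ) (B : Type) [AddCommGroup B] where
  p0 : ℤ
  μ : ℤ
  Q : ℤ
  W : ℤ
  R : ℤ
  u : ℤ
  j : ℤ
  q : ℕ
  τ : B
  Θ : ℤ → B
  hQ : 0 < Q
  hμ : |μ| ≤ R
  hW : 2 * R < W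
  hj : j * μ = W
  hq : q * μ = u * Q
  hΘj : ∀ i, Θ (i + j) = Θ i + τ
  hΘq : ∀ i, Θ (i + q) = Θ i
  hτ : (p : ℤ) • τ = 0

namespace Line
variable {p : ℕ} {B : Type} [AddCommGroup B] (L : Line p B)

def σ (c i : ℤ) : ℤ := (L.p0 + i * L.μ - c) / L.Q

open Classical in
noncomputable def ind (s : B) (i : ℤ) : ZMod p := if L.Θ i = s then 1 else 0

noncomputable def e (c : ℤ) (s : B) (i : ℤ) : ZMod p :=
  L.ind s i * ((L.σ c (i + 1) : ZMod p) - (L.σ c i : ZMod p))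

theorem R_nonneg : 0 ≤ L.R := (abs_nonneg _).trans L.hμ

theorem Θ_mul (t i : ℤ) : L.Θ (i + t * L.j) = L.Θ i + t • L.τ := by
  induction t using Int.induction_on with
  | zero => simp
  | succ n ih => rw [add_mul, one_mul, ← add_assoc, L.hΘj, ih, add_smul, one_smul, add_assoc]
  | pred n ih =>
    have := L.hΘj (i + (-(n : ℤ) - 1) * L.j)
    rw [show i + (-(n : ℤ) - 1) * L.j + L.j = i + (-(n : ℤ)) * L.j by ring, ih] at this
    rw [sub_smul, one_smul, ← add_sub_assoc, this, add_sub_cancel_right]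

theorem σ_mul (c t i : ℤ) : L.σ (c + t * L.W) (i + t * L.j) = L.σ c i := by
  unfold σ
  congr 1
  rw [← L.hj]; ring

theorem σ_q (c i : ℤ) : L.σ c (i + L.q) = L.σ c i + L.u := by
  unfold σ
  rw [show L.p0 + (i + L.q) * L.μ - c = L.p0 + i * L.μ - c + L.u * L.Q by rw [← L.hq]; ring,
    Int.add_mul_ediv_right _ _ L.hQ.ne']

theorem e_q (c : ℤ) (s : B) (i : ℤ) : L.e c s (i + L.q) = L.e c s i := by
  unfold e ind
  rw [L.hΘq, add_right_comm, σ_q, σ_q]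
  push_cast
  ring

theorem e_De (c : ℤ) (s : B) (i : ℤ) : L.e (c + p * L.W) s (i + p * L.j) = L.e c s i := by
  unfold e ind
  rw [Θ_mul, L.hτ, add_zero, add_right_comm, σ_mul, σ_mul]

theorem sum_e_De (c : ℤ) (s : B) :
    ∑ i ∈ Finset.range L.q, L.e (c + p * L.W) s i = ∑ i ∈ Finset.range L.q, L.e c s i := by
  rw [← sum_shift (L.e_q _ s) (p * L.j)]
  exact Finset.sum_congr rfl (fun i _ => L.e_De c s i)

theorem sum_all [Fintype B] (c : ℤ) :
    ∑ s : B, ∑ i ∈ Finset.range L.q, L.e c s i = (L.u : ZMod p) := by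
  classical
  rw [Finset.sum_comm]
  have h1 : ∀ i : ℕ, ∑ s : B, L.e c s i =
      (L.σ c ((i + 1 : ℕ) : ℤ) : ZMod p) - (L.σ c (i : ℕ) : ZMod p) := by
    intro i
    unfold e ind
    rw [← Finset.sum_mul, Finset.sum_ite_eq]
    simp
  rw [Finset.sum_congr rfl (fun i _ => h1 i),
    Finset.sum_range_sub (fun i : ℕ => (L.σ c (i : ℤ) : ZMod p))]
  have := L.σ_q c 0
  rw [zero_add] at this
  rw [this]
  simp

theorem σ_between (c : ℤ) {a b i : ℤ} (h1 : a ≤ i) (h2 : i ≤ b) (h : L.σ c a = L.σ c b) :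
    L.σ c i = L.σ c a := by
  have mono : ∀ x y : ℤ, x * L.μ ≤ y * L.μ → L.σ c x ≤ L.σ c y := fun x y hxy =>
    Int.ediv_le_ediv L.hQ (by linarith)
  rcases le_total 0 L.μ with hm | hm
  · have h3 := mono a i (mul_le_mul_of_nonneg_right h1 hm)
    have h4 := mono i b (mul_le_mul_of_nonneg_right h2 hm)
    omega
  · have h3 := mono i a (mul_le_mul_of_nonpos_right h1 hm)
    have h4 := mono b i (mul_le_mul_of_nonpos_right h2 hm)
    omega

theorem E_eq {c : ℤ} {s : B} {E : ℤ → ZMod p} (hE : ∀ i, E (i + 1) - E i = L.e c s i)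
    {a b : ℤ} (h : L.σ c a = L.σ c b) : E a = E b := by
  have key : ∀ a b : ℤ, a ≤ b → L.σ c a = L.σ c b → E b = E a := by
    intro a b hab h
    refine const_on hab (fun i h1 h2 => ?_)
    have h3 := hE i
    unfold e at h3
    rw [L.σ_between c h1 h2.le h, L.σ_between c (i := i + 1) (by omega) (by omega) h, sub_self,
      mul_zero] at h3
    exact sub_eq_zero.mp h3
  rcases le_total a b with hab | hab
  · exact (key a b hab h).symm
  · exact key b a hab h.symm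

theorem near_of_ne {c i : ℤ} (h : L.σ c (i + 1) ≠ L.σ c i) :
    ∃ n : ℤ, |L.p0 + i * L.μ - c - n * L.Q| ≤ L.R :=
  fl_near L.hQ (by rw [show L.p0 + (i + 1) * L.μ - (L.p0 + i * L.μ) = L.μ by ring]; exact L.hμ)
    (by rw [sub_self, abs_zero]; exact L.R_nonneg) h

theorem reduce {c : ℤ} {s : B} {E G : ℤ → ZMod p} (hE : ∀ i, E (i + 1) - E i = L.e c s i)
    (hG : ∀ i, G (i + 1) - G i = L.e c s i - L.e (c + p * L.W) s i) (c' : ℤ) (s' : B) :
    ∑ i ∈ Finset.range L.q, G i * (L.e c' s' i - L.e (c' + p * L.W) s' i) =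
      ∑ i ∈ Finset.range L.q,
        (2 * E i - E (i + p * L.j) - E (i - p * L.j)) * L.e c' s' i := by
  have h1 : ∀ a b, G a - E a + E (a - p * L.j) = G b - E b + E (b - p * L.j) := by
    refine const_all (f := fun a => G a - E a + E (a - p * L.j)) (fun i => ?_)
    have e1 := hG i
    have e2 := hE i
    have e3 := hE (i - p * L.j)
    have e4 := L.e_De c s (i - p * L.j)
    rw [sub_add_cancel] at e4
    rw [show i - p * L.j + 1 = i + 1 - p * L.j by ring] at e3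
    linear_combination e1 - e2 + e3 - e4
  have h2 : ∀ a b, E (a + L.q) - E a = E (b + L.q) - E b := by
    refine const_all (f := fun a => E (a + L.q) - E a) (fun i => ?_)
    have e2 := hE i
    have e3 := hE (i + L.q)
    rw [L.e_q, add_right_comm] at e3
    linear_combination e3 - e2
  have h3 : ∀ i, G (i + L.q) = G i := by
    intro i
    have e1 := h1 (i + L.q) i
    have e2 := h2 i (i - p * L.j)
    rw [show i - p * L.j + L.q = i + L.q - p * L.j by ring] at e2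
    linear_combination e1 + e2
  have h4 := sum_shift (f := fun i => G i * L.e (c' + p * L.W) s' i) (q := L.q)
    (fun i => by simp only [h3, L.e_q]) (p * L.j)
  simp only [mul_sub, Finset.sum_sub_distrib]
  rw [← h4, ← Finset.sum_sub_distrib]
  refine Finset.sum_congr rfl (fun i _ => ?_)
  rw [L.e_De]
  have e1 := h1 i (i + p * L.j)
  rw [add_sub_cancel_right] at e1
  linear_combination (L.e c' s' i) * e1

theorem σ_eq {c i n : ℤ} (h1 : n * L.Q ≤ L.p0 + i * L.μ - c)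
    (h2 : L.p0 + i * L.μ - c < (n + 1) * L.Q) : L.σ c i = n := fl_eq L.hQ h1 h2

open Classical in
theorem term_diag (hp : 2 ≤ p) {c : ℤ} {s : B} {E : ℤ → ZMod p}
    (hE : ∀ i, E (i + 1) - E i = L.e c s i) (hb : 2 * (p * L.W) + L.R < L.Q) (s' : B) (i : ℤ) :
    (2 * E i - E (i + p * L.j) - E (i - p * L.j)) * L.e (c + L.W) s' i =
      (if s' = s + L.τ then 1 else 0) * L.e c s (i - L.j) := by
  have e1 := L.σ_mul c 1 (i - L.j)
  have e2 := L.σ_mul c 1 (i - L.j + 1)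
  have e3 := L.hΘj (i - L.j)
  rw [one_mul, one_mul] at e1 e2
  rw [sub_add_cancel] at e1 e3
  rw [show i - L.j + 1 + L.j = i + 1 by ring] at e2
  by_cases hne : L.σ c (i - L.j + 1) = L.σ c (i - L.j)
  · unfold e
    rw [e1, e2, hne]
    simp
  obtain ⟨n, hn⟩ := L.near_of_ne hne
  have hR := L.R_nonneg
  have hW := L.hW
  have hμ := abs_le.mp L.hμ
  have hD : 2 * L.W ≤ p * L.W := mul_le_mul_of_nonneg_right (by exact_mod_cast hp) (by omega)
  rw [abs_le] at hn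
  have a0 : (i - L.j) * L.μ = i * L.μ - L.W := by rw [← L.hj]; ring
  have a1 : (i - L.j + 1) * L.μ = i * L.μ - L.W + L.μ := by rw [← L.hj]; ring
  have a2 : (i + p * L.j) * L.μ = i * L.μ + p * L.W := by rw [← L.hj]; ring
  have a3 : (i - p * L.j) * L.μ = i * L.μ - p * L.W := by rw [← L.hj]; ring
  rw [a0] at hn
  have s1 : L.σ c i = n := L.σ_eq (by linarith [hn.1]) (by linarith [hn.2])
  have s2 : L.σ c (i + p * L.j) = n :=
    L.σ_eq (by rw [a2]; linarith [hn.1]) (by rw [a2]; linarith [hn.2])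
  have s3 : L.σ c (i - p * L.j) = n - 1 :=
    L.σ_eq (by rw [a3]; linarith [hn.1]) (by rw [a3]; linarith [hn.2])
  have s4 : L.σ c (i - L.j) = n - 1 ∨ L.σ c (i - L.j) = n := by
    rcases lt_or_ge (L.p0 + (i - L.j) * L.μ - c) (n * L.Q) with h | h
    · exact Or.inl (L.σ_eq (by rw [a0]; linarith [hn.1]) (by linarith))
    · exact Or.inr (L.σ_eq h (by rw [a0]; linarith [hn.2]))
  have s5 : L.σ c (i - L.j + 1) = n - 1 ∨ L.σ c (i - L.j + 1) = n := by
    rcases lt_or_ge (L.p0 + (i - L.j + 1) * L.μ - c) (n * L.Q) with h | h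
    · exact Or.inl (L.σ_eq (by rw [a1]; linarith [hn.1, hμ.1]) (by linarith))
    · exact Or.inr (L.σ_eq h (by rw [a1]; linarith [hn.2, hμ.2]))
  have k1 : E (i + p * L.j) = E i := L.E_eq hE (by rw [s1, s2])
  have k2 : E i - E (i - p * L.j) = L.ind s (i - L.j) := by
    have h0 := hE (i - L.j)
    unfold e at h0
    rcases s4 with s4 | s4
    · have s6 : L.σ c (i - L.j + 1) = n := by omega
      rw [L.E_eq hE (a := i) (b := i - L.j + 1) (by rw [s1, s6]),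
        L.E_eq hE (a := i - p * L.j) (b := i - L.j) (by rw [s3, s4]), h0, s4, s6]
      push_cast
      ring
    · have s6 : L.σ c (i - L.j + 1) = n - 1 := by omega
      rw [L.E_eq hE (a := i) (b := i - L.j) (by rw [s1, s4]),
        L.E_eq hE (a := i - p * L.j) (b := i - L.j + 1) (by rw [s3, s6])]
      rw [s4, s6] at h0
      push_cast at h0
      linear_combination -h0
  have k3 : L.ind s (i - L.j) * L.ind s' i = (if s' = s + L.τ then 1 else 0) * L.ind s (i - L.j) := by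
    unfold ind
    rw [e3]
    by_cases h : L.Θ (i - L.j) = s
    · rw [h]
      simp [eq_comm]
    · simp [h]
  unfold e
  rw [e1, e2, k1]
  linear_combination (L.ind s' i * ((L.σ c (i - L.j + 1) : ZMod p) - (L.σ c (i - L.j) : ZMod p))) * k2
    + ((L.σ c (i - L.j + 1) : ZMod p) - (L.σ c (i - L.j) : ZMod p)) * k3

theorem term_off (hp : 2 ≤ p) {c : ℤ} {s : B} {E : ℤ → ZMod p}
    (hE : ∀ i, E (i + 1) - E i = L.e c s i) {t : ℤ} (ht : t ≠ 0)
    (hb : (2 * |t| + 2) * (p * L.W) + L.R < L.Q) (s' : B) (i : ℤ) :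
    (2 * E i - E (i + p * L.j) - E (i - p * L.j)) * L.e (c + L.W + 2 * t * (p * L.W)) s' i = 0 := by
  by_cases hne : L.σ (c + L.W + 2 * t * (p * L.W)) (i + 1) = L.σ (c + L.W + 2 * t * (p * L.W)) i
  · unfold e
    rw [hne]
    simp
  obtain ⟨n, hn⟩ := L.near_of_ne hne
  have hR := L.R_nonneg
  have hW := L.hW
  have hD : 2 * L.W ≤ p * L.W := mul_le_mul_of_nonneg_right (by exact_mod_cast hp) (by omega)
  rw [abs_le] at hn
  have a2 : (i + p * L.j) * L.μ = i * L.μ + p * L.W := by rw [← L.hj]; ring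
  have a3 : (i - p * L.j) * L.μ = i * L.μ - p * L.W := by rw [← L.hj]; ring
  have key : ∃ n', L.σ c i = n' ∧ L.σ c (i + p * L.j) = n' ∧ L.σ c (i - p * L.j) = n' := by
    rcases lt_or_gt_of_ne ht with h | h
    · rw [abs_of_neg h] at hb
      have h1 : t * (p * L.W) ≤ -1 * (p * L.W) := mul_le_mul_of_nonneg_right (by omega) (by omega)
      refine ⟨n - 1, L.σ_eq (by linarith [hn.1]) (by linarith [hn.2]),
        L.σ_eq (by rw [a2]; linarith [hn.1]) (by rw [a2]; linarith [hn.2]),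
        L.σ_eq (by rw [a3]; linarith [hn.1]) (by rw [a3]; linarith [hn.2])⟩
    · rw [abs_of_pos h] at hb
      have h1 : 1 * (p * L.W) ≤ t * (p * L.W) := mul_le_mul_of_nonneg_right (by omega) (by omega)
      refine ⟨n, L.σ_eq (by linarith [hn.1]) (by linarith [hn.2]),
        L.σ_eq (by rw [a2]; linarith [hn.1]) (by rw [a2]; linarith [hn.2]),
        L.σ_eq (by rw [a3]; linarith [hn.1]) (by rw [a3]; linarith [hn.2])⟩
  obtain ⟨n', s1, s2, s3⟩ := key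
  rw [L.E_eq hE (a := i + p * L.j) (b := i) (by rw [s1, s2]),
    L.E_eq hE (a := i - p * L.j) (b := i) (by rw [s1, s3])]
  ring

open Classical in
theorem core (hp : 2 ≤ p) {c : ℤ} {s : B} {E G : ℤ → ZMod p}
    (hE : ∀ i, E (i + 1) - E i = L.e c s i)
    (hG : ∀ i, G (i + 1) - G i = L.e c s i - L.e (c + p * L.W) s i) {t : ℤ}
    (hb : (2 * |t| + 2) * (p * L.W) + L.R < L.Q) (s' : B) :
    ∑ i ∈ Finset.range L.q, G i * (L.e (c + L.W + 2 * t * (p * L.W)) s' i -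
        L.e (c + L.W + 2 * t * (p * L.W) + p * L.W) s' i) =
      if t = 0 ∧ s' = s + L.τ then ∑ i ∈ Finset.range L.q, L.e c s i else 0 := by
  rw [L.reduce hE hG]
  by_cases ht : t = 0
  · subst ht
    simp only [mul_zero, zero_mul, add_zero, abs_zero, zero_add, true_and] at hb ⊢
    rw [Finset.sum_congr rfl (fun (i : ℕ) _ => L.term_diag hp hE hb s' i), ← Finset.mul_sum]
    have := sum_shift (L.e_q c s) (-L.j)
    simp only [← sub_eq_add_neg] at this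
    rw [this]
    split_ifs <;> simp
  · rw [if_neg (fun h => ht h.1)]
    exact Finset.sum_eq_zero (fun i _ => L.term_off hp hE ht hb s' i)

end Line

end Pool.Agent.MP_702fe9_al.H61.Sheets

end MrgPart0

-- ======== part 1: formerly Pool.Agent.MP_702fe9_al.h3.SheetsB
section MrgPart1

set_option autoImplicit false
set_option linter.unusedSectionVars false

namespace Pool.Agent.MP_702fe9_al.H61.Sheets

open Filter

variable {p : ℕ} [hp : Fact p.Prime]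

theorem finite_range_inv {α : Type} {M : Subgroup F} [M.FiniteIndex] (f : F → α)
    (h : ∀ y, ∀ n ∈ M, f (y * n) = f y) : (Set.range f).Finite := by
  refine (Set.finite_range (fun q : F ⧸ M => f q.out)).subset ?_
  rintro _ ⟨y, rfl⟩
  obtain ⟨n, hn⟩ := QuotientGroup.mk_out_eq_mul M y
  exact ⟨QuotientGroup.mk y, by simp only [hn, h y n n.2]⟩

def Ed (Ph : F → ℤ) (R : ℤ) (e : S × F) : Prop :=
  ∀ y, |Ph (e.2 * y) - Ph y| ≤ R ∧ |Ph (FreeGroup.of e.1 * (e.2 * y)) - Ph y| ≤ R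

def Loc (Ph : F → ℤ) (R : ℤ) (g : F) : Prop :=
  (∀ y, |Ph (g * y) - Ph y| ≤ R) ∧
    ∀ e ∈ (D g).support, Ed Ph R e ∧ ∀ e' ∈ (D e.2).support, Ed Ph R e'

section bounds
variable {M : Subgroup F} [M.FiniteIndex] {Ph : F → ℤ}

theorem ev_bd (h : AddOn M Ph) (g : F) : ∀ᶠ R in atTop, ∀ y, |Ph (g * y) - Ph y| ≤ R := by
  obtain ⟨B, hB⟩ := (finite_range_inv (M := M) (fun y => |Ph (g * y) - Ph y|) (fun y n hn => by
    simp only [← mul_assoc, h _ n hn, add_sub_add_right_eq_sub])).bddAbove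
  exact (eventually_ge_atTop B).mono (fun R hR y => (hB ⟨y, rfl⟩).trans hR)

theorem ev_Ed (h : AddOn M Ph) (e : S × F) : ∀ᶠ R in atTop, Ed Ph R e :=
  ((ev_bd h e.2).and (ev_bd h (FreeGroup.of e.1 * e.2))).mono
    (fun _ hR y => ⟨hR.1 y, by rw [← mul_assoc]; exact hR.2 y⟩)

theorem ev_Loc (h : AddOn M Ph) (g : F) : ∀ᶠ R in atTop, Loc Ph R g :=
  (ev_bd h g).and ((eventually_all_finset _).mpr
    (fun e _ => (ev_Ed h e).and ((eventually_all_finset _).mpr (fun e' _ => ev_Ed h e'))))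

end bounds

variable {ι : Type}

noncomputable def Th (θ : ι → S × F → ZMod p) (x : F) : ι → ZMod p := fun i => pot (θ i) x

variable (p) in
def sg (Ph : F → ℤ) (Q c : ℤ) (x : F) : ZMod p := (((Ph x - c) / Q : ℤ) : ZMod p)

open Classical in
noncomputable def al (Ph : F → ℤ) (Q : ℤ) (θ : ι → S × F → ZMod p) (c : ℤ) (s : ι → ZMod p) :
    S × F → ZMod p :=
  mulF (fun x => if Th θ x = s then 1 else 0) (d (sg p Ph Q c))

def Near (Ph : F → ℤ) (Q R c : ℤ) (y : F) : Prop := ∃ n : ℤ, |Ph y - c - n * Q| ≤ R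

section loc
variable {Ph : F → ℤ} {Q R c c' : ℤ} {θ : ι → S × F → ZMod p} {s s' : ι → ZMod p}

theorem cut_near (hQ : 0 < Q) {e : S × F} (he : Ed Ph R e) {y : F}
    (h : d (sg p Ph Q c) (e.1, e.2 * y) ≠ 0) : Near Ph Q R c y := by
  refine fl_near hQ (he y).2 (he y).1 (fun h' => h ?_)
  rw [d_apply]
  unfold sg
  rw [h', sub_self]

theorem al_near (hQ : 0 < Q) {e : S × F} (he : Ed Ph R e) {y : F}
    (h : al Ph Q θ c s (e.1, e.2 * y) ≠ 0) : Near Ph Q R c y :=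
  cut_near hQ he (right_ne_zero_of_mul h)

theorem I_al_near (hQ : 0 < Q) {g : F} (hg : ∀ e ∈ (D g).support, Ed Ph R e) {y : F}
    (h : I g (al Ph Q θ c s) y ≠ 0) : Near Ph Q R c y := by
  rw [I_apply] at h
  obtain ⟨e, he, h'⟩ := Finset.exists_ne_zero_of_sum_ne_zero h
  exact al_near hQ (hg e he) (right_ne_zero_of_mul h')

theorem T_al_zero (hQ : 0 < Q) {g : F} (hg : Loc Ph R g) (hfar : ∀ n : ℤ, 2 * R < |c - c' - n * Q|)
    (y : F) : T g (al Ph Q θ c s) (al Ph Q θ c' s') y = 0 := by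
  rw [T_apply]
  refine Finset.sum_eq_zero (fun e he => ?_)
  by_contra h
  have h1 := right_ne_zero_of_mul h
  obtain ⟨n, hn⟩ := I_al_near hQ (hg.2 e he).2 (left_ne_zero_of_mul h1)
  obtain ⟨n', hn'⟩ := al_near hQ (hg.2 e he).1 (right_ne_zero_of_mul h1)
  have h2 := hfar (n' - n)
  rw [abs_le] at hn hn'
  rw [lt_abs] at h2
  rcases h2 with h2 | h2 <;> linarith [hn.1, hn.2, hn'.1, hn'.2]

open Classical in
theorem I_al (hQ : 0 < Q) {g : F} (hg : Loc Ph R g) {y : F}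
    (hband : Near Ph Q R c y → ∀ x, |Ph x - Ph y| ≤ R → ∀ i a, θ i (a, x) = 0) :
    I g (al Ph Q θ c s) y =
      (if Th θ y = s then 1 else 0) * (sg p Ph Q c (g * y) - sg p Ph Q c y) := by
  rw [← I_d, I_apply, I_apply, Finset.mul_sum]
  refine Finset.sum_congr rfl (fun e he => ?_)
  unfold al
  rw [mulF_apply]
  by_cases h : d (sg p Ph Q c) (e.1, e.2 * y) = 0
  · rw [h]; simp
  have hn := cut_near hQ (hg.2 e he).1 h
  have h1 : Th θ (e.2 * y) = Th θ y := by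
    funext i
    have h2 := I_eq_pot e.2 (θ i) y
    have h3 : I e.2 (θ i) y = 0 := by
      rw [I_apply]
      refine Finset.sum_eq_zero (fun e' he' => ?_)
      rw [hband hn _ ((hg.2 e he).2 e' he' y).1, mul_zero]
    rw [h3] at h2
    exact sub_eq_zero.mp h2.symm
  simp only [h1]
  ring

end loc

/-- the data of the sheet construction -/
structure SD {X : Cx} {U : Subgroup F} (Ld : LoopData p X U) (N : Subgroup F) (ι : Type) where
  R : ℤ
  A : ℤ
  k1 : ℕ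
  k : ℕ
  c0 : ℤ
  θ : ι → S × F → ZMod p
  N2 : Subgroup F
  hv : Ld.v ≤ k1
  hk : k1 < k
  locw : Loc Ld.φ.A R Ld.w
  locρ : ∀ j < X.m, Loc Ld.φ.A R (X.ρ j)
  hA : ∀ x, Ld.u x ∣ A
  hAp : ¬ (p : ℤ) ∣ A
  hW : 2 * R < A * (p : ℤ) ^ k1
  hθ : ∀ i, θ i ∈ C1 (ZMod p) (Ld.V N k1)
  band : ∀ c, (p : ℤ) ^ k1 ∣ c - c0 → ∀ y, Near Ld.φ.A ((p : ℤ) ^ k) R c y →
    ∀ x, |Ld.φ.A x - Ld.φ.A y| ≤ R → ∀ i a, θ i (a, x) = 0
  rel : ∀ x, Ld.a x ^ (p ^ (k1 - Ld.v)) ∈ Ld.V N k1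
  hN2 : ∀ n, n ∈ N2 ↔ n ∈ Ld.V N k1 ∧ ∀ i, pot (θ i) n = 0

namespace SD
variable {X : Cx} {U : Subgroup F} {Ld : LoopData p X U} {N : Subgroup F} (H : SD Ld N ι)

def W : ℤ := H.A * (p : ℤ) ^ H.k1

def Q : ℤ := (p : ℤ) ^ H.k

noncomputable def vt (y : F) : ι → ZMod p := Th H.θ (Ld.a y ^ (p ^ (H.k1 - Ld.v)))

noncomputable def lam : ZMod p := (H.A : ZMod p) * (Ld.c : ZMod p)⁻¹

noncomputable abbrev al (c : ℤ) (s : ι → ZMod p) : S × F → ZMod p := Sheets.al Ld.φ.A H.Q H.θ c s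

theorem Q_pos : 0 < H.Q := pow_pos (by exact_mod_cast hp.out.pos) _

theorem Th_add : AddOn (Ld.V N H.k1) (Th H.θ) := fun x n hn => by
  funext i
  exact pot_addOn (H.hθ i) x n hn

theorem c_ne : (Ld.c : ZMod p) ≠ 0 := fun h =>
  Ld.unit ((ZMod.intCast_zmod_eq_zero_iff_dvd _ _).mp h)

theorem u_cast (y : F) : (Ld.u y : ZMod p) = (Ld.c : ZMod p) := by
  have := (ZMod.intCast_zmod_eq_zero_iff_dvd _ _).mpr (Ld.cong y)
  push_cast at this
  exact sub_eq_zero.mp this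

theorem lam_ne : H.lam ≠ 0 :=
  mul_ne_zero (fun h => H.hAp ((ZMod.intCast_zmod_eq_zero_iff_dvd _ _).mp h))
    (inv_ne_zero (c_ne (Ld := Ld)))

theorem l_cast (y : F) : ((H.A / Ld.u y : ℤ) : ZMod p) = H.lam := by
  have h1 : ((H.A / Ld.u y * Ld.u y : ℤ) : ZMod p) = H.A := by
    rw [Int.ediv_mul_cancel (H.hA y)]
  push_cast at h1
  rw [u_cast] at h1
  unfold lam
  rw [← h1, mul_assoc, mul_inv_cancel₀ (c_ne (Ld := Ld)), mul_one]

theorem Ph_zpow (y : F) (i : ℤ) :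
    Ld.φ.A (Ld.w ^ i * y) = Ld.φ.A y + i * ((p : ℤ) ^ Ld.v * Ld.u y) := by
  rw [Ld.zpow_mul_eq, Ld.φ.add _ _ (Ld.M.zpow_mem (Ld.a_mem y) i), Ld.A_a_zpow]

theorem Th_shift (y : F) (i l : ℤ) :
    Th H.θ (Ld.w ^ (i + (p ^ (H.k1 - Ld.v) : ℕ) * l) * y) = Th H.θ (Ld.w ^ i * y) + l • H.vt y := by
  rw [add_comm i, zpow_add, mul_assoc, Ld.zpow_mul_eq (Ld.w ^ i * y), Ld.a_zpow_mul, zpow_mul,
    zpow_natCast, H.Th_add _ _ (Subgroup.zpow_mem _ (H.rel y) l), H.Th_add.homOn.zpow (H.rel y)]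
  rfl

theorem q_eq : p ^ (H.k - Ld.v) = p ^ (H.k1 - Ld.v) * (p * p ^ (H.k - H.k1 - 1)) := by
  have h1 := H.hv
  have h2 := H.hk
  rw [← pow_succ', ← pow_add]
  congr 1
  omega

theorem p_smul (b : ι → ZMod p) : (p : ℤ) • b = 0 := by
  funext i
  simp

/-- the loop through a point seen on the line of positions -/
noncomputable def line (y : F) : Line p (ι → ZMod p) where
  p0 := Ld.φ.A y
  μ := (p : ℤ) ^ Ld.v * Ld.u y
  Q := H.Q
  W := H.W
  R := H.R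
  u := Ld.u y
  j := (p ^ (H.k1 - Ld.v) : ℕ) * (H.A / Ld.u y)
  q := p ^ (H.k - Ld.v)
  τ := H.lam • H.vt y
  Θ := fun i => Th H.θ (Ld.w ^ i * y)
  hQ := H.Q_pos
  hμ := by
    have h1 := H.locw.1 y
    have h2 := Ph_zpow (Ld := Ld) y 1
    rw [zpow_one, one_mul] at h2
    rwa [h2, add_sub_cancel_left] at h1
  hW := H.hW
  hj := by
    unfold W
    have h1 := Int.ediv_mul_cancel (H.hA y)
    have h2 : (p : ℤ) ^ H.k1 = (p : ℤ) ^ (H.k1 - Ld.v) * (p : ℤ) ^ Ld.v := by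
      rw [← pow_add, Nat.sub_add_cancel H.hv]
    push_cast
    rw [h2]
    linear_combination ((p : ℤ) ^ (H.k1 - Ld.v) * (p : ℤ) ^ Ld.v) * h1
  hq := by
    unfold Q
    have h2 : (p : ℤ) ^ H.k = (p : ℤ) ^ (H.k - Ld.v) * (p : ℤ) ^ Ld.v := by
      rw [← pow_add, Nat.sub_add_cancel (H.hv.trans H.hk.le)]
    push_cast
    rw [h2]
    ring
  hΘj := fun i => by
    rw [H.Th_shift, ← H.l_cast y, Int.cast_smul_eq_zsmul]
  hΘq := fun i => by
    have h1 := H.Th_shift y i (p * p ^ (H.k - H.k1 - 1) : ℕ)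
    rw [← Nat.cast_mul, ← H.q_eq] at h1
    rw [h1]
    push_cast
    rw [mul_smul, p_smul, add_zero]
  hτ := p_smul _

theorem I_w_al {c : ℤ} (hc : (p : ℤ) ^ H.k1 ∣ c - H.c0) (s : ι → ZMod p) (y : F) (i : ℤ) :
    I Ld.w (H.al c s) (Ld.w ^ i * y) = (H.line y).e c s i := by
  rw [I_al H.Q_pos H.locw (H.band c hc _), ← mul_assoc, ← zpow_one_add, add_comm 1 i]
  unfold sg
  rw [Ph_zpow, Ph_zpow]
  rfl

theorem I_ρ_al {c : ℤ} (hc : (p : ℤ) ^ H.k1 ∣ c - H.c0) (s : ι → ZMod p) (y : F) {j : ℕ}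
    (hj : j < X.m) : I (X.ρ j) (H.al c s) y = 0 := by
  rw [I_al H.Q_pos (H.locρ j hj) (H.band c hc _)]
  have h1 := X.conj_ρ_mem hj y
  have h2 : X.ρ j * y = y * (y⁻¹ * X.ρ j * y) := by group
  unfold sg
  rw [h2, Ld.φ.add _ _ (Ld.lev.le h1), Ld.φ.kill _ h1, add_zero, sub_self, mul_zero]

theorem I_rel_al {c : ℤ} (hc : (p : ℤ) ^ H.k1 ∣ c - H.c0) (s : ι → ZMod p) (y : F) :
    I (Ld.rel H.k) (H.al c s) y = ∑ i ∈ Finset.range (H.line y).q, (H.line y).e c s i := by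
  rw [I_pow]
  refine Finset.sum_congr rfl (fun i _ => ?_)
  rw [← H.I_w_al hc, zpow_natCast]

theorem Rt_al (c : ℤ) (s : ι → ZMod p) {g : F} (hg : g ∈ Ld.V N H.k) :
    Rt g (H.al c s) = H.al c (s - Th H.θ g) := by
  have hg1 : g ∈ Ld.V N H.k1 := ⟨hg.1, Ld.φ.tw_anti H.hk.le hg.2⟩
  obtain ⟨n, hn⟩ := hg.2.2
  have h1 : ∀ x, sg p Ld.φ.A H.Q c (x * g) = sg p Ld.φ.A H.Q c x + n := by
    intro x
    unfold sg
    rw [Ld.φ.add _ _ hg.2.1, hn, show Ld.φ.A x + (p : ℤ) ^ H.k * n - c =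
      Ld.φ.A x - c + n * H.Q by unfold Q; ring, Int.add_mul_ediv_right _ _ H.Q_pos.ne']
    push_cast
    rfl
  funext e
  unfold al Sheets.al
  rw [Rt_apply, mulF_apply, mulF_apply, d_apply, d_apply, ← mul_assoc, h1, h1, H.Th_add _ _ hg1]
  rw [add_sub_add_right_eq_sub]
  congr 1
  by_cases h : Th H.θ e.2 + Th H.θ g = s
  · rw [if_pos h, if_pos (eq_sub_iff_add_eq.mpr h)]
  · rw [if_neg h, if_neg (fun h' => h (eq_sub_iff_add_eq.mp h'))]

theorem V2_le : Ld.V H.N2 H.k ≤ Ld.V N H.k := fun _ hg => ⟨((H.hN2 _).mp hg.1).1.1, hg.2⟩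

theorem Th_V2 {g : F} (hg : g ∈ Ld.V H.N2 H.k) : Th H.θ g = 0 :=
  funext ((H.hN2 _).mp hg.1).2

theorem al_mem (c : ℤ) (s : ι → ZMod p) : H.al c s ∈ C1 (ZMod p) (Ld.V H.N2 H.k) :=
  mem_C1.mpr (fun g hg => by rw [H.Rt_al c s (H.V2_le hg), H.Th_V2 hg, sub_zero])

/-- difference of two parallel sheets -/
noncomputable def aa (c : ℤ) (s : ι → ZMod p) : S × F → ZMod p := H.al c s - H.al (c + p * H.W) s

theorem dvd_W {c : ℤ} (hc : (p : ℤ) ^ H.k1 ∣ c - H.c0) (t : ℤ) :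
    (p : ℤ) ^ H.k1 ∣ c + t * H.W - H.c0 := by
  rw [add_sub_right_comm]
  exact dvd_add hc (Dvd.dvd.mul_left (Dvd.intro_left _ rfl) t)

theorem I_rel_aa {c : ℤ} (hc : (p : ℤ) ^ H.k1 ∣ c - H.c0) (s : ι → ZMod p) (y : F) :
    I (Ld.rel H.k) (H.aa c s) y = 0 := by
  unfold aa
  rw [map_sub, Pi.sub_apply, H.I_rel_al hc, H.I_rel_al (H.dvd_W hc p), sub_eq_zero]
  exact ((H.line y).sum_e_De c s).symm

theorem aa_mem (Y : Set F) {c : ℤ} (hc : (p : ℤ) ^ H.k1 ∣ c - H.c0) (s : ι → ZMod p) :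
    H.aa c s ∈ (X.ext (Ld.rel H.k) Y).Z1 (ZMod p) (Ld.V H.N2 H.k) := by
  refine ⟨Submodule.sub_mem _ (H.al_mem _ _) (H.al_mem _ _), ?_⟩
  change (X.ext (Ld.rel H.k) Y).δ _ = 0
  funext ⟨j, y⟩
  by_cases h : y ∈ (X.ext (Ld.rel H.k) Y).Y j
  · rw [Cx.δ_pos _ _ h]
    by_cases hj : j = X.m
    · subst hj
      rw [Cx.ext_ρ_self]
      exact H.I_rel_aa hc s y
    · rw [Cx.ext_Y_ne _ _ _ hj] at h
      rw [Cx.ext_ρ_ne _ _ _ hj]
      unfold aa
      rw [map_sub, Pi.sub_apply, H.I_ρ_al hc s y (X.lt_of_mem h),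
        H.I_ρ_al (H.dvd_W hc p) s y (X.lt_of_mem h)]
      simp
  · exact Cx.δ_neg _ _ h

theorem R_nonneg : 0 ≤ H.R := (H.line 1).R_nonneg

theorem far {t : ℤ} (hb : (2 * |t| + 2) * (p * H.W) + H.R < H.Q) {a : ℤ} (ha : |a| ≤ 2 * |t| + 1)
    (n : ℤ) : 2 * H.R < |-(H.W + a * (p * H.W)) - n * H.Q| := by
  have hR := H.R_nonneg
  have hW : 2 * H.R < H.W := H.hW
  have hQ := H.Q_pos
  have hD : 2 * H.W ≤ p * H.W :=
    mul_le_mul_of_nonneg_right (by exact_mod_cast hp.out.two_le) (by omega)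
  rw [abs_le] at ha
  have h1 : a * (p * H.W) ≤ (2 * |t| + 1) * (p * H.W) := mul_le_mul_of_nonneg_right ha.2 (by omega)
  have h2 : -(2 * |t| + 1) * (p * H.W) ≤ a * (p * H.W) :=
    mul_le_mul_of_nonneg_right ha.1 (by omega)
  rw [lt_abs]
  rcases lt_trichotomy n 0 with hn | hn | hn
  · have h3 : n * H.Q ≤ -1 * H.Q := mul_le_mul_of_nonneg_right (by omega) hQ.le
    left; linarith
  · subst hn
    rcases lt_or_ge a 0 with h | h
    · have h3 : a * (p * H.W) ≤ -1 * (p * H.W) := mul_le_mul_of_nonneg_right (by omega) (by omega)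
      left; linarith
    · have h3 : 0 ≤ a * (p * H.W) := mul_nonneg h (by omega)
      right; linarith
  · have h3 : 1 * H.Q ≤ n * H.Q := mul_le_mul_of_nonneg_right (by omega) hQ.le
    right; linarith

theorem T_aa_zero {g : F} (hg : Loc Ld.φ.A H.R g) {t : ℤ}
    (hb : (2 * |t| + 2) * (p * H.W) + H.R < H.Q) (c : ℤ) (s s' : ι → ZMod p) (y : F) :
    T g (H.aa c s) (H.aa (c + H.W + 2 * t * (p * H.W)) s') y = 0 := by
  have key : ∀ a : ℤ, |a| ≤ 2 * |t| + 1 → ∀ c c' : ℤ, c' = c + (H.W + a * (p * H.W)) →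
      T g (H.al c s) (H.al c' s') y = 0 := by
    intro a ha c c' hc
    refine T_al_zero H.Q_pos hg (fun n => ?_) y
    rw [hc, show c - (c + (H.W + a * (p * H.W))) = -(H.W + a * (p * H.W)) by ring]
    exact H.far hb ha n
  have b1 := le_abs_self t
  have b2 := neg_abs_le t
  unfold aa
  simp only [map_sub, LinearMap.sub_apply, Pi.sub_apply]
  rw [key (2 * t) (by rw [abs_le]; omega) c _ (by ring),
    key (2 * t + 1) (by rw [abs_le]; omega) c _ (by ring),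
    key (2 * t - 1) (by rw [abs_le]; omega) (c + p * H.W) _ (by ring),
    key (2 * t) (by rw [abs_le]; omega) (c + p * H.W) _ (by ring)]
  simp

open Classical in
theorem T_rel_aa {c : ℤ} (hc : (p : ℤ) ^ H.k1 ∣ c - H.c0) {t : ℤ}
    (hb : (2 * |t| + 2) * (p * H.W) + H.R < H.Q) (s s' : ι → ZMod p) (y : F) :
    T (Ld.rel H.k) (H.aa c s) (H.aa (c + H.W + 2 * t * (p * H.W)) s') y =
      if t = 0 ∧ s' = s + H.lam • H.vt y then I (Ld.rel H.k) (H.al c s) y else 0 := by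
  have hc' : (p : ℤ) ^ H.k1 ∣ c + H.W + 2 * t * (p * H.W) - H.c0 := by
    have := H.dvd_W hc (1 + 2 * t * p)
    rwa [show c + (1 + 2 * t * p) * H.W = c + H.W + 2 * t * (p * H.W) by ring] at this
  have hI : ∀ (c : ℤ) (s : ι → ZMod p), (p : ℤ) ^ H.k1 ∣ c - H.c0 → ∀ i : ℤ,
      I Ld.w (H.aa c s) (Ld.w ^ i * y) =
        (H.line y).e c s i - (H.line y).e (c + p * (H.line y).W) s i := by
    intro c s hc i
    unfold aa
    rw [map_sub, Pi.sub_apply, H.I_w_al hc, H.I_w_al (H.dvd_W hc p)]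
    rfl
  have hs : ∀ (χ : S × F → ZMod p) (i : ℤ),
      I (Ld.w ^ (i + 1)) χ y - I (Ld.w ^ i) χ y = I Ld.w χ (Ld.w ^ i * y) := by
    intro χ i
    rw [add_comm, zpow_one_add, I_mul, add_sub_cancel_left]
  have := (H.line y).core hp.out.two_le (c := c) (s := s)
    (E := fun i => I (Ld.w ^ i) (H.al c s) y) (G := fun i => I (Ld.w ^ i) (H.aa c s) y)
    (fun i => by rw [hs, H.I_w_al hc]) (fun i => by rw [hs, hI c s hc]) (t := t) hb s'
  rw [H.I_rel_al hc, T_pow]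
  refine Eq.trans (Finset.sum_congr rfl (fun i _ => ?_)) (this.trans ?_)
  · rw [H.T_aa_zero H.locw hb, zero_add, ← zpow_natCast, hI _ s' hc']
    rfl
  · congr

end SD

end Pool.Agent.MP_702fe9_al.H61.Sheets

end MrgPart1

-- ======== part 2: formerly Pool.Agent.MP_702fe9_al.h80.CH
section MrgPart2

set_option autoImplicit false
set_option linter.unusedSectionVars false

namespace Pool.Agent.MP_702fe9_al.H61

variable {p : ℕ} [hp : Fact p.Prime]

theorem exists_pos_grp {G : Type} [Group G] (u g : G) (hg : g ^ p = 1)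
    (hfree : ∀ x : G, x * g * x⁻¹ ∉ Subgroup.zpowers u) :
    ∃ pos : G → ZMod p, (∀ x, pos (u * x) = pos x) ∧ ∀ x, pos (x * g) = pos x + 1 := by
  let s : Setoid G := ⟨fun x y => ∃ k l : ℤ, y = u ^ k * x * g ^ l,
    ⟨fun x => ⟨0, 0, by simp⟩, fun {x y} ⟨k, l, h⟩ => ⟨-k, -l, by rw [h]; group⟩,
     fun {x y z} ⟨k, l, h⟩ ⟨k', l', h'⟩ => ⟨k' + k, l + l', by rw [h', h]; group⟩⟩⟩
  let r : G → G := fun x => (Quotient.mk s x).out
  have hr : ∀ x, ∃ k l : ℤ, x = u ^ k * r x * g ^ l := fun x => Quotient.mk_out (s := s) x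
  have hr2 : ∀ x y, (∃ k l : ℤ, y = u ^ k * x * g ^ l) → r y = r x := by
    intro x y h
    have : Quotient.mk s x = Quotient.mk s y := Quotient.sound h
    simp only [r, this]
  choose k l hkl using hr
  have uniq : ∀ x (k' l' : ℤ), x = u ^ k' * r x * g ^ l' → (l x : ZMod p) = l' := by
    intro x k' l' h
    rw [ZMod.intCast_eq_intCast_iff_dvd_sub]
    by_contra hc
    apply hfree (r x)
    refine zpow_mem_of_coprime (p := p) (a := 1) hc ?_ ?_
    · have e1 : u ^ k' * r x * g ^ l' = u ^ k x * r x * g ^ l x := h.symm.trans (hkl x)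
      have e2 : (r x * g * (r x)⁻¹) ^ (l' - l x) = u ^ (k x - k') := by
        rw [conj_zpow]
        have e3 : r x * g ^ (l' - l x) * (r x)⁻¹ =
            u ^ (-k') * (u ^ k' * r x * g ^ l') * g ^ (-l x) * (r x)⁻¹ := by group
        rw [e3, e1]
        group
      rw [e2]
      exact Subgroup.zpow_mem_zpowers u _
    · rw [pow_one, conj_pow, hg]
      simp
  refine ⟨fun x => (l x : ZMod p), fun x => ?_, fun x => ?_⟩
  · apply uniq (u * x) (1 + k x)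
    rw [hr2 x (u * x) ⟨1, 0, by simp⟩]
    conv_lhs => rw [hkl x]
    group
  · have := uniq (x * g) (k x) (l x + 1) (by
      rw [hr2 x (x * g) ⟨0, 1, by simp⟩]
      conv_lhs => rw [hkl x]
      group)
    simpa using this

theorem exists_pos {A : Subgroup F} [A.Normal] (u g : F) (hg : g ^ p ∈ A)
    (hfree : ∀ (x : F) (i : ℤ), (u ^ i)⁻¹ * (x * g * x⁻¹) ∉ A) :
    ∃ pos : F → ZMod p, (∀ x, pos (u * x) = pos x) ∧ (∀ x, ∀ n ∈ A, pos (x * n) = pos x) ∧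
      ∀ x, pos (x * g) = pos x + 1 := by
  obtain ⟨pos, h1, h2⟩ := exists_pos_grp (p := p) (QuotientGroup.mk u : F ⧸ A)
    (QuotientGroup.mk g) (by
      rw [← QuotientGroup.mk_pow]
      exact (QuotientGroup.eq_one_iff _).mpr hg) (by
      intro x
      obtain ⟨x, rfl⟩ := QuotientGroup.mk_surjective x
      rintro ⟨i, hi⟩
      apply hfree x i
      rw [← QuotientGroup.eq]
      simpa using hi)
  refine ⟨fun x => pos (QuotientGroup.mk x), fun x => ?_, fun x n hn => ?_, fun x => ?_⟩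
  · simp only [QuotientGroup.mk_mul, h1]
  · simp only [QuotientGroup.mk_mul_of_mem x hn]
  · simp only [QuotientGroup.mk_mul, h2]

/-- a homomorphism that is invariant under `g` and does not vanish at `g ^ p` -/
theorem exists_transgression {A : Subgroup F} [hA : A.Normal] {g : F} (hg : g ^ p ∈ A)
    (hgA : g ∉ A) : ∃ α : F → ZMod p, HomOn A α ∧ (∀ n ∈ A, α (g⁻¹ * n * g) = α n) ∧
      α (g ^ p) ≠ 0 := by
  obtain ⟨pos, -, h2, h3⟩ := exists_pos (p := p) 1 g hg (by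
    intro x i h
    apply hgA
    have := hA.conj_mem' _ h x
    simpa [mul_assoc] using this)
  let c : S × F → ℤ := fun e => ((d pos e).val : ℤ)
  let H : Subgroup F :=
    { carrier := {h | Rt h c = c}
      mul_mem' := fun {a b} ha hb => by
        change Rt (a * b) c = c
        rw [← Rt_Rt, show Rt b c = c from hb, show Rt a c = c from ha]
      one_mem' := Rt_one c
      inv_mem' := fun {a} ha => by
        change Rt a⁻¹ c = c
        conv_lhs => rw [← show Rt a c = c from ha]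
        rw [Rt_Rt, inv_mul_cancel, Rt_one] }
  have hAH : A ≤ H := by
    intro n hn
    change Rt n c = c
    funext e
    simp only [Rt_apply, c, d_apply, ← mul_assoc, h2 _ n hn]
  have hgH : g ∈ H := by
    change Rt g c = c
    funext e
    simp only [Rt_apply, c, d_apply, ← mul_assoc, h3, add_sub_add_right_eq_sub]
  have hθ : HomOn H (pot c) := (pot_addOn (mem_C1.mpr (fun h hh => hh))).homOn
  have hcast : ∀ x, ((pot c x : ℤ) : ZMod p) = pos x - pos 1 := by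
    intro x
    have e1 := I_cast (Int.castRingHom (ZMod p)) x c 1
    have e2 : (fun e => (Int.castRingHom (ZMod p)) (c e)) = d pos := by
      funext e
      simp [c]
    rw [e2, I_d, mul_one] at e1
    exact e1.symm
  have hdvd : ∀ n ∈ A, (p : ℤ) ∣ pot c n := by
    intro n hn
    rw [← ZMod.intCast_zmod_eq_zero_iff_dvd, hcast]
    have := h2 1 n hn
    rw [one_mul] at this
    rw [this, sub_self]
  have hp0 : (p : ℤ) ≠ 0 := by exact_mod_cast hp.out.ne_zero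
  refine ⟨fun n => ((pot c n / p : ℤ) : ZMod p), fun a ha b hb => ?_, fun n hn => ?_, ?_⟩
  · simp only
    rw [hθ a (hAH ha) b (hAH hb), Int.add_ediv_of_dvd_left (hdvd a ha), Int.cast_add]
  · simp only
    rw [hθ.conj (hAH hn) hgH]
  · simp only
    rw [hθ.pow hgH, nsmul_eq_mul, Int.mul_ediv_cancel_left _ hp0, hcast]
    have := h3 1
    rw [one_mul] at this
    rw [this]
    simp

variable (p) in
/-- iterated relative Frattini subgroups -/
def PhI (K N : Subgroup F) : ℕ → Subgroup F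
  | 0 => N
  | i + 1 => Phi p K (PhI K N i)

theorem PhI_normal (K N : Subgroup F) [K.Normal] [hN : N.Normal] (i : ℕ) :
    (PhI p K N i).Normal := by
  induction i with
  | zero => exact hN
  | succ i ih => exact Phi_normal K _

theorem PhI_lev {K N : Subgroup F} (h : Lev p K N) (i : ℕ) : Lev p K (PhI p K N i) := by
  induction i with
  | zero => exact h
  | succ i ih => exact ih.phi

theorem PhI_anti (K N : Subgroup F) {i j : ℕ} (h : i ≤ j) : PhI p K N j ≤ PhI p K N i :=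
  antitone_nat_of_succ_le (f := PhI p K N) (fun _ => Phi_le _ _) h

theorem PhI_le (K N : Subgroup F) (i : ℕ) : PhI p K N i ≤ N := PhI_anti K N (Nat.zero_le i)

theorem PhI_add (K N : Subgroup F) (i j : ℕ) :
    PhI p K (PhI p K N i) j = PhI p K N (i + j) := by
  induction j with
  | zero => rfl
  | succ j ih =>
    change Phi p K _ = Phi p K (PhI p K N (i + j))
    rw [ih]

theorem HomOn.conjF {A : Subgroup F} [hA : A.Normal] {α : F → ZMod p} (h : HomOn A α) (g : F) :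
    HomOn A (fun n => α (g⁻¹ * n * g)) := by
  intro a ha b hb
  have : g⁻¹ * (a * b) * g = (g⁻¹ * a * g) * (g⁻¹ * b * g) := by group
  simp only
  rw [this, h _ (hA.conj_mem' a ha g) _ (hA.conj_mem' b hb g)]

theorem left_zpow {f : F → ZMod p} {u : F} (h : ∀ x, f (u * x) = f x) (i : ℤ) (x : F) :
    f (u ^ i * x) = f x := by
  induction i using Int.induction_on generalizing x with
  | zero => simp
  | succ n ih => rw [zpow_add_one, mul_assoc, ih, h]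
  | pred n ih =>
    rw [zpow_sub_one, mul_assoc, ih, ← h (u⁻¹ * x), mul_inv_cancel_left]

/-- the roots of the relators at a deep level -/
structure Dat (X : Cx) (p : ℕ) (Om : Subgroup F) where
  u : ℕ → F
  s : ℕ → ℤ
  norm : Om.Normal
  le : X.KK ≤ Om
  hs : ∀ j < X.m, (X.ρ j)⁻¹ * u j ^ s j ∈ Phi p (X.K j) Om
  cov : ∀ j < X.m, ∀ x : F, ∃ i : ℤ, ∃ y ∈ X.Y j, (u j ^ i * y)⁻¹ * x ∈ Om

namespace Dat

variable {X : Cx} {Om : Subgroup F} (Q : Dat X p Om)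

def c (j : ℕ) (x : F) : F := x⁻¹ * Q.u j ^ Q.s j * x

theorem c_left (j : ℕ) (x : F) : Q.c j (Q.u j * x) = Q.c j x := by
  unfold c; group

theorem c_left_zpow (j : ℕ) (i : ℤ) (x : F) : Q.c j (Q.u j ^ i * x) = Q.c j x := by
  unfold c; group

theorem c_right (j : ℕ) (x n : F) : Q.c j (x * n) = n⁻¹ * Q.c j x * n := by
  unfold c; group

theorem c_mem {j : ℕ} (hj : j < X.m) (x : F) : Q.c j x ∈ Om := by
  refine Q.norm.conj_mem' _ ?_ x
  have := Om.mul_mem (Q.le (X.ρ_mem hj)) (Q.hs j hj).1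
  rwa [mul_inv_cancel_left] at this

theorem e0 {A : Subgroup F} (hA : Om ≤ A) {α : F → ZMod p} (hα : HomOn A α) {j : ℕ}
    (hj : j < X.m) (hk : ∀ κ ∈ X.K j, α κ = 0) (x : F) :
    α (Q.c j x) = α (x⁻¹ * X.ρ j * x) := by
  have := Q.norm
  refine hα.eq_of (hA (Q.le (X.conj_ρ_mem hj x))) (hA (Q.c_mem hj x)) ?_
  have e : (x⁻¹ * X.ρ j * x)⁻¹ * Q.c j x = x⁻¹ * ((X.ρ j)⁻¹ * Q.u j ^ Q.s j) * x := by
    unfold c; group
  rw [e]
  exact (Phi_mono _ hA ((Phi_normal _ _).conj_mem' _ (Q.hs j hj) x)).2 α hα hk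

theorem kill {A : Subgroup F} (hA : Om ≤ A) {α : F → ZMod p} (hα : HomOn A α)
    (h : ∀ j < X.m, ∀ x, α (Q.c j x) = 0) : ∀ n ∈ Phi p X.KK A, α n = 0 := by
  have key : ∀ j ≤ X.m, ∀ κ ∈ X.K j, α κ = 0 := by
    intro j
    induction j with
    | zero =>
      intro hj
      exact Cx.kill_closure ((X.K_mono hj).trans (Q.le.trans hA)) hα
        (fun i hi => absurd hi (Nat.not_lt_zero i))
    | succ j ih =>
      intro hj
      have hk := ih (by omega)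
      refine Cx.kill_closure ((X.K_mono hj).trans (Q.le.trans hA)) hα (fun i hi x => ?_)
      rcases Nat.lt_succ_iff_lt_or_eq.mp hi with hi' | rfl
      · exact hk _ (X.conj_ρ_mem hi' x)
      · rw [← Q.e0 hA hα hj hk, h i hj]
  exact fun n hn => hn.2 α hα (key X.m le_rfl)

theorem ps {U : Subgroup F} (ok : X.Ok p U) (ps : X.ModelPS p U) {A : Subgroup F} [A.Normal]
    (hA : Lev p X.KK A) (hAU : A ≤ U) (hOm : Om ≤ PhI p X.KK A X.m) (f : ℕ → F → ZMod p)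
    (h1 : ∀ j < X.m, ∀ x, f j (Q.u j * x) = f j x)
    (h2 : ∀ j < X.m, ∀ x, ∀ n ∈ A, f j (x * n) = f j x) :
    ∃ α : F → ZMod p, HomOn (PhI p X.KK A X.m) α ∧ ∀ j < X.m, ∀ x, α (Q.c j x) = f j x := by
  classical
  have key : ∀ J ≤ X.m, ∃ α : F → ZMod p, HomOn (PhI p X.KK A J) α ∧
      ∀ j < J, ∀ x, α (Q.c j x) = f j x := by
    intro J
    induction J with
    | zero => exact fun _ => ⟨0, fun _ _ _ _ => by simp, fun j hj => absurd hj (Nat.not_lt_zero j)⟩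
    | succ J ih =>
      intro hJ
      have hJ' : J < X.m := hJ
      obtain ⟨α, hα, hαf⟩ := ih hJ'.le
      have hO1 : Om ≤ PhI p X.KK A (J + 1) := hOm.trans (PhI_anti _ _ hJ)
      have hO0 : Om ≤ PhI p X.KK A J := hOm.trans (PhI_anti _ _ hJ'.le)
      let e : F → ZMod p := fun x => f J x - α (Q.c J x)
      have he1 : ∀ x, e (Q.u J * x) = e x := fun x => by
        simp only [e, h1 J hJ', Q.c_left]
      have he2 : ∀ x, ∀ n ∈ PhI p X.KK A J, e (x * n) = e x := fun x n hn => by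
        simp only [e]
        rw [h2 J hJ' x n (PhI_le _ _ _ hn), Q.c_right, hα.conj (hO0 (Q.c_mem hJ' x)) hn]
      obtain ⟨β, hβ, hβf⟩ := ps (PhI p X.KK A J) (PhI_normal _ _ _) (PhI_lev hA J)
        ((PhI_le _ _ _).trans hAU)
        (fun q => if q.1 = J ∧ q.2 ∈ X.Y q.1 then e q.2 else 0)
        ⟨fun q hq => if_neg (fun h => hq h.2), fun n hn => by
          funext q
          rw [Rt_apply]
          simp only [ok.inv.iff _ _ (hAU (PhI_le _ _ _ hn)), he2 _ n hn]⟩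
      have hβ' : HomOn (PhI p X.KK A (J + 1)) β := hβ
      have hk : ∀ κ ∈ X.K J, β κ = 0 := by
        refine Cx.gen_aux ok.rel J hJ'.le _ ((PhI_lev hA (J + 1)).monoK (X.K_mono hJ'.le)) β hβ'
          (fun i hi y hy => ?_)
        rw [hβf i y hy]
        exact if_neg (fun h => absurd h.1 hi.ne)
      refine ⟨fun n => α n + β n, fun a ha b hb => ?_, fun j hj x => ?_⟩
      · simp only
        rw [hα a (Phi_le _ _ ha) b (Phi_le _ _ hb), hβ' a ha b hb]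
        ring
      · simp only
        rcases Nat.lt_succ_iff_lt_or_eq.mp hj with hj' | rfl
        · rw [hαf j hj', Q.e0 hO1 hβ' (hj'.trans hJ')
            (fun κ hκ => hk κ (X.K_mono hj'.le hκ)), hk _ (X.conj_ρ_mem hj' x), add_zero]
        · obtain ⟨i, y, hy, hxy⟩ := Q.cov j hJ' x
          have ex : x = (Q.u j ^ i * y) * ((Q.u j ^ i * y)⁻¹ * x) := by group
          have e1 : β (Q.c j x) = e y := by
            rw [ex, Q.c_right, hβ'.conj (hO1 (Q.c_mem hJ' _)) (hO1 hxy), Q.c_left_zpow,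
              Q.e0 hO1 hβ' hJ' hk, hβf j y hy]
            exact if_pos ⟨rfl, hy⟩
          have e2 : e x = e y := by
            rw [ex, he2 _ _ (hO0 hxy), left_zpow he1]
          rw [e1, ← e2]
          simp only [e]
          ring
  exact key X.m le_rfl

theorem exist {U : Subgroup F} (ok : X.Ok p U) (ps : X.ModelPS p U) {A : Subgroup F}
    [hN : A.Normal] (hA : Lev p X.KK A) (hAU : A ≤ U) (hOm : Om ≤ PhI p X.KK A (X.m + 1)) {g : F}
    (hgA : g ∉ A) (hg : g ^ p ∈ Om) :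
    ∃ j < X.m, ∃ (x : F) (i : ℤ), (Q.u j ^ i)⁻¹ * (x * g * x⁻¹) ∈ A := by
  classical
  by_contra hc
  have hfree : ∀ j < X.m, ∀ (x : F) (i : ℤ), (Q.u j ^ i)⁻¹ * (x * g * x⁻¹) ∉ A :=
    fun j hj x i h => hc ⟨j, hj, x, i, h⟩
  have hO0 : Om ≤ PhI p X.KK A X.m := hOm.trans (PhI_anti _ _ (Nat.le_succ _))
  have hOA : Om ≤ A := hOm.trans (PhI_le _ _ _)
  obtain ⟨α, hα, hαg, hα0⟩ := exists_transgression (p := p) (hOA hg) hgA
  have hpos : ∀ j, ∃ pos : F → ZMod p, j < X.m → (∀ x, pos (Q.u j * x) = pos x) ∧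
      (∀ x, ∀ n ∈ A, pos (x * n) = pos x) ∧ ∀ x, pos (x * g) = pos x + 1 := by
    intro j
    by_cases hj : j < X.m
    · obtain ⟨pos, h⟩ := exists_pos (p := p) (Q.u j) g (hOA hg) (hfree j hj)
      exact ⟨pos, fun _ => h⟩
    · exact ⟨0, fun h => absurd h hj⟩
  choose pos hpos using hpos
  obtain ⟨α0, hα0h, hα0f⟩ := Q.ps ok ps hA hAU hO0
    (fun j x => if pos j x = 0 then α (Q.c j x) else 0)
    (fun j hj x => by simp only [(hpos j hj).1, Q.c_left])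
    (fun j hj x n hn => by
      simp only [(hpos j hj).2.1 x n hn]
      rw [Q.c_right, hα.conj (hOA (Q.c_mem hj x)) hn])
  have hnorm := PhI_normal (p := p) X.KK A X.m
  have hαgi : ∀ i : ℕ, ∀ n ∈ A, α ((g ^ i)⁻¹ * n * g ^ i) = α n := by
    intro i
    induction i with
    | zero => simp
    | succ i ih =>
      intro n hn
      have : (g ^ (i + 1))⁻¹ * n * g ^ (i + 1) = g⁻¹ * ((g ^ i)⁻¹ * n * g ^ i) * g := by group
      rw [this, hαg _ (hN.conj_mem' n hn _), ih n hn]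
  have hγ : HomOn (PhI p X.KK A X.m)
      (fun n => α n - ∑ i ∈ Finset.range p, α0 ((g ^ i)⁻¹ * n * g ^ i)) := by
    intro a ha b hb
    simp only
    rw [hα a (PhI_le _ _ _ ha) b (PhI_le _ _ _ hb),
      Finset.sum_congr rfl (fun i _ => hα0h.conjF (g ^ i) a ha b hb), Finset.sum_add_distrib]
    ring
  have hkill := Q.kill hO0 hγ (fun j hj x => by
    have hpi : ∀ i : ℕ, pos j (x * g ^ i) = pos j x + i := by
      intro i
      induction i with
      | zero => simp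
      | succ i ih => rw [pow_succ, ← mul_assoc, (hpos j hj).2.2, ih]; push_cast; ring
    have hterm : ∀ i ∈ Finset.range p, α0 ((g ^ i)⁻¹ * Q.c j x * g ^ i) =
        if i = (-pos j x).val then α (Q.c j x) else 0 := by
      intro i hi
      rw [← Q.c_right, hα0f j hj, hpi, Q.c_right, hαgi i _ (hOA (Q.c_mem hj x))]
      refine if_congr ?_ rfl rfl
      constructor
      · intro h
        have : -pos j x = (i : ZMod p) := by linear_combination -h
        rw [this, ZMod.val_cast_of_lt (Finset.mem_range.mp hi)]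
      · intro h
        rw [h]
        simp
    rw [Finset.sum_congr rfl hterm, Finset.sum_ite_eq' ,
      if_pos (Finset.mem_range.mpr (ZMod.val_lt _)), sub_self]) (g ^ p) (hOm hg)
  apply hα0
  have e : ∀ i ∈ Finset.range p, α0 ((g ^ i)⁻¹ * g ^ p * g ^ i) = α0 (g ^ p) := by
    intro i _
    congr 1
    group
  rw [Finset.sum_congr rfl e, Finset.sum_const, Finset.card_range, nsmul_eq_mul,
    ZMod.natCast_self, zero_mul, sub_zero] at hkill
  exact hkill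

theorem uniq {U : Subgroup F} (ok : X.Ok p U) (ps : X.ModelPS p U) {N : Subgroup F}
    [hN : N.Normal] (hA : Lev p X.KK N) (hAU : N ≤ U) (hOm : Om ≤ PhI p X.KK N (X.m + 1))
    {g h : F} (hgN : g ∉ N) (hg : g ^ p ∈ Om) (hgh : g⁻¹ * (h⁻¹ * g * h) ∈ Om) {j : ℕ}
    (hj : j < X.m) {x : F} {i : ℤ}
    (hx : (Q.u j ^ i)⁻¹ * (x * g * x⁻¹) ∈ PhI p X.KK N (X.m + 1)) :
    ∃ k : ℤ, h⁻¹ * (x⁻¹ * Q.u j * x) ^ k ∈ N := by
  classical
  have hn1 := PhI_normal (p := p) X.KK N X.m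
  have hn2 := PhI_normal (p := p) X.KK N (X.m + 1)
  have h21 : PhI p X.KK N (X.m + 1) ≤ PhI p X.KK N X.m := PhI_anti _ _ (Nat.le_succ _)
  have h1N : PhI p X.KK N X.m ≤ N := PhI_le _ _ _
  have hO0 : Om ≤ PhI p X.KK N X.m := hOm.trans h21
  set A1 := PhI p X.KK N X.m with hA1
  set A2 := PhI p X.KK N (X.m + 1) with hA2
  let o : ℕ := orderOf (QuotientGroup.mk (Q.u j) : F ⧸ A1)
  have ho : ∀ k : ℤ, (o : ℤ) ∣ k ↔ Q.u j ^ k ∈ A1 := by
    intro k
    rw [orderOf_dvd_iff_zpow_eq_one, ← QuotientGroup.mk_zpow, QuotientGroup.eq_one_iff]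
  have huo : Q.u j ^ (o : ℤ) ∈ A1 := (ho o).mp dvd_rfl
  obtain ⟨σ, hσ⟩ : (o : ℤ) ∣ Q.s j := by
    rw [ho]
    have := hO0 (Q.c_mem hj 1)
    simpa [c] using this
  obtain ⟨τ, hτ⟩ : (o : ℤ) ∣ i * p := by
    rw [ho, ← QuotientGroup.eq_one_iff]
    have h1 := QuotientGroup.eq.mpr (h21 hx)
    have h2 := (QuotientGroup.eq_one_iff _).mpr (hO0 hg)
    simp only [QuotientGroup.mk_mul, QuotientGroup.mk_inv, QuotientGroup.mk_zpow,
      QuotientGroup.mk_pow] at h1 h2 ⊢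
    rw [zpow_mul, h1, zpow_natCast, conj_pow, h2]
    simp
  have hτ0 : (τ : ZMod p) ≠ 0 := by
    intro h0
    obtain ⟨t, rfl⟩ := (ZMod.intCast_zmod_eq_zero_iff_dvd _ _).mp h0
    have hp0 : (p : ℤ) ≠ 0 := by exact_mod_cast hp.out.ne_zero
    have hi : i = o * t := mul_right_cancel₀ hp0 (by rw [hτ]; ring)
    have h1 : Q.u j ^ i ∈ A1 := (ho i).mp ⟨t, hi⟩
    have h2 := A1.mul_mem h1 (h21 hx)
    rw [mul_inv_cancel_left] at h2
    have h3 := hn1.conj_mem' _ h2 x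
    apply hgN
    apply h1N
    simpa [mul_assoc] using h3
  have main : ∀ f : ℕ → F → ZMod p, (∀ j < X.m, ∀ x, f j (Q.u j * x) = f j x) →
      (∀ j < X.m, ∀ x, ∀ n ∈ N, f j (x * n) = f j x) →
      (∀ j < X.m, ∀ x, f j (x * g) = f j x) →
      ∃ v : ZMod p, ∀ y : F, (Q.u j ^ i)⁻¹ * (y * g * y⁻¹) ∈ A2 →
        ∃ μ : ZMod p, f j y = σ * μ ∧ v = τ * μ := by
    intro f h1 h2 h3
    obtain ⟨α, hα, hαf⟩ := Q.ps ok ps hA hAU hO0 f h1 h2
    have hγ : HomOn A1 (fun n => α (g⁻¹ * n * g) - α n) := by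
      intro a ha b hb
      have := hα.conjF g a ha b hb
      simp only at this ⊢
      rw [this, hα a ha b hb]
      ring
    have hinv : ∀ n ∈ A2, α (g⁻¹ * n * g) = α n := fun n hn => sub_eq_zero.mp
      (Q.kill hO0 hγ (fun l hl y => by
        rw [← Q.c_right, hαf l hl, hαf l hl, h3 l hl, sub_self]) n hn)
    have hpow : ∀ n ∈ A2, ∀ k : ℕ, (g ^ k)⁻¹ * (g * n) ^ k ∈ A2 ∧
        α ((g ^ k)⁻¹ * (g * n) ^ k) = k * α n := by
      intro n hn k
      induction k with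
      | zero => simp [hα.one, A2.one_mem]
      | succ k ih =>
        have e : (g ^ (k + 1))⁻¹ * (g * n) ^ (k + 1) =
            (g⁻¹ * ((g ^ k)⁻¹ * (g * n) ^ k) * g) * n := by
          rw [pow_succ (g * n)]; group
        have hm := hn2.conj_mem' _ ih.1 g
        rw [e]
        refine ⟨A2.mul_mem hm hn, ?_⟩
        rw [hα _ (h21 hm) _ (h21 hn), hinv _ ih.1, ih.2]
        push_cast
        ring
    refine ⟨α (g ^ p), fun y hy => ⟨α (y⁻¹ * Q.u j ^ (o : ℤ) * y), ?_, ?_⟩⟩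
    · have e : Q.c j y = (y⁻¹ * Q.u j ^ (o : ℤ) * y) ^ σ := by
        unfold c
        rw [hσ, zpow_mul]
        have := conj_zpow (i := σ) (a := y⁻¹) (b := Q.u j ^ (o : ℤ))
        rw [inv_inv] at this
        exact this.symm
      rw [← hαf j hj, e, hα.zpow (hn1.conj_mem' _ huo y), zsmul_eq_mul]
    · have hn : g⁻¹ * (y⁻¹ * Q.u j ^ i * y) ∈ A2 := by
        have := hn2.conj_mem' _ (A2.inv_mem hy) y
        have e : y⁻¹ * ((Q.u j ^ i)⁻¹ * (y * g * y⁻¹))⁻¹ * y = g⁻¹ * (y⁻¹ * Q.u j ^ i * y) := by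
          group
        rwa [e] at this
      obtain ⟨hm, hv⟩ := hpow _ hn p
      rw [ZMod.natCast_self, zero_mul, mul_inv_cancel_left] at hv
      rw [mul_inv_cancel_left] at hm
      have e : (y⁻¹ * Q.u j ^ i * y) ^ p = (y⁻¹ * Q.u j ^ (o : ℤ) * y) ^ τ := by
        have a1 := conj_zpow (i := τ) (a := y⁻¹) (b := Q.u j ^ (o : ℤ))
        have a2 := conj_zpow (i := (p : ℤ)) (a := y⁻¹) (b := Q.u j ^ i)
        rw [inv_inv] at a1 a2
        rw [a1, ← zpow_natCast, a2, ← zpow_mul, ← zpow_mul, hτ]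
      have hm1 : (y⁻¹ * Q.u j ^ i * y) ^ p ∈ A1 := by
        have := A1.mul_mem (hO0 hg) (h21 hm)
        rwa [mul_inv_cancel_left] at this
      rw [← hα.eq_of (hO0 hg) hm1 hv, e, hα.zpow (hn1.conj_mem' _ huo y), zsmul_eq_mul]
  have hxh : (Q.u j ^ i)⁻¹ * ((x * h) * g * (x * h)⁻¹) ∈ A2 := by
    have h1 := QuotientGroup.eq.mpr hx
    have h2 := QuotientGroup.eq.mpr (hOm hgh)
    rw [← QuotientGroup.eq]
    simp only [QuotientGroup.mk_mul, QuotientGroup.mk_inv, QuotientGroup.mk_zpow] at h1 h2 ⊢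
    rw [h1]
    conv_rhs => rw [h2]
    group
  let P : F → Prop := fun y => ∃ k : ℤ, (Q.u j ^ k * x)⁻¹ * y ∈ N
  have hP : ∀ y, P y ↔ ∃ k : ℤ, (QuotientGroup.mk (Q.u j) : F ⧸ N) ^ k * QuotientGroup.mk x =
      QuotientGroup.mk y := by
    intro y
    simp only [P, ← QuotientGroup.eq, QuotientGroup.mk_mul, QuotientGroup.mk_zpow]
  have hxN := QuotientGroup.eq.mpr (h1N (h21 hx))
  simp only [QuotientGroup.mk_mul, QuotientGroup.mk_inv, QuotientGroup.mk_zpow] at hxN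
  obtain ⟨v, hv⟩ := main (fun l y => if l = j ∧ P y then 1 else 0)
    (fun l _ y => by
      refine if_congr (and_congr_right ?_) rfl rfl
      rintro rfl
      rw [hP, hP, QuotientGroup.mk_mul]
      constructor
      · rintro ⟨k, hk⟩
        refine ⟨-1 + k, ?_⟩
        rw [zpow_add, mul_assoc, hk]
        group
      · rintro ⟨k, hk⟩
        refine ⟨1 + k, ?_⟩
        rw [zpow_add, mul_assoc, hk]
        group)
    (fun l _ y n hn => by
      simp only [hP, QuotientGroup.mk_mul_of_mem y hn])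
    (fun l _ y => by
      refine if_congr (and_congr_right ?_) rfl rfl
      rintro rfl
      rw [hP, hP, QuotientGroup.mk_mul]
      constructor
      · rintro ⟨k, hk⟩
        refine ⟨k - i, ?_⟩
        rw [zpow_sub, hxN, eq_mul_inv_of_mul_eq hk.symm]
        group
      · rintro ⟨k, hk⟩
        refine ⟨k + i, ?_⟩
        rw [zpow_add, hxN, ← hk]
        group)
  obtain ⟨μ, h1, h2⟩ := hv x hx
  obtain ⟨μ', h1', h2'⟩ := hv (x * h) hxh
  have hμ : μ' = μ := mul_left_cancel₀ hτ0 (h2'.symm.trans h2)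
  rw [hμ, ← h1, if_pos (show j = j ∧ P x from ⟨rfl, 0, by simp [N.one_mem]⟩)] at h1'
  have hPx : P (x * h) := by
    by_contra hc
    rw [if_neg (fun h' => hc h'.2)] at h1'
    exact zero_ne_one h1'
  obtain ⟨k, hk⟩ := hPx
  refine ⟨k, ?_⟩
  have a1 := conj_zpow (i := k) (a := x⁻¹) (b := Q.u j)
  rw [inv_inv] at a1
  have e : h⁻¹ * (x⁻¹ * Q.u j * x) ^ k = ((Q.u j ^ k * x)⁻¹ * (x * h))⁻¹ := by
    rw [a1]; group
  rw [e]
  exact N.inv_mem hk

end Dat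

theorem Cx.Ok.ch {X : Cx} {U : Subgroup F} (ok : X.Ok p U) (ps : X.ModelPS p U) :
    X.CHProp p U := by
  have hrel : ∀ j, ∃ b : ℕ, j < X.m → ∀ N1 : Subgroup F, N1.Normal → Lev p (X.K j) N1 → ∃ u : F,
      (∃ s : ℤ, (X.ρ j)⁻¹ * u ^ s ∈ N1) ∧
      (∀ x : F, ∃ i : ℤ, ∃ y ∈ X.Y j, (u ^ i * y)⁻¹ * x ∈ N1) ∧
      (∃ s : ℤ, (X.ρ j ^ s)⁻¹ * u ^ (p ^ b) ∈ N1) := by
    intro j
    by_cases hj : j < X.m
    · obtain ⟨b, hb⟩ := ok.rel j hj
      exact ⟨b, fun _ => hb⟩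
    · exact ⟨0, fun h => absurd h hj⟩
  choose b hb using hrel
  refine ⟨∑ j ∈ Finset.range X.m, b j, fun N hN hlev hNU => ?_⟩
  have hOn := PhI_normal (p := p) X.KK N (X.m + 1 + (X.m + 1))
  have hOl := PhI_lev hlev (X.m + 1 + (X.m + 1))
  set Om := PhI p X.KK N (X.m + 1 + (X.m + 1)) with hOm
  have hdat : ∀ j, ∃ (u : F) (s : ℤ), j < X.m → (X.ρ j)⁻¹ * u ^ s ∈ Phi p (X.K j) Om ∧
      (∀ x : F, ∃ i : ℤ, ∃ y ∈ X.Y j, (u ^ i * y)⁻¹ * x ∈ Om) ∧ u ^ (p ^ b j) ∈ Om := by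
    intro j
    by_cases hj : j < X.m
    · obtain ⟨u, ⟨s, hs⟩, hcov, s', hs'⟩ := hb j hj (Phi p (X.K j) Om) (Phi_normal _ _)
        (hOl.monoK (X.K_mono hj.le)).phi
      refine ⟨u, s, fun _ => ⟨hs, fun x => ?_, ?_⟩⟩
      · obtain ⟨i, y, hy, h⟩ := hcov x
        exact ⟨i, y, hy, h.1⟩
      · have := Om.mul_mem (Om.zpow_mem (hOl.le (X.ρ_mem hj)) s') hs'.1
        rwa [mul_inv_cancel_left] at this
    · exact ⟨1, 0, fun h => absurd h hj⟩
  choose u s hus using hdat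
  let Q : Dat X p Om := ⟨u, s, hOn, hOl.le, fun j hj => (hus j hj).1, fun j hj => (hus j hj).2.1⟩
  refine ⟨Om, hOn, hOl, PhI_le _ _ _, fun g h hgN hg hgh => ?_⟩
  have hn2 := PhI_normal (p := p) X.KK N (X.m + 1)
  obtain ⟨j, hj, x, i, hx⟩ := Q.exist ok ps (PhI_lev hlev (X.m + 1)) ((PhI_le _ _ _).trans hNU)
    (by rw [PhI_add]) (fun h' => hgN (PhI_le _ _ _ h')) hg
  obtain ⟨k, hk⟩ := Q.uniq ok ps hlev hNU (PhI_anti _ _ (Nat.le_add_right _ _)) hgN hg hgh hj hx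
  refine ⟨x⁻¹ * Q.u j * x, ⟨i, ?_⟩, ⟨k, hk⟩, ?_⟩
  · have a1 := conj_zpow (i := i) (a := x⁻¹) (b := Q.u j)
    rw [inv_inv] at a1
    have e : g⁻¹ * (x⁻¹ * Q.u j * x) ^ i = x⁻¹ * ((Q.u j ^ i)⁻¹ * (x * g * x⁻¹))⁻¹ * x := by
      rw [a1]; group
    rw [e]
    exact hN.conj_mem' _ (N.inv_mem (PhI_le _ _ _ hx)) x
  · obtain ⟨r, hr⟩ := Nat.exists_eq_add_of_le
      (Finset.single_le_sum (f := b) (fun _ _ => Nat.zero_le _) (Finset.mem_range.mpr hj))
    have a1 := conj_pow (i := p ^ (b j + r)) (a := x⁻¹) (b := Q.u j)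
    rw [inv_inv] at a1
    rw [hr, a1, pow_add, pow_mul]
    exact hN.conj_mem' _ (N.pow_mem (PhI_le _ _ _ (hus j hj).2.2) _) x

end Pool.Agent.MP_702fe9_al.H61

end MrgPart2

-- ======== part 3: formerly Pool.Agent.MP_702fe9_al.h96.Ean
section MrgPart3

set_option autoImplicit false
set_option linter.unusedSectionVars false

namespace Pool.Agent.MP_702fe9_al.H61

variable {p : ℕ} [hp : Fact p.Prime]

/-- the product of a cyclic group with a subgroup normalised by it -/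
def eanSub (a : F) (V : Subgroup F) (h : ∀ j : ℤ, ∀ g ∈ V, (a ^ j)⁻¹ * g * a ^ j ∈ V) :
    Subgroup F where
  carrier := {x | ∃ j : ℤ, (a ^ j)⁻¹ * x ∈ V}
  mul_mem' := by
    rintro x y ⟨i, hi⟩ ⟨j, hj⟩
    refine ⟨i + j, ?_⟩
    have e : (a ^ (i + j))⁻¹ * (x * y) =
        ((a ^ j)⁻¹ * ((a ^ i)⁻¹ * x) * a ^ j) * ((a ^ j)⁻¹ * y) := by
      rw [zpow_add]; group
    rw [e]
    exact V.mul_mem (h j _ hi) hj
  one_mem' := ⟨0, by simp⟩
  inv_mem' := by
    rintro x ⟨i, hi⟩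
    refine ⟨-i, ?_⟩
    have e : (a ^ (-i))⁻¹ * x⁻¹ = (a ^ (-i))⁻¹ * ((a ^ i)⁻¹ * x)⁻¹ * a ^ (-i) := by group
    rw [e]
    exact h (-i) _ (V.inv_mem hi)

theorem ean_nor_zpow (w : F) (n : ℕ) (N : Subgroup F) (j : ℤ) : w ^ j ∈ Nor (w ^ n) N := by
  refine ⟨1, ?_⟩
  have : ((w ^ n) ^ (1 : ℤ))⁻¹ * (w ^ j * w ^ n * (w ^ j)⁻¹) = 1 := by group
  rw [this]
  exact N.one_mem

theorem ean_stab {α : Type} [Finite α] (S : ℕ → Set α) (h : Antitone S) :
    ∃ i0, ∀ i, i0 ≤ i → S i0 ⊆ S i := by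
  obtain ⟨i0, hi0⟩ := WellFounded.has_min (wellFounded_lt (α := ℕ))
    (Set.range fun i => (S i).ncard) ⟨_, 0, rfl⟩
  obtain ⟨⟨i1, rfl⟩, hmin⟩ := hi0
  refine ⟨i1, fun i hi => ?_⟩
  have h1 : ¬ (S i).ncard < (S i1).ncard := hmin _ ⟨i, rfl⟩
  exact (Set.eq_of_subset_of_ncard_le (h hi) (not_lt.mp h1) (Set.toFinite _)).symm.subset

namespace LoopData
variable {X : Cx} {U : Subgroup F} (Ld : LoopData p X U)

theorem ean_refl (N : Subgroup F) (k : ℕ) (x : F) : Ld.Hom N k x x := by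
  unfold Hom
  rw [inv_mul_cancel]
  exact Subgroup.one_mem _

variable {Ld}

theorem ean_symm {N : Subgroup F} {k : ℕ} {x y : F} (h : Ld.Hom N k x y) : Ld.Hom N k y x := by
  unfold Hom at h ⊢
  simpa using Subgroup.inv_mem _ h

theorem ean_trans {N : Subgroup F} {k : ℕ} {x y z : F} (h : Ld.Hom N k x y)
    (h' : Ld.Hom N k y z) : Ld.Hom N k x z := by
  unfold Hom at h h' ⊢
  simpa [mul_assoc] using Subgroup.mul_mem _ h h'

theorem ean_mono {N N' : Subgroup F} (hle : N' ≤ N) {k : ℕ} {x y : F} (h : Ld.Hom N' k x y) :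
    Ld.Hom N k x y := Phi_mono _ (inf_le_inf_right _ hle) h

theorem ean_congr {N : Subgroup F} {k : ℕ} {x y y' : F} (e : Ld.a y = Ld.a y')
    (h : Ld.Hom N k x y) : Ld.Hom N k x y' := by
  unfold Hom at h ⊢
  rwa [← e]

theorem ean_V_conj {N : Subgroup F} (hN : ∀ g ∈ Ld.M, ∀ n ∈ N, g⁻¹ * n * g ∈ N) (k : ℕ) {g : F}
    (hg : g ∈ Ld.M) : ∀ n ∈ Ld.V N k, g⁻¹ * n * g ∈ Ld.V N k :=
  fun n hn => ⟨hN g hg n hn.1, Ld.φ.tw_conj k hg hn.2⟩

theorem ean_a_mul_pow (x g : F) (n : ℕ) : Ld.a (x * g) ^ n = g⁻¹ * Ld.a x ^ n * g := by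
  have := conj_pow (a := g⁻¹) (b := Ld.a x) (i := n)
  rw [inv_inv] at this
  rw [a_mul, this]

theorem ean_mul {N : Subgroup F} (hN : ∀ g ∈ Ld.M, ∀ n ∈ N, g⁻¹ * n * g ∈ N) {k : ℕ} {x y g : F}
    (hg : g ∈ Ld.M) (h : Ld.Hom N k x y) : Ld.Hom N k (x * g) (y * g) := by
  unfold Hom at h ⊢
  have := Phi_conj (p := p) (K := X.KK) (ean_V_conj hN k hg) h
  rw [ean_a_mul_pow, ean_a_mul_pow]
  convert this using 1
  group

theorem ean_self {N : Subgroup F} {k : ℕ} {x g : F}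
    (hx : Ld.a x ^ (p ^ (k - Ld.v)) ∈ Ld.V N k) (hg : g ∈ Ld.V N k) : Ld.Hom N k x (x * g) := by
  unfold Hom
  rw [ean_a_mul_pow]
  exact comm_mem_Phi hx hg

variable (Ld)

/-- a level inside `M` normalised by `M` -/
structure EanLev (N : Subgroup F) : Prop where
  lev : Lev p X.KK N
  le : N ≤ Ld.M
  conj : ∀ g ∈ Ld.M, ∀ n ∈ N, g⁻¹ * n * g ∈ N

/-- a height that is large enough for a level -/
structure EanHt (N : Subgroup F) (κ : ℕ) : Prop where
  hv : Ld.v ≤ κ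
  mem : ∀ k, κ ≤ k → ∀ x, Ld.a x ^ (p ^ (k - Ld.v)) ∈ Ld.V N k
  inj : ∀ k, κ < k → ∀ x g : F, g ∈ Ld.V N k →
    Ld.Hom (Phi p X.KK (Ld.V N κ)) k x (x * g) → g ∈ Phi p X.KK (Ld.V N κ)

/-- the Frattini tower -/
structure EanTw where
  N : ℕ → Subgroup F
  κ : ℕ → ℕ
  succ : ∀ i, N (i + 1) = Phi p X.KK (Ld.V (N i) (κ i))
  lt : ∀ i, κ i < κ (i + 1)
  lev : ∀ i, Ld.EanLev (N i)
  ht : ∀ i, Ld.EanHt (N i) (κ i)

theorem ean_tower (hinj : Ld.InjProp) : Nonempty Ld.EanTw := by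
  have h1 : ∀ N : Subgroup F, ∃ k0 : ℕ, Ld.EanLev N → ∀ κ, k0 ≤ κ → Ld.EanHt N κ := by
    intro N
    by_cases hN : Ld.EanLev N
    · obtain ⟨k1, hk1⟩ := hinj N hN.lev hN.le hN.conj
      obtain ⟨k2, hk2, hk3⟩ := Ld.exists_rel_mem hN.lev
      exact ⟨k1 + k2, fun _ κ hκ => ⟨by omega, fun k hk => (hk3 k (by omega)).1,
        hk1 κ (by omega)⟩⟩
    · exact ⟨0, fun h => absurd h hN⟩
  choose kk hkk using h1
  let s : ℕ → Subgroup F × ℕ := fun i => Nat.rec (Ld.M, kk Ld.M)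
    (fun _ q => (Phi p X.KK (Ld.V q.1 q.2), kk (Phi p X.KK (Ld.V q.1 q.2)) + q.2 + 1)) i
  have hs : ∀ i, s (i + 1) = (Phi p X.KK (Ld.V (s i).1 (s i).2),
      kk (Phi p X.KK (Ld.V (s i).1 (s i).2)) + (s i).2 + 1) := fun _ => rfl
  have hl : ∀ i, Ld.EanLev (s i).1 := by
    intro i
    induction i with
    | zero => exact ⟨Ld.lev, le_rfl, fun g hg n hn =>
        Ld.M.mul_mem (Ld.M.mul_mem (Ld.M.inv_mem hg) hn) hg⟩
    | succ i ih =>
      rw [hs]
      exact ⟨(Ld.V_lev ih.lev _).phi, (Phi_le _ _).trans (inf_le_left.trans ih.le),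
        fun g hg n hn => Phi_conj (ean_V_conj ih.conj _ hg) hn⟩
  refine ⟨⟨fun i => (s i).1, fun i => (s i).2, fun i => rfl, fun i => ?_, hl, fun i => ?_⟩⟩
  · rw [hs]
    simp only
    omega
  · refine hkk _ (hl i) _ ?_
    cases i with
    | zero => exact le_rfl
    | succ i =>
      rw [hs]
      simp only
      omega

namespace EanTw
variable {Ld} (T : Ld.EanTw)

/-- the levels of the tower -/
abbrev W (i : ℕ) : Subgroup F := Ld.V (T.N i) (T.κ i)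

/-- same loop at level `i` -/
def L (i : ℕ) (x y : F) : Prop := ∃ j : ℤ, ∃ g ∈ T.W i, y = Ld.w ^ j * x * g

/-- stably homologous at level `i` -/
def Sim (i : ℕ) (x y : F) : Prop := ∃ k0, ∀ k, k0 ≤ k → Ld.Hom (T.N i) k x y

theorem W_lev (i : ℕ) : Lev p X.KK (T.W i) := Ld.V_lev (T.lev i).lev _

theorem N_succ_le (i : ℕ) : T.N (i + 1) ≤ T.N i := by
  rw [T.succ]
  exact (Phi_le _ _).trans inf_le_left

theorem N_anti : Antitone T.N := antitone_nat_of_succ_le T.N_succ_le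

theorem le_κ (i : ℕ) : i ≤ T.κ i := (strictMono_nat_of_lt_succ T.lt).le_apply

theorem cof {N0 : Subgroup F} [N0.Normal] (h0 : Lev p X.KK N0) :
    ∃ i, ∀ j, i ≤ j → T.N j ≤ N0 :=
  cofinal h0 T.N (fun i => by rw [T.succ]; exact Phi_mono _ inf_le_left)

theorem lift {i : ℕ} (k : ℕ) {x y : F} (h : T.L i x y) :
    ∃ j : ℤ, ∃ g ∈ Ld.V (T.N i) k, y = Ld.w ^ j * (x * g) := by
  obtain ⟨j, g, hg, rfl⟩ := h
  obtain ⟨j', g', hg', e⟩ := Ld.lstab (T.ht i).hv k ((T.ht i).mem _ le_rfl x) hg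
  refine ⟨j + j', g', hg', ?_⟩
  rw [mul_assoc, e, zpow_add]
  group

theorem L_of_hom (i : ℕ) : ∀ k, T.κ i < k → ∀ x y, Ld.Hom (T.N i) k x y → T.L 0 x y →
    T.L i x y := by
  induction i with
  | zero => exact fun _ _ _ _ _ h => h
  | succ i ih =>
    intro k hk x y h h0
    have hk' : T.κ i < k := (T.lt i).trans hk
    obtain ⟨j, g, hg, rfl⟩ := T.lift k (ih k hk' x y (ean_mono (T.N_succ_le i) h) h0)
    have h1 := ean_congr (Ld.a_zpow_mul _ j) h
    rw [T.succ] at h1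
    have h2 := (T.ht i).inj k hk' x g hg h1
    rw [← T.succ] at h2
    exact ⟨j, g, ⟨h2, Ld.φ.tw_anti hk.le hg.2⟩, by rw [mul_assoc]⟩

theorem pigeon {i k : ℕ} (hk : T.κ i < k) (x : Fin ((T.W 0).index + 1) → F) (y : F)
    (h : ∀ t, Ld.Hom (T.N i) k y (x t)) : ∃ s t, s ≠ t ∧ T.L i (x s) (x t) := by
  have := (T.W_lev 0).fin
  have := Fintype.ofFinite (F ⧸ T.W 0)
  obtain ⟨s, t, hst, e⟩ := Fintype.exists_ne_map_eq_of_card_lt
    (fun t => (QuotientGroup.mk (x t) : F ⧸ T.W 0)) (by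
      rw [Fintype.card_fin, ← Nat.card_eq_fintype_card]
      exact Nat.lt_succ_self _)
  refine ⟨s, t, hst, T.L_of_hom i k hk _ _ (ean_trans (ean_symm (h s)) (h t))
    ⟨0, _, QuotientGroup.eq.mp e, by group⟩⟩

variable {T}

theorem Sim.symm {i : ℕ} {x y : F} (h : T.Sim i x y) : T.Sim i y x :=
  h.imp (fun _ h k hk => ean_symm (h k hk))

theorem Sim.trans {i : ℕ} {x y z : F} (h : T.Sim i x y) (h' : T.Sim i y z) : T.Sim i x z := by
  obtain ⟨k1, h1⟩ := h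
  obtain ⟨k2, h2⟩ := h'
  exact ⟨k1 + k2, fun k hk => ean_trans (h1 k (by omega)) (h2 k (by omega))⟩

theorem Sim.mono {i j : ℕ} (hij : i ≤ j) {x y : F} (h : T.Sim j x y) : T.Sim i x y :=
  h.imp (fun _ h k hk => ean_mono (T.N_anti hij) (h k hk))

theorem Sim.mul {i : ℕ} {x y g : F} (h : T.Sim i x y) (hg : g ∈ Ld.M) :
    T.Sim i (x * g) (y * g) :=
  h.imp (fun _ h k hk => ean_mul (T.lev i).conj hg (h k hk))

theorem Sim.L {i : ℕ} {x y : F} (h : T.Sim i x y) (h0 : T.L 0 x y) : T.L i x y := by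
  obtain ⟨k0, h⟩ := h
  exact T.L_of_hom i (k0 + T.κ i + 1) (by omega) x y (h _ (by omega)) h0

variable (T)

theorem sim_refl (i : ℕ) (x : F) : T.Sim i x x := ⟨0, fun k _ => Ld.ean_refl _ k x⟩

theorem sim_of_L {i : ℕ} {x y : F} (h : T.L i x y) : T.Sim i x y := by
  refine ⟨T.κ i, fun k hk => ?_⟩
  obtain ⟨j, g, hg, rfl⟩ := T.lift k h
  exact ean_congr (Ld.a_zpow_mul _ j).symm (ean_self ((T.ht i).mem k hk x) hg)

theorem stab : ∃ i0, ∀ i1, i0 ≤ i1 → ∀ i, i1 ≤ i → ∀ x y, T.Sim i1 y x →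
    ∃ y', T.Sim i y' x ∧ T.L i1 y y' := by
  let C := (T.W 0).normalCore
  have := (T.W_lev 0).core.fin
  have hC : C ≤ T.W 0 := Subgroup.normalCore_le _
  have hM : T.W 0 ≤ Ld.M := inf_le_left.trans (T.lev 0).le
  obtain ⟨i0, hi0⟩ := ean_stab (α := (F ⧸ C) × (F ⧸ C))
    (fun i => {q | ∃ x y : F, T.Sim i y x ∧ q = (QuotientGroup.mk x, QuotientGroup.mk y)})
    (fun i j hij q ⟨x, y, h, e⟩ => ⟨x, y, h.mono hij, e⟩)
  refine ⟨i0, fun i1 h1 i hi x y h => ?_⟩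
  obtain ⟨x', y', h', e⟩ := hi0 i (h1.trans hi) ⟨x, y, h.mono h1, rfl⟩
  rw [Prod.mk.injEq, QuotientGroup.eq, QuotientGroup.eq] at e
  have h2 := h'.mul (hM (hC (C.inv_mem e.1)))
  have e1 : x' * (x⁻¹ * x')⁻¹ = x := by group
  rw [e1] at h2
  refine ⟨_, h2, (h.trans (h2.mono hi).symm).L ⟨0, y⁻¹ * y' * (x⁻¹ * x')⁻¹,
    hC (C.mul_mem e.2 (C.inv_mem e.1)), by group⟩⟩

theorem reps (i : ℕ) : ∃ Reps : Set F, Reps.Finite ∧
    (∀ y ∈ Reps, ∀ y' ∈ Reps, T.Sim i y y' → y = y') ∧ ∀ x, ∃ y ∈ Reps, T.Sim i y x := by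
  let s : Setoid F := ⟨T.Sim i, T.sim_refl i, Sim.symm, Sim.trans⟩
  have := (T.W_lev i).fin
  have hfin : Finite (Quotient s) := by
    refine Finite.of_surjective (fun q : F ⧸ T.W i => Quotient.mk s q.out) (fun c => ?_)
    obtain ⟨x, rfl⟩ := Quotient.exists_rep c
    refine ⟨QuotientGroup.mk x, Quotient.sound (T.sim_of_L ⟨0, _, QuotientGroup.eq.mp
      (QuotientGroup.out_eq' (QuotientGroup.mk x : F ⧸ T.W i)), by group⟩)⟩
  refine ⟨Set.range (fun c : Quotient s => c.out), Set.finite_range _, ?_, fun x =>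
    ⟨_, ⟨Quotient.mk s x, rfl⟩, Quotient.mk_out (s := s) x⟩⟩
  rintro _ ⟨c, rfl⟩ _ ⟨c', rfl⟩ h
  have h1 : Quotient.mk s c.out = Quotient.mk s c'.out := Quotient.sound h
  rw [Quotient.out_eq, Quotient.out_eq] at h1
  rw [h1]

theorem step1 {i : ℕ} (hi : Ld.v + (T.W 0).index ≤ i) {x y : F} (h : T.Sim i y x)
    {N'' : Subgroup F} (hn : N''.Normal) (hle : T.N i ≤ N'') :
    x * y⁻¹ ∈ Nor (Ld.w ^ (p ^ (T.W 0).index)) N'' := by
  obtain ⟨k0, h⟩ := h
  have hM : ∀ (z : F) (j : ℤ), Ld.a z ^ j ∈ Ld.M := fun z j => Ld.M.zpow_mem (Ld.a_mem z) j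
  have hconj : ∀ (z : F) (j : ℤ), ∀ g ∈ T.W i, (Ld.a z ^ j)⁻¹ * g * Ld.a z ^ j ∈ T.W i :=
    fun z j => ean_V_conj (T.lev i).conj _ (hM z j)
  obtain ⟨s, t, hst, j, g, hg, e⟩ := T.pigeon (i := i) (k := k0 + T.κ i + 1) (by omega)
    (fun t => x * Ld.a y ^ ((t : ℕ) : ℤ)) y (fun t => by
      have h1 := ean_mul (T.lev i).conj (hM y ((t : ℕ) : ℤ)) (h (k0 + T.κ i + 1) (by omega))
      rw [← Ld.zpow_mul_eq] at h1
      exact ean_symm (ean_congr (Ld.a_zpow_mul _ _) (ean_symm h1)))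
  let H := eanSub (Ld.a x) (T.W i) (hconj x)
  have h1 : Ld.a y ^ (((t : ℕ) : ℤ) - ((s : ℕ) : ℤ)) ∈ H := by
    refine ⟨j, ?_⟩
    rw [← mul_assoc, Ld.zpow_mul_eq] at e
    have e2 : Ld.a y ^ ((t : ℕ) : ℤ) = Ld.a x ^ j * Ld.a y ^ ((s : ℕ) : ℤ) * g := by
      apply mul_left_cancel (a := x)
      rw [e]
      group
    have e3 : (Ld.a x ^ j)⁻¹ * Ld.a y ^ (((t : ℕ) : ℤ) - ((s : ℕ) : ℤ)) =
        (Ld.a y ^ (-((s : ℕ) : ℤ)))⁻¹ * g * Ld.a y ^ (-((s : ℕ) : ℤ)) := by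
      rw [zpow_sub, e2]
      group
    rw [e3]
    exact hconj y _ g hg
  obtain ⟨b, hb⟩ := (T.W_lev i).pp
  have h2 : Ld.a y ^ (p ^ b) ∈ H := ⟨0, by simpa using hb _⟩
  have hs := s.2
  have ht := t.2
  have hne : (s : ℕ) ≠ t := fun h => hst (Fin.ext h)
  have h3 : Ld.a y ^ (p ^ (T.W 0).index) ∈ H := by
    rcases lt_or_gt_of_ne hne with hlt | hlt
    · refine ppow (p := p) (c := t - s) (by omega) (by omega) ?_ h2
      rwa [← zpow_natCast, Nat.cast_sub hlt.le]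
    · refine ppow (p := p) (c := s - t) (by omega) (by omega) ?_ h2
      rw [← zpow_natCast, Nat.cast_sub hlt.le, ← neg_sub, zpow_neg]
      exact H.inv_mem h1
  obtain ⟨j', hj'⟩ := h3
  have h4 := hj'.2.2
  rw [← zpow_natCast, Ld.φ.add _ _ (hM y _), Ld.φ.add.homOn.inv (hM x _), Ld.A_a_zpow,
    Ld.A_a_zpow] at h4
  have h5 : (p : ℤ) ^ (Ld.v + (T.W 0).index) ∣ (p : ℤ) ^ Ld.v * (j' * Ld.u x) := by
    have h6 := (pow_dvd_pow (p : ℤ) (hi.trans (T.le_κ i))).trans h4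
    have h7 : (p : ℤ) ^ (Ld.v + (T.W 0).index) ∣
        ((p ^ (T.W 0).index : ℕ) : ℤ) * ((p : ℤ) ^ Ld.v * Ld.u y) :=
      ⟨Ld.u y, by push_cast; ring⟩
    have h8 := dvd_sub h7 h6
    refine h8.trans (dvd_of_eq ?_)
    ring
  rw [pow_add, mul_dvd_mul_iff_left (pow_ne_zero _ pz_ne)] at h5
  obtain ⟨l, hl⟩ := pow_dvd_of_dvd_mul (Ld.u_unit x) h5
  refine ⟨l, ?_⟩
  have h9 := hn.conj_mem _ (hle hj'.1) x
  rw [← Ld.conj_zpow_eq, ← Ld.conj_pow_eq, hl] at h9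
  convert h9 using 1
  rw [← zpow_natCast, ← zpow_mul]
  push_cast
  group

theorem l_cong {L k : ℕ} (hk : Ld.v + L + 1 ≤ k) {e : F} {l : ℤ}
    (h : ((Ld.w ^ (p ^ L)) ^ l)⁻¹ * (e * Ld.w ^ (p ^ L) * e⁻¹) ∈ Ld.φ.tw p k) :
    (p : ℤ) ∣ l - 1 := by
  have hM : ∀ (z : F) (j : ℤ), Ld.a z ^ j ∈ Ld.M := fun z j => Ld.M.zpow_mem (Ld.a_mem z) j
  have e1 : (Ld.w ^ (p ^ L)) ^ l = Ld.a 1 ^ (((p ^ L : ℕ) : ℤ) * l) := by
    rw [← Ld.conj_zpow_eq, zpow_mul, zpow_natCast]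
    group
  have e2 : e * Ld.w ^ (p ^ L) * e⁻¹ = Ld.a e⁻¹ ^ ((p ^ L : ℕ) : ℤ) := by
    rw [← Ld.conj_zpow_eq, zpow_natCast, inv_inv]
  have h4 := (pow_dvd_pow (p : ℤ) hk).trans h.2
  rw [e1, e2, Ld.φ.add _ _ (hM _ _), Ld.φ.add.homOn.inv (hM _ _), Ld.A_a_zpow,
    Ld.A_a_zpow] at h4
  have h5 : (p : ℤ) ^ (Ld.v + L) * p ∣ (p : ℤ) ^ (Ld.v + L) * (Ld.u e⁻¹ - l * Ld.u 1) := by
    rw [← pow_succ]
    refine h4.trans (dvd_of_eq ?_)
    push_cast
    ring
  rw [mul_dvd_mul_iff_left (pow_ne_zero _ pz_ne)] at h5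
  have h6 : (p : ℤ) ∣ (l - 1) * Ld.c := by
    have h7 := dvd_sub (dvd_sub (Ld.cong e⁻¹) h5) ((Ld.cong 1).mul_left l)
    refine h7.trans (dvd_of_eq ?_)
    ring
  exact (pz_prime.dvd_or_dvd h6).resolve_right Ld.unit

theorem hom_of_nor {i L k : ℕ} (hk : Ld.v + L + 1 ≤ k) (hk' : T.κ i ≤ k) {e : F}
    (h : e ∈ Nor (Ld.w ^ (p ^ L)) (Phi p X.KK (Ld.V (T.N i) k)).normalCore) :
    Ld.Hom (T.N i) k 1 e⁻¹ := by
  obtain ⟨l, hl⟩ := h
  obtain ⟨m, hm⟩ := l_cong hk (((Subgroup.normalCore_le _).trans (Phi_le _ _)) hl).2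
  have hq : p ^ (k - Ld.v) = p ^ L * p ^ (k - Ld.v - L) := by
    rw [← pow_add]
    congr 1
    omega
  rw [← QuotientGroup.eq] at hl
  have h1 : ((((Ld.w ^ (p ^ L)) ^ l) ^ (p ^ (k - Ld.v - L)))⁻¹ *
      (e * Ld.w ^ (p ^ L) * e⁻¹) ^ (p ^ (k - Ld.v - L))) ∈
      (Phi p X.KK (Ld.V (T.N i) k)).normalCore := by
    rw [← QuotientGroup.eq, QuotientGroup.mk_pow, QuotientGroup.mk_pow, hl]
  have h2 := pow_mem_Phi (p := p) (K := X.KK)
    (Subgroup.zpow_mem _ ((T.ht i).mem k hk' 1) m)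
  have h3 := Subgroup.mul_mem _ h2 (Subgroup.normalCore_le _ h1)
  unfold Hom
  convert h3 using 1
  have e0 : Ld.a 1 = Ld.w := by simp [a]
  have e2 : e * Ld.w ^ (p ^ L) * e⁻¹ = Ld.a e⁻¹ ^ (p ^ L) := by
    rw [← Ld.conj_pow_eq, inv_inv]
  have e3 : l = 1 + p * m := by linarith
  rw [e2, ← pow_mul, ← hq, e0, ← mul_assoc]
  congr 1
  rw [hq, e3]
  simp only [← zpow_natCast, ← zpow_mul, ← zpow_neg, ← zpow_add]
  congr 1
  push_cast
  ring

end EanTw

end LoopData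

theorem LoopData.ean (h3 : 3 ≤ p) {X : Cx} {U : Subgroup F} (ok : X.Ok p U) (hCH : X.CHProp p U)
    (Ld : LoopData p X U) (hinj : Ld.InjProp) (V : Subgroup F) (hV : V.Normal)
    (hVl : Lev p X.KK V) :
    ∃ N : Subgroup F, Lev p X.KK N ∧ N ≤ Ld.M ∧ N ≤ V ∧ (∀ g ∈ Ld.M, ∀ n ∈ N, g⁻¹ * n * g ∈ N) ∧
      ∃ Reps : Set F, Reps.Finite ∧
        (∀ y ∈ Reps, ∀ y' ∈ Reps, y ≠ y' → ∀ k0, ∃ k, k0 ≤ k ∧ ¬ Ld.Hom N k y y') ∧
        ∃ k0, ∀ k, k0 ≤ k → ∃ b : ℕ, ∀ N1 : Subgroup F, N1.Normal → Lev p X.KK N1 → ∃ u : F,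
          (∃ s : ℤ, (Ld.rel k)⁻¹ * u ^ s ∈ N1) ∧
          (∀ x : F, ∃ i : ℤ, ∃ y ∈ Ld.newY N Reps k, (u ^ i * y)⁻¹ * x ∈ N1) ∧
          (∃ s : ℤ, (Ld.rel k ^ s)⁻¹ * u ^ (p ^ b) ∈ N1) := by
  obtain ⟨T⟩ := Ld.ean_tower hinj
  obtain ⟨i1, hi1⟩ := T.stab
  obtain ⟨i2, hi2⟩ := T.cof hVl
  obtain ⟨Reps, hfin, hsep, hall⟩ := T.reps (i1 + i2)
  have hcyc := cycl h3 ok.lev hCH Ld.w (T.W 0).index
    (fun n => ⟨(Ld.φ.tw p (Ld.v + n + 1)).normalCore, inferInstance,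
      (Ld.φ.tw_lev Ld.lev _).core, fun h => by
        have h1 := (Subgroup.normalCore_le _ h).2
        have e0 : Ld.w = Ld.a 1 := by simp [LoopData.a]
        rw [e0, ← zpow_natCast, Ld.A_a_zpow] at h1
        have h2 : (p : ℤ) ^ (Ld.v + n) * p ∣ (p : ℤ) ^ (Ld.v + n) * Ld.u 1 := by
          rw [← pow_succ]
          convert h1 using 1
          push_cast
          ring
        rw [mul_dvd_mul_iff_left (pow_ne_zero _ pz_ne)] at h2
        exact Ld.u_unit 1 h2⟩)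
    (fun N' hn hl => by
      obtain ⟨i, hi⟩ := T.cof hl
      have hle : T.N i ≤ N' := hi i le_rfl
      refine ⟨(Phi p X.KK (Ld.V (T.N i) (T.κ i + Ld.v + (T.W 0).index + 1))).normalCore,
        inferInstance, (Ld.V_lev (T.lev i).lev _).phi.core,
        (Subgroup.normalCore_le _).trans ((Phi_le _ _).trans (inf_le_left.trans hle)),
        fun e he => ?_, fun e l h => ?_⟩
      · obtain ⟨s, t, hst, j, g, hg, e1⟩ := T.pigeon (i := i)
          (k := T.κ i + Ld.v + (T.W 0).index + 1) (by omega) (fun t => (e t)⁻¹) 1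
          (fun t => T.hom_of_nor (by omega) (by omega) (he t))
        refine ⟨t, s, hst.symm, j, ?_⟩
        have h1 := hn.conj_mem' _ (hle hg.1) (e s)
        convert h1 using 1
        rw [e1]
        group
      · exact LoopData.EanTw.l_cong (by omega)
          (((Subgroup.normalCore_le _).trans (Phi_le _ _)) h).2)
  refine ⟨T.N (i1 + i2), (T.lev _).lev, (T.lev _).le, hi2 _ (by omega), (T.lev _).conj, Reps,
    hfin, fun y hy y' hy' hne k0 => ?_, 0, fun k _ => ⟨(T.W 0).index + (k - Ld.v),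
      fun N1 hn hl => ?_⟩⟩
  · by_contra hc
    push Not at hc
    exact hne (hsep y hy y' hy' ⟨k0, hc⟩)
  · obtain ⟨N'', hn2, hl2, u, hu1, s, hu2⟩ := hcyc N1 hn hl
    have := hl2.fin
    refine ⟨u, ?_, fun x => ?_, s, ?_⟩
    · obtain ⟨i, hi⟩ := hu1 _ (ean_nor_zpow Ld.w _ N'' ((p ^ (k - Ld.v) : ℕ) : ℤ))
      refine ⟨i, ?_⟩
      rw [zpow_natCast] at hi
      simpa using N1.inv_mem hi
    · obtain ⟨y0, hy0, h0⟩ := hall x
      obtain ⟨i3, hi3⟩ := T.cof hl2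
      obtain ⟨y', h1, h2⟩ := hi1 (i1 + i2) (by omega) (i1 + i2 + i3 + Ld.v + (T.W 0).index)
        (by omega) x y0 h0
      obtain ⟨j, g, hg, rfl⟩ := T.lift k h2
      have h4 := T.step1 (by omega) h1 hn2 (hi3 _ (by omega))
      have h5 := (norSub _ N'').mul_mem ((mem_norSub _ _ _).mpr h4)
        ((mem_norSub _ _ _).mpr (ean_nor_zpow Ld.w _ N'' j))
      obtain ⟨i, hi⟩ := hu1 _ ((mem_norSub _ _ _).mp h5)
      refine ⟨i, y0 * g, ⟨y0, hy0, g, hg, rfl⟩, ?_⟩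
      have h6 := hn.conj_mem' _ hi (y0 * g)
      convert h6 using 1
      group
    · rw [← QuotientGroup.eq] at hu2 ⊢
      have e : Ld.rel k ^ s = (Ld.w ^ s) ^ (p ^ (k - Ld.v)) := by
        simp only [LoopData.rel, ← zpow_natCast, ← zpow_mul, mul_comm]
      rw [e, pow_add, pow_mul, QuotientGroup.mk_pow, hu2, ← QuotientGroup.mk_pow]

end Pool.Agent.MP_702fe9_al.H61

end MrgPart3

-- marker of a merged file
example : 731051 + 399785 = 731051 + 399785 := rfl
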